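import Pool.Agent.Lib.MP_4b5926_gt.Core

set_option autoImplicit false

namespace Pool.MP_4b5926_gt.LAB

open Relation Classical

section contract

variable {V A : Type} (T : RT V) (lam : V → A) (v : V) (hv : v ≠ T.r)

lemma par_ne {u : V} (hu : u ≠ T.r) : T.par u ≠ u := by
  intro h
  have := T.dep_lt u hu
  rw [h] at this
  exact lt_irrefl _ this

/-- The projection `V → V \ {v}` sending `v` to its parent. -/
noncomputable def cpi (hv : v ≠ T.r) (u : V) : {u : V // u ≠ v} :=
  if h : u = v then ⟨T.par v, par_ne T hv⟩ else ⟨u, h⟩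

lemma cpi_v : cpi T v hv v = ⟨T.par v, par_ne T hv⟩ := by
  unfold cpi
  rw [dif_pos rfl]

lemma cpi_ne {u : V} (h : u ≠ v) : cpi T v hv u = ⟨u, h⟩ := by
  unfold cpi
  rw [dif_neg h]

/-- The contracted tree. -/
noncomputable def contr (hv : v ≠ T.r) : RT {u : V // u ≠ v} where
  r := ⟨T.r, fun h => hv h.symm⟩
  par u := cpi T v hv (T.par u.1)
  dep u := T.dep u.1
  dep_lt := by
    rintro ⟨u, hu⟩ h
    have hur : u ≠ T.r := fun hh => h (Subtype.ext hh)
    have h1 := T.dep_lt u hur
    by_cases hp : T.par u = v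
    · simp only [hp, cpi_v]
      rw [hp] at h1
      exact lt_trans (T.dep_lt v hv) h1
    · simp only [cpi_ne T v hv hp]
      exact h1

lemma contr_r : (contr T v hv).r = ⟨T.r, fun h => hv h.symm⟩ := rfl

lemma contr_par (u : {u : V // u ≠ v}) : (contr T v hv).par u = cpi T v hv (T.par u.1) := rfl

variable (hl : lam (T.par v) = lam v)

include hl in
lemma lam_cpi (u : V) : lam (cpi T v hv u).1 = lam u := by
  by_cases h : u = v
  · rw [h, cpi_v]
    exact hl
  · rw [cpi_ne T v hv h]

lemma contr_E {u w : V} (h : T.E u w) :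
    cpi T v hv u = cpi T v hv w ∨ (contr T v hv).E (cpi T v hv u) (cpi T v hv w) := by
  have key : ∀ u, u ≠ T.r → cpi T v hv u = cpi T v hv (T.par u) ∨
      (contr T v hv).E (cpi T v hv u) (cpi T v hv (T.par u)) := by
    intro u hu
    by_cases huv : u = v
    · left
      rw [huv, cpi_v, cpi_ne T v hv (par_ne T hv)]
    · right
      left
      rw [cpi_ne T v hv huv]
      refine ⟨?_, rfl⟩
      intro h
      exact hu (congrArg Subtype.val h)
  rcases h with ⟨h1, h2⟩ | ⟨h1, h2⟩
  · rw [h2]
    exact key u h1
  · rw [h2]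
    rcases key w h1 with h | h
    · exact Or.inl h.symm
    · exact Or.inr ((contr T v hv).E_symm h)

include hl in
lemma contr_down {p q : V × V} (h : Conn T.E lam p q) :
    Conn (contr T v hv).E (fun u => lam u.1) (cpi T v hv p.1, cpi T v hv p.2)
      (cpi T v hv q.1, cpi T v hv q.2) := by
  induction h with
  | refl => exact Conn.refl _
  | @tail b c _ h2 ih =>
    refine ih.trans ?_
    obtain ⟨a1, a2, a3⟩ := h2
    rcases a3 with ⟨a3, a4⟩ | ⟨a3, a4⟩
    · rw [← a4]
      rw [← a4] at a2
      rcases contr_E T v hv a3 with h | h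
      · rw [h]
        exact Conn.refl _
      · refine step1 h ?_ ?_
        · simp only [lam_cpi T lam v hv hl]
          exact a1
        · simp only [lam_cpi T lam v hv hl]
          exact a2
    · rw [← a3]
      rw [← a3] at a2
      rcases contr_E T v hv a4 with h | h
      · rw [h]
        exact Conn.refl _
      · refine step2 h ?_ ?_
        · simp only [lam_cpi T lam v hv hl]
          exact a1
        · simp only [lam_cpi T lam v hv hl]
          exact a2

include hl in
/-- an edge of the contracted tree lifts -/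
lemma contr_lift1 {u w : {u : V // u ≠ v}} (h : (contr T v hv).E u w) (y : V)
    (h1 : lam u.1 ≠ lam y) (h2 : lam w.1 ≠ lam y) : Conn T.E lam (u.1, y) (w.1, y) := by
  have hE : ∀ u v, T.E u v → T.E v u := fun _ _ h => T.E_symm h
  have key : ∀ u : {u : V // u ≠ v}, u ≠ (contr T v hv).r → lam u.1 ≠ lam y →
      lam ((contr T v hv).par u).1 ≠ lam y →
      Conn T.E lam (u.1, y) (((contr T v hv).par u).1, y) := by
    rintro ⟨u, hu⟩ hr a b
    have hur : u ≠ T.r := fun hh => hr (Subtype.ext hh)
    rw [contr_par] at b ⊢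
    simp only at b ⊢ a
    by_cases hp : T.par u = v
    · have b' : lam v ≠ lam y := by
        have := lam_cpi T lam v hv hl (T.par u)
        rw [hp] at this
        rw [hp, this] at b
        exact b
      rw [hp, cpi_v]
      simp only
      have s1 : T.E u v := by
        have := T.E_par hur
        rwa [hp] at this
      refine (step1 s1 a b').trans (step1 (T.E_par hv) b' ?_)
      rw [hl]
      exact b'
    · rw [cpi_ne T v hv hp] at b ⊢
      exact step1 (T.E_par hur) a b
  rcases h with ⟨a, b⟩ | ⟨a, b⟩
  · rw [b]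
    rw [b] at h2
    exact key u a h1 h2
  · rw [b]
    rw [b] at h1
    exact (key w a h2 h1).symm hE

include hl in
lemma contr_up {p q : {u : V // u ≠ v} × {u : V // u ≠ v}}
    (h : Conn (contr T v hv).E (fun u => lam u.1) p q) :
    Conn T.E lam (p.1.1, p.2.1) (q.1.1, q.2.1) := by
  induction h with
  | refl => exact Conn.refl _
  | @tail b c _ h2 ih =>
    refine ih.trans ?_
    obtain ⟨a1, a2, a3⟩ := h2
    rcases a3 with ⟨a3, a4⟩ | ⟨a3, a4⟩
    · rw [← a4]
      rw [← a4] at a2
      exact contr_lift1 T lam v hv hl a3 _ a1 a2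
    · rw [← a3]
      rw [← a3] at a2
      exact (contr_lift1 T lam v hv hl a4 _ a1.symm a2.symm).swap

include hl in
lemma conn_cpi (p : V × V) (hp : lam p.1 ≠ lam p.2) :
    Conn T.E lam p ((cpi T v hv p.1).1, (cpi T v hv p.2).1) := by
  obtain ⟨x, y⟩ := p
  simp only at hp ⊢
  have key : ∀ x y : V, lam x ≠ lam y → Conn T.E lam (x, y) ((cpi T v hv x).1, y) := by
    intro x y h
    by_cases hx : x = v
    · subst hx
      rw [cpi_v]
      refine step1 (T.E_par hv) h ?_
      rw [hl]
      exact h
    · rw [cpi_ne T v hv hx]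
      exact Conn.refl _
  refine (key x y hp).trans ?_
  have h' : lam y ≠ lam (cpi T v hv x).1 := by
    rw [lam_cpi T lam v hv hl]
    exact hp.symm
  exact (key y (cpi T v hv x).1 h').swap

include hl in
/-- Contraction of a monochromatic edge reduces the theorem to a smaller tree. -/
lemma case_contract (p : V × V) (hp : lam p.1 ≠ lam p.2) (hf : Full T.E lam p)
    (ih : ∀ q : {u : V // u ≠ v} × {u : V // u ≠ v}, lam q.1.1 ≠ lam q.2.1 →
      Full (contr T v hv).E (fun u => lam u.1) q →
      Conn (contr T v hv).E (fun u => lam u.1) q q.swap) :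
    Conn T.E lam p p.swap := by
  have hE : ∀ u v, T.E u v → T.E v u := fun _ _ h => T.E_symm h
  have h1 := ih (cpi T v hv p.1, cpi T v hv p.2) (by
      simp only [lam_cpi T lam v hv hl]
      exact hp) (by
      constructor
      · intro x
        obtain ⟨y, hy⟩ := hf.1 x.1
        have := contr_down T lam v hv hl hy
        rw [show cpi T v hv (x.1, y).1 = x from cpi_ne T v hv x.2] at this
        exact ⟨_, this⟩
      · intro y
        obtain ⟨x, hx⟩ := hf.2 y.1
        have := contr_down T lam v hv hl hx
        rw [show cpi T v hv (x, y.1).2 = y from cpi_ne T v hv y.2] at this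
        exact ⟨_, this⟩)
  have h2 := contr_up T lam v hv hl h1
  have h3 := conn_cpi T lam v hv hl p hp
  have h4 := conn_cpi T lam v hv hl p.swap hp.symm
  exact h3.trans (Conn.trans h2 (h4.symm hE))

end contract

end Pool.MP_4b5926_gt.LAB
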