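import Mathlib

set_option autoImplicit false

namespace Pool.MP_4b5926_gt.LAB

open Relation

/-- A rooted tree structure on `V`. -/
structure RT (V : Type) where
  r : V
  par : V → V
  dep : V → ℕ
  dep_lt : ∀ v, v ≠ r → dep (par v) < dep v

/-- Adjacency of the rooted tree. -/
def RT.E {V : Type} (T : RT V) (u v : V) : Prop :=
  (u ≠ T.r ∧ v = T.par u) ∨ (v ≠ T.r ∧ u = T.par v)

lemma RT.E_symm {V : Type} (T : RT V) {u v : V} (h : T.E u v) : T.E v u := by
  rcases h with h | h
  · exact Or.inr h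
  · exact Or.inl h

lemma RT.E_par {V : Type} (T : RT V) {u : V} (h : u ≠ T.r) : T.E u (T.par u) :=
  Or.inl ⟨h, rfl⟩

/-- One-token moves in `{(x, y) | lam x ≠ lam y}`. -/
def Step {V A : Type} (E : V → V → Prop) (lam : V → A) (a b : V × V) : Prop :=
  lam a.1 ≠ lam a.2 ∧ lam b.1 ≠ lam b.2 ∧
    ((E a.1 b.1 ∧ a.2 = b.2) ∨ (a.1 = b.1 ∧ E a.2 b.2))

/-- Reachability by one-token moves. -/
def Conn {V A : Type} (E : V → V → Prop) (lam : V → A) : V × V → V × V → Prop :=
  ReflTransGen (Step E lam)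

section basics

variable {V A : Type} {E : V → V → Prop} {lam : V → A}

lemma Conn.refl (p : V × V) : Conn E lam p p := ReflTransGen.refl

lemma Conn.trans {p q s : V × V} (h : Conn E lam p q) (h' : Conn E lam q s) : Conn E lam p s :=
  ReflTransGen.trans h h'

lemma Conn.single {p q : V × V} (h : Step E lam p q) : Conn E lam p q := ReflTransGen.single h

lemma Step.symm (hE : ∀ u v, E u v → E v u) {p q : V × V} (h : Step E lam p q) :
    Step E lam q p := by
  obtain ⟨h1, h2, h3⟩ := h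
  refine ⟨h2, h1, ?_⟩
  rcases h3 with ⟨h3, h4⟩ | ⟨h3, h4⟩
  · exact Or.inl ⟨hE _ _ h3, h4.symm⟩
  · exact Or.inr ⟨h3.symm, hE _ _ h4⟩

lemma Conn.symm (hE : ∀ u v, E u v → E v u) {p q : V × V} (h : Conn E lam p q) :
    Conn E lam q p := by
  induction h with
  | refl => exact Conn.refl _
  | tail _ h2 ih => exact Conn.trans (Conn.single (h2.symm hE)) ih

lemma Step.swap {p q : V × V} (h : Step E lam p q) : Step E lam p.swap q.swap := by
  obtain ⟨h1, h2, h3⟩ := h
  refine ⟨h1.symm, h2.symm, ?_⟩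
  rcases h3 with ⟨h3, h4⟩ | ⟨h3, h4⟩
  · exact Or.inr ⟨h4, h3⟩
  · exact Or.inl ⟨h4, h3⟩

lemma Conn.swap {p q : V × V} (h : Conn E lam p q) : Conn E lam p.swap q.swap := by
  induction h with
  | refl => exact Conn.refl _
  | tail _ h2 ih => exact Conn.trans ih (Conn.single h2.swap)

lemma Conn.mem {p q : V × V} (h : Conn E lam p q) (hp : lam p.1 ≠ lam p.2) :
    lam q.1 ≠ lam q.2 := by
  induction h with
  | refl => exact hp
  | tail _ h2 _ => exact h2.2.1

lemma step1 {x x' y : V} (h : E x x') (h1 : lam x ≠ lam y) (h2 : lam x' ≠ lam y) :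
    Conn E lam (x, y) (x', y) := Conn.single ⟨h1, h2, Or.inl ⟨h, rfl⟩⟩

lemma step2 {x y y' : V} (h : E y y') (h1 : lam x ≠ lam y) (h2 : lam x ≠ lam y') :
    Conn E lam (x, y) (x, y') := Conn.single ⟨h1, h2, Or.inr ⟨rfl, h⟩⟩

end basics

/-- Both projections of the component of `p` are everything. -/
def Full {V A : Type} (E : V → V → Prop) (lam : V → A) (p : V × V) : Prop :=
  (∀ x, ∃ y, Conn E lam p (x, y)) ∧ (∀ y, ∃ x, Conn E lam p (x, y))

/-! ### Case B1: a vertex that sees three labels -/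

section three

variable {V A : Type} (T : RT V) (lam : V → A)

lemma bypass (hd : ∀ u v, T.E u v → lam u ≠ lam v) {x x1 x2 x3 z y1 y2 : V}
    (e1 : T.E x x1) (e2 : T.E x x2) (e3 : T.E x x3)
    (l12 : lam x1 ≠ lam x2) (l13 : lam x1 ≠ lam x3) (l23 : lam x2 ≠ lam x3)
    (hz : lam z = lam x) (f1 : T.E z y1) (f2 : T.E z y2) :
    Conn T.E lam (x, y1) (x, y2) := by
  have hy1 : lam x ≠ lam y1 := hz ▸ hd _ _ f1
  have hy2 : lam x ≠ lam y2 := hz ▸ hd _ _ f2
  have key : ∀ x', T.E x x' → lam x' ≠ lam y1 → lam x' ≠ lam y2 →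
      Conn T.E lam (x, y1) (x, y2) := by
    intro x' e a b
    have hx' : lam x' ≠ lam z := by rw [hz]; exact (hd _ _ e).symm
    exact (step1 e hy1 a).trans ((step2 (T.E_symm f1) a hx').trans
      ((step2 f2 hx' b).trans (step1 (T.E_symm e) b hy2)))
  by_cases a1 : lam x1 = lam y1
  · by_cases b2 : lam x2 = lam y2
    · exact key x3 e3 (fun h => l13 (a1.trans h.symm)) (fun h => l23 (b2.trans h.symm))
    · exact key x2 e2 (fun h => l12 (a1.trans h.symm)) b2
  · by_cases b1 : lam x1 = lam y2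
    · by_cases a2 : lam x2 = lam y1
      · exact key x3 e3 (fun h => l23 (a2.trans h.symm)) (fun h => l13 (b1.trans h.symm))
      · exact key x2 e2 a2 (fun h => l12 (b1.trans h.symm))
    · exact key x1 e1 a1 b1

lemma over_conn (hd : ∀ u v, T.E u v → lam u ≠ lam v) {x x1 x2 x3 : V}
    (e1 : T.E x x1) (e2 : T.E x x2) (e3 : T.E x x3)
    (l12 : lam x1 ≠ lam x2) (l13 : lam x1 ≠ lam x3) (l23 : lam x2 ≠ lam x3) :
    ∀ n : ℕ, ∀ y y' : V, T.dep y + T.dep y' < n → lam x ≠ lam y → lam x ≠ lam y' →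
      Conn T.E lam (x, y) (x, y') := by
  intro n
  induction n with
  | zero => intro y y' h; omega
  | succ n ih =>
    intro y y' hn hy hy'
    -- reduction of one vertex
    have red : ∀ w, lam x ≠ lam w → w ≠ T.r → ¬ (T.par w = T.r ∧ lam T.r = lam x) →
        ∃ w', lam x ≠ lam w' ∧ T.dep w' < T.dep w ∧ Conn T.E lam (x, w) (x, w') := by
      intro w hw hwr hnot
      by_cases hp : lam (T.par w) = lam x
      · have hpr : T.par w ≠ T.r := by
          intro h
          exact hnot ⟨h, by rw [← h]; exact hp⟩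
        refine ⟨T.par (T.par w), ?_, ?_, ?_⟩
        · rw [← hp]
          exact hd _ _ (T.E_par hpr)
        · exact lt_trans (T.dep_lt _ hpr) (T.dep_lt _ hwr)
        · exact bypass T lam hd e1 e2 e3 l12 l13 l23 hp (T.E_symm (T.E_par hwr)) (T.E_par hpr)
      · exact ⟨T.par w, fun h => hp h.symm, T.dep_lt _ hwr,
          step2 (T.E_par hwr) hw (fun h => hp h.symm)⟩
    by_cases h1 : y ≠ T.r ∧ ¬ (T.par y = T.r ∧ lam T.r = lam x)
    · obtain ⟨w, hw1, hw2, hw3⟩ := red y hy h1.1 h1.2
      exact hw3.trans (ih w y' (by omega) hw1 hy')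
    · by_cases h2 : y' ≠ T.r ∧ ¬ (T.par y' = T.r ∧ lam T.r = lam x)
      · obtain ⟨w, hw1, hw2, hw3⟩ := red y' hy' h2.1 h2.2
        exact (ih y w (by omega) hy hw1).trans (hw3.symm (fun _ _ h => T.E_symm h))
      · by_cases hyr : y = T.r
        · by_cases hyr' : y' = T.r
          · rw [hyr, hyr']
            exact Conn.refl _
          · exfalso
            have : T.par y' = T.r ∧ lam T.r = lam x := by
              by_contra hc
              exact h2 ⟨hyr', hc⟩
            rw [hyr] at hy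
            exact hy this.2.symm
        · have a : T.par y = T.r ∧ lam T.r = lam x := by
            by_contra hc
            exact h1 ⟨hyr, hc⟩
          have hyr' : y' ≠ T.r := by
            intro h
            rw [h] at hy'
            exact hy' a.2.symm
          have b : T.par y' = T.r ∧ lam T.r = lam x := by
            by_contra hc
            exact h2 ⟨hyr', hc⟩
          refine bypass T lam hd e1 e2 e3 l12 l13 l23 (z := T.r) a.2 ?_ ?_
          · have := T.E_symm (T.E_par hyr)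
            rwa [a.1] at this
          · have := T.E_symm (T.E_par hyr')
            rwa [b.1] at this

lemma case_three (hd : ∀ u v, T.E u v → lam u ≠ lam v) {x x1 x2 x3 : V}
    (e1 : T.E x x1) (e2 : T.E x x2) (e3 : T.E x x3)
    (l12 : lam x1 ≠ lam x2) (l13 : lam x1 ≠ lam x3) (l23 : lam x2 ≠ lam x3)
    (p : V × V) (hp : lam p.1 ≠ lam p.2) (hf : Full T.E lam p) :
    Conn T.E lam p p.swap := by
  have hE : ∀ u v, T.E u v → T.E v u := fun _ _ h => T.E_symm h
  obtain ⟨y, hy⟩ := hf.1 x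
  obtain ⟨w, hw⟩ := hf.2 x
  have a : lam x ≠ lam y := hy.mem hp
  have b : lam x ≠ lam w := (hw.mem hp).symm
  have c := over_conn T lam hd e1 e2 e3 l12 l13 l23 _ y w (Nat.lt_succ_self _) a b
  have d : Conn T.E lam p.swap (x, w) := hw.swap
  exact hy.trans (c.trans (d.symm hE))

end three

end Pool.MP_4b5926_gt.LAB
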