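import Pool.Agent.Lib.MP_4b5926_gt.Contract

set_option autoImplicit false

namespace Pool.MP_4b5926_gt.LAB

open Relation Classical

section deriv

variable {V A : Type} (T : RT V) (lam : V → A)

/-- The region of the edge `{v, par v}`, coded by its top vertex and the label of its children. -/
noncomputable def reg (v : V) : V × A :=
  if _h : v = T.r then (T.r, lam T.r)
  else if T.par v ≠ T.r ∧ lam (T.par (T.par v)) = lam v then reg (T.par v)
  else (T.par v, lam v)
termination_by T.dep v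
decreasing_by exact T.dep_lt v _h

/-- The region at `x` in the direction of the label `l`. -/
noncomputable def R (x : V) (l : A) : V × A :=
  if x ≠ T.r ∧ lam (T.par x) = l then reg T lam x else (x, l)

lemma reg_eq {v : V} (h : v ≠ T.r) : reg T lam v = R T lam (T.par v) (lam v) := by
  rw [reg, dif_neg h]
  rfl

lemma R_par {v : V} (h : v ≠ T.r) : R T lam v (lam (T.par v)) = reg T lam v := by
  unfold R
  rw [if_pos ⟨h, rfl⟩]

lemma edge_reg {x x' : V} (h : T.E x x') : R T lam x (lam x') = R T lam x' (lam x) := by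
  rcases h with ⟨h, rfl⟩ | ⟨h, rfl⟩
  · rw [R_par T lam h, reg_eq T lam h]
  · rw [R_par T lam h, reg_eq T lam h]

/-- The top of a region. -/
lemma reg_top : ∀ n : ℕ, ∀ v : V, T.dep v < n → v ≠ T.r →
    ∃ c, c ≠ T.r ∧ ¬ (T.par c ≠ T.r ∧ lam (T.par (T.par c)) = lam c) ∧
      reg T lam v = (T.par c, lam c) ∧ T.dep c ≤ T.dep v ∧ reg T lam c = reg T lam v := by
  intro n
  induction n with
  | zero => intro v h; omega
  | succ n ih =>
    intro v hv hr
    by_cases hc : T.par v ≠ T.r ∧ lam (T.par (T.par v)) = lam v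
    · have h1 := T.dep_lt v hr
      obtain ⟨c, c1, c2, c3, c4, c5⟩ := ih (T.par v) (by omega) hc.1
      have h2 : reg T lam v = reg T lam (T.par v) := by
        rw [reg, dif_neg hr, if_pos hc]
      exact ⟨c, c1, c2, by rw [h2]; exact c3, by omega, by rw [h2]; exact c5⟩
    · have h2 : reg T lam v = (T.par v, lam v) := by
        rw [reg, dif_neg hr, if_neg hc]
      exact ⟨v, hr, hc, h2, le_rfl, rfl⟩

lemma reg_dep {v : V} (hr : v ≠ T.r) : T.dep (reg T lam v).1 < T.dep v := by
  obtain ⟨c, c1, _, c3, c4, _⟩ := reg_top T lam _ v (Nat.lt_succ_self _) hr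
  rw [c3]
  exact lt_of_lt_of_le (T.dep_lt c c1) c4

lemma reg_lab : ∀ n : ℕ, ∀ v : V, T.dep v < n → v ≠ T.r →
    s(lam (reg T lam v).1, (reg T lam v).2) = s(lam v, lam (T.par v)) := by
  intro n
  induction n with
  | zero => intro v h; omega
  | succ n ih =>
    intro v hv hr
    by_cases hc : T.par v ≠ T.r ∧ lam (T.par (T.par v)) = lam v
    · have h1 := T.dep_lt v hr
      have h2 : reg T lam v = reg T lam (T.par v) := by
        rw [reg, dif_neg hr, if_pos hc]
      rw [h2, ih (T.par v) (by omega) hc.1, hc.2, Sym2.eq_swap]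
    · have h2 : reg T lam v = (T.par v, lam v) := by
        rw [reg, dif_neg hr, if_neg hc]
      rw [h2, Sym2.eq_swap]

/-- The regions. -/
abbrev Vd : Type := {q : V × A // ∃ v, v ≠ T.r ∧ reg T lam v = q}

variable {T lam}

lemma Vd_top (q : Vd T lam) : ∃ c, c ≠ T.r ∧ T.par c = q.1.1 ∧ lam c = q.1.2 ∧
    ¬ (T.par c ≠ T.r ∧ lam (T.par (T.par c)) = lam c) ∧ reg T lam c = q.1 := by
  obtain ⟨v, hv, hq⟩ := q.2
  obtain ⟨c, c1, c2, c3, _, c5⟩ := reg_top T lam _ v (Nat.lt_succ_self _) hv
  rw [hq] at c3 c5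
  exact ⟨c, c1, by rw [c3], by rw [c3], c2, c5⟩

variable (T lam) in
/-- The label of a region. -/
def lamd (q : Vd T lam) : Sym2 A := s(lam q.1.1, q.1.2)

lemma R_mem {x x' : V} (h : T.E x x') : ∃ v, v ≠ T.r ∧ reg T lam v = R T lam x (lam x') := by
  rcases h with ⟨h, rfl⟩ | ⟨h, rfl⟩
  · exact ⟨x, h, (R_par T lam h).symm⟩
  · exact ⟨x', h, reg_eq T lam h⟩

/-- The region of an edge. -/
noncomputable def RE {x x' : V} (h : T.E x x') : Vd T lam := ⟨R T lam x (lam x'), R_mem h⟩

lemma RE_symm {x x' : V} (h : T.E x x') : (RE (T.E_symm h) : Vd T lam) = RE h :=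
  Subtype.ext (edge_reg T lam h).symm

lemma RE_eq {x x' x'' : V} (h : T.E x x') (h' : T.E x x'') (hl : lam x' = lam x'') :
    (RE h : Vd T lam) = RE h' := by
  apply Subtype.ext
  show R T lam x (lam x') = R T lam x (lam x'')
  rw [hl]

lemma lamd_RE {x x' : V} (h : T.E x x') : lamd T lam (RE h) = s(lam x, lam x') := by
  unfold lamd RE
  simp only
  rcases h with ⟨h, rfl⟩ | ⟨h, rfl⟩
  · rw [R_par T lam h]
    exact reg_lab T lam _ x (Nat.lt_succ_self _) h
  · rw [← reg_eq T lam h, reg_lab T lam _ x' (Nat.lt_succ_self _) h, Sym2.eq_swap]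

/-- `x` belongs to the region `q`. -/
def Mem (x : V) (q : Vd T lam) : Prop := ∃ x', ∃ h : T.E x x', RE h = q

lemma Mem_RE {x x' : V} (h : T.E x x') : Mem x (RE h : Vd T lam) := ⟨x', h, rfl⟩

lemma Mem_RE' {x x' : V} (h : T.E x x') : Mem x' (RE h : Vd T lam) :=
  ⟨x, T.E_symm h, RE_symm h⟩

/-- Every region contains its top vertex. -/
lemma Mem_top (q : Vd T lam) : Mem q.1.1 q := by
  obtain ⟨c, c1, c2, c3, c4, c5⟩ := Vd_top q
  rw [← c2]
  refine ⟨c, T.E_symm (T.E_par c1), ?_⟩
  apply Subtype.ext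
  show R T lam (T.par c) (lam c) = q.1
  rw [← reg_eq T lam c1, c5]

/-- Paths inside a region. -/
lemma region_up (q : Vd T lam) : ∀ n : ℕ, ∀ x : V, T.dep x < n → Mem x q →
    ReflTransGen (fun u w => T.E u w ∧ Mem u q ∧ Mem w q) x q.1.1 := by
  intro n
  induction n with
  | zero => intro x h; omega
  | succ n ih =>
    intro x hx hm
    have hm' := hm
    obtain ⟨x', hxx, rfl⟩ := hm'
    by_cases hc : x ≠ T.r ∧ lam (T.par x) = lam x'
    · have e : (RE hxx : Vd T lam) = RE (T.E_par hc.1) :=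
        RE_eq hxx (T.E_par hc.1) hc.2.symm
      have hm2 : Mem (T.par x) (RE hxx : Vd T lam) := by
        rw [e]
        exact Mem_RE' _
      refine ReflTransGen.head ⟨T.E_par hc.1, hm, hm2⟩ ?_
      have := T.dep_lt x hc.1
      exact ih _ (by omega) hm2
    · have : (RE hxx : Vd T lam).1.1 = x := by
        show (R T lam x (lam x')).1 = x
        unfold R
        rw [if_neg hc]
      rw [this]

lemma region_conn (q : Vd T lam) {x y : V} (hx : Mem x q) (hy : Mem y q) :
    ReflTransGen (fun u w => T.E u w ∧ Mem u q ∧ Mem w q) x y := by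
  have h1 := region_up q _ x (Nat.lt_succ_self _) hx
  have h2 := region_up q _ y (Nat.lt_succ_self _) hy
  refine h1.trans ?_
  have : ∀ a b, ReflTransGen (fun u w => T.E u w ∧ Mem u q ∧ Mem w q) a b →
      ReflTransGen (fun u w => T.E u w ∧ Mem u q ∧ Mem w q) b a := by
    intro a b h
    induction h with
    | refl => exact ReflTransGen.refl
    | tail _ h2 ih => exact ReflTransGen.head ⟨T.E_symm h2.1, h2.2.2, h2.2.1⟩ ih
  exact this _ _ h2

/-- the label of a member of a region is one of the two labels of the region -/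
lemma Mem_lab {x : V} {q : Vd T lam} (h : Mem x q) : lam x ∈ lamd T lam q := by
  obtain ⟨x', hxx, rfl⟩ := h
  rw [lamd_RE]
  exact Sym2.mem_mk_left _ _

/-- both labels are attained -/
lemma exists_mem_of_lab {q : Vd T lam} {a : A} (h : a ∈ lamd T lam q) : ∃ x, Mem x q ∧ lam x = a := by
  obtain ⟨v, hv, hq⟩ := q.2
  have e : q = RE (T.E_par hv) := by
    apply Subtype.ext
    show q.1 = R T lam v (lam (T.par v))
    rw [R_par T lam hv, hq]
  rw [e, lamd_RE, Sym2.mem_iff] at h
  rw [e]
  rcases h with rfl | rfl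
  · exact ⟨v, Mem_RE _, rfl⟩
  · exact ⟨T.par v, Mem_RE' _, rfl⟩

lemma move1 {q : Vd T lam} {x x' y : V} (hx : Mem x q) (hx' : Mem x' q)
    (hy : lam y ∉ lamd T lam q) : Conn T.E lam (x, y) (x', y) := by
  have h := region_conn q hx hx'
  have key : ∀ a, ReflTransGen (fun u w => T.E u w ∧ Mem u q ∧ Mem w q) x a →
      Conn T.E lam (x, y) (a, y) := by
    intro a h
    induction h with
    | refl => exact Conn.refl _
    | tail _ h2 ih =>
      refine ih.trans (step1 h2.1 ?_ ?_)
      · intro e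
        exact hy (e ▸ Mem_lab h2.2.1)
      · intro e
        exact hy (e ▸ Mem_lab h2.2.2)
  exact key _ h

lemma move2 {q : Vd T lam} {x y y' : V} (hy : Mem y q) (hy' : Mem y' q)
    (hx : lam x ∉ lamd T lam q) : Conn T.E lam (x, y) (x, y') :=
  (move1 hy hy' hx).swap

lemma exists_not (hd : ∀ u v, T.E u v → lam u ≠ lam v) (q s : Vd T lam)
    (hqs : lamd T lam q ≠ lamd T lam s) : ∃ y, Mem y s ∧ lam y ∉ lamd T lam q := by
  by_contra hc
  push Not at hc
  obtain ⟨v, hv, hq⟩ := s.2
  have e : s = RE (T.E_par hv) := by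
    apply Subtype.ext
    show s.1 = R T lam v (lam (T.par v))
    rw [R_par T lam hv, hq]
  have m1 : lam v ∈ lamd T lam q := hc v (by rw [e]; exact Mem_RE _)
  have m2 : lam (T.par v) ∈ lamd T lam q := hc (T.par v) (by rw [e]; exact Mem_RE' _)
  apply hqs
  rw [(Sym2.mem_and_mem_iff (hd _ _ (T.E_par hv))).1 ⟨m1, m2⟩, e, lamd_RE]

/-- The part of the complement inside a box of two different regions is connected. -/
lemma box_conn (hd : ∀ u v, T.E u v → lam u ≠ lam v) (q s : Vd T lam)
    (hqs : lamd T lam q ≠ lamd T lam s) {x y x' y' : V}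
    (hx : Mem x q) (hy : Mem y s) (hx' : Mem x' q) (hy' : Mem y' s)
    (h : lam x ≠ lam y) (h' : lam x' ≠ lam y') : Conn T.E lam (x, y) (x', y') := by
  have hE : ∀ u v, T.E u v → T.E v u := fun _ _ h => T.E_symm h
  -- either `lam y` is not a label of `q` or `lam x` is not a label of `s`
  have good : ∀ x y, Mem x q → Mem y s → lam x ≠ lam y →
      lam y ∉ lamd T lam q ∨ lam x ∉ lamd T lam s := by
    intro x y hx hy h
    by_contra hc
    push Not at hc
    obtain ⟨h1, h2⟩ := hc
    apply hqs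
    have a1 : lamd T lam q = s(lam x, lam y) :=
      (Sym2.mem_and_mem_iff h).1 ⟨Mem_lab hx, h1⟩
    have a2 : lamd T lam s = s(lam x, lam y) :=
      (Sym2.mem_and_mem_iff h).1 ⟨h2, Mem_lab hy⟩
    rw [a1, a2]
  obtain ⟨y0, hy0, ly0⟩ := exists_not hd q s hqs
  obtain ⟨x0, hx0, lx0⟩ := exists_not hd s q hqs.symm
  have base : ∀ x y, Mem x q → Mem y s → lam x ≠ lam y → Conn T.E lam (x, y) (x0, y0) := by
    intro x y hx hy h
    rcases good x y hx hy h with g | g
    · exact (move1 hx hx0 g).trans (move2 hy hy0 lx0)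
    · exact (move2 hy hy0 g).trans (move1 hx hx0 ly0)
  exact (base x y hx hy h).trans ((base x' y' hx' hy' h').symm hE)

/-! ### The tree of regions -/

/-- There is a region whose top is the root. -/
lemma exists_root_region : ∀ n : ℕ, ∀ v : V, T.dep v < n → v ≠ T.r →
    ∃ q : Vd T lam, q.1.1 = T.r := by
  intro n
  induction n with
  | zero => intro v h; omega
  | succ n ih =>
    intro v hv hr
    by_cases hp : T.par v = T.r
    · refine ⟨⟨reg T lam v, v, hr, rfl⟩, ?_⟩
      simp only
      rw [reg, dif_neg hr, if_neg (by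
        intro h
        exact h.1 hp)]
      exact hp
    · have := T.dep_lt v hr
      exact ih _ (by omega) hp

variable (q0 : Vd T lam) (hq0 : q0.1.1 = T.r)

/-- The rooted tree of regions. -/
noncomputable def Td (hq0 : q0.1.1 = T.r) : RT (Vd T lam) where
  r := q0
  par q := if h : q.1.1 = T.r then q0 else ⟨reg T lam q.1.1, q.1.1, h, rfl⟩
  dep q := 2 * T.dep q.1.1 + (if q = q0 then 0 else 1)
  dep_lt := by
    intro q hq
    rw [if_neg hq]
    by_cases h : q.1.1 = T.r
    · rw [dif_pos h, if_pos rfl, hq0, h]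
      omega
    · rw [dif_neg h]
      have := reg_dep T lam h
      simp only
      split_ifs <;> omega

lemma Td_r : (Td q0 hq0).r = q0 := rfl

lemma Td_par_root {q : Vd T lam} (h : q.1.1 = T.r) : (Td q0 hq0).par q = q0 := dif_pos h

lemma Td_par_ne {q : Vd T lam} (h : q.1.1 ≠ T.r) :
    (Td q0 hq0).par q = ⟨reg T lam q.1.1, q.1.1, h, rfl⟩ := dif_neg h

/-- adjacent regions share a vertex -/
lemma Td_share {q s : Vd T lam} (h : (Td q0 hq0).E q s) : ∃ z, Mem z q ∧ Mem z s := by
  have key : ∀ q : Vd T lam, q ≠ q0 → Mem q.1.1 ((Td q0 hq0).par q) := by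
    intro q hq
    by_cases h : q.1.1 = T.r
    · rw [Td_par_root q0 hq0 h, h, ← hq0]
      exact Mem_top q0
    · rw [Td_par_ne q0 hq0 h]
      refine ⟨T.par q.1.1, T.E_par h, ?_⟩
      apply Subtype.ext
      show R T lam q.1.1 (lam (T.par q.1.1)) = _
      rw [R_par T lam h]
  rcases h with ⟨h1, h2⟩ | ⟨h1, h2⟩
  · exact ⟨q.1.1, Mem_top q, h2 ▸ key q h1⟩
  · exact ⟨s.1.1, h2 ▸ key s h1, Mem_top s⟩

/-- two regions at the same vertex are equal or adjacent (if every vertex sees at most 2 labels) -/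
lemma Td_adj (h2 : ∀ x a b c, T.E x a → T.E x b → T.E x c →
      lam a = lam b ∨ lam a = lam c ∨ lam b = lam c)
    {x a b : V} (ha : T.E x a) (hb : T.E x b) :
    (RE ha : Vd T lam) = RE hb ∨ (Td q0 hq0).E (RE ha) (RE hb) := by
  by_cases hab : lam a = lam b
  · exact Or.inl (RE_eq ha hb hab)
  right
  by_cases hx : x = T.r
  · subst hx
    -- both regions have the root as top
    have hR : ∀ l, R T lam T.r l = (T.r, l) := by
      intro l
      unfold R
      rw [if_neg (by simp)]
    have hA : (RE ha : Vd T lam).1 = (T.r, lam a) := hR _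
    have hB : (RE hb : Vd T lam).1 = (T.r, lam b) := hR _
    obtain ⟨c, c1, c2, c3, _, _⟩ := Vd_top q0
    rw [hq0] at c2
    have hc : T.E T.r c := by
      have := T.E_symm (T.E_par c1)
      rwa [c2] at this
    have hq : q0.1 = (T.r, lam c) := Prod.ext hq0 c3.symm
    rcases h2 T.r a b c ha hb hc with e | e | e
    · exact absurd e hab
    · -- q0 = RE ha
      have e1 : (RE ha : Vd T lam) = q0 := Subtype.ext (by rw [hA, hq, e])
      right
      refine ⟨?_, ?_⟩
      · intro e2
        rw [Td_r] at e2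
        have := congrArg Subtype.val (e1.trans e2.symm)
        rw [hA, hB] at this
        exact hab (congrArg Prod.snd this)
      · rw [e1]
        exact (Td_par_root q0 hq0 (by rw [hB])).symm
    · have e1 : (RE hb : Vd T lam) = q0 := Subtype.ext (by rw [hB, hq, e])
      left
      refine ⟨?_, ?_⟩
      · intro e2
        rw [Td_r] at e2
        have := congrArg Subtype.val (e2.trans e1.symm)
        rw [hA, hB] at this
        exact hab (congrArg Prod.snd this)
      · rw [e1]
        exact (Td_par_root q0 hq0 (by rw [hA])).symm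
  · -- one of the two labels is the label of the parent
    have key : ∀ {a b : V} (ha : T.E x a) (hb : T.E x b), lam a ≠ lam b →
        lam (T.par x) = lam a → (Td q0 hq0).E (RE hb : Vd T lam) (RE ha) := by
      intro a b ha hb hab e
      have hA : (RE ha : Vd T lam).1 = reg T lam x := by
        show R T lam x (lam a) = _
        rw [← e, R_par T lam hx]
      have hB : (RE hb : Vd T lam).1 = (x, lam b) := by
        show R T lam x (lam b) = _
        unfold R
        rw [if_neg]
        intro h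
        exact hab (e.symm.trans h.2)
      left
      refine ⟨?_, ?_⟩
      · intro e2
        rw [Td_r] at e2
        have h3 : (RE hb : Vd T lam).1.1 = q0.1.1 := by rw [e2]
        rw [hB, hq0] at h3
        exact hx h3
      · rw [Td_par_ne q0 hq0 (by rw [hB]; exact hx)]
        apply Subtype.ext
        rw [hA]
        simp only
        rw [hB]
    rcases h2 x (T.par x) a b (T.E_par hx) ha hb with e | e | e
    · exact (Td q0 hq0).E_symm (key ha hb hab e)
    · exact key hb ha (fun h => hab h.symm) e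
    · exact absurd e hab

/-! ### Corners -/

/-- `(q, s)` is a corner of `(x, y)`. -/
def Corner (p : V × V) (k : Vd T lam × Vd T lam) : Prop :=
  Mem p.1 k.1 ∧ Mem p.2 k.2 ∧ lamd T lam k.1 ≠ lamd T lam k.2

lemma corners_conn
    (h2 : ∀ x a b c, T.E x a → T.E x b → T.E x c →
      lam a = lam b ∨ lam a = lam c ∨ lam b = lam c)
    {p : V × V} {k k' : Vd T lam × Vd T lam} (hp : lam p.1 ≠ lam p.2)
    (hk : Corner p k) (hk' : Corner p k') :
    Conn (Td q0 hq0).E (lamd T lam) k k' := by
  obtain ⟨x, y⟩ := p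
  obtain ⟨q, s⟩ := k
  obtain ⟨q', s'⟩ := k'
  obtain ⟨⟨x1, e1, rfl⟩, ⟨y1, f1, rfl⟩, g1⟩ := hk
  obtain ⟨⟨x2, e2, rfl⟩, ⟨y2, f2, rfl⟩, g2⟩ := hk'
  simp only at hp e1 f1 g1 e2 f2 g2 ⊢
  have mv1 : ∀ s : Vd T lam, lamd T lam (RE e1) ≠ lamd T lam s → lamd T lam (RE e2) ≠ lamd T lam s →
      Conn (Td q0 hq0).E (lamd T lam) (RE e1, s) (RE e2, s) := by
    intro s a b
    rcases Td_adj q0 hq0 h2 e1 e2 with h | h
    · rw [h]
      exact Conn.refl _
    · exact step1 h a b
  have mv2 : ∀ q : Vd T lam, lamd T lam q ≠ lamd T lam (RE f1) → lamd T lam q ≠ lamd T lam (RE f2) →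
      Conn (Td q0 hq0).E (lamd T lam) (q, RE f1) (q, RE f2) := by
    intro q a b
    rcases Td_adj q0 hq0 h2 f1 f2 with h | h
    · rw [h]
      exact Conn.refl _
    · exact step2 h a b
  by_cases c1 : lamd T lam (RE e1) = lamd T lam (RE f2)
  · -- then (RE e2, RE f1) is good
    have c2 : lamd T lam (RE e2) ≠ lamd T lam (RE f1) := by
      intro c2
      rw [lamd_RE, lamd_RE] at c1 c2
      rw [lamd_RE, lamd_RE] at g1 g2
      rw [Sym2.eq_iff] at c1 c2
      rcases c1 with ⟨c1, _⟩ | ⟨c1, c1'⟩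
      · exact hp c1
      rcases c2 with ⟨c2, _⟩ | ⟨c2, c2'⟩
      · exact hp c2
      apply g1
      rw [← c2, c1']
      exact Sym2.eq_swap
    exact (mv1 _ g1 c2).trans (mv2 _ c2 g2)
  · exact (mv2 _ g1 c1).trans (mv1 _ c1 g2)

lemma common_corner {a b : V × V} (hn : ∀ y, ∃ y', T.E y y') (h : Step T.E lam a b) :
    ∃ k : Vd T lam × Vd T lam, Corner a k ∧ Corner b k := by
  obtain ⟨x, y⟩ := a
  obtain ⟨x', y'⟩ := b
  obtain ⟨h1, h2, h3⟩ := h
  simp only at h1 h2 h3
  rcases h3 with ⟨e, rfl⟩ | ⟨rfl, e⟩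
  · obtain ⟨y1, f⟩ := hn y
    have hne : lamd T lam (RE e) ≠ lamd T lam (RE f) := by
      intro h
      have : lam y ∈ lamd T lam (RE e) := h ▸ Mem_lab (Mem_RE f)
      rw [lamd_RE, Sym2.mem_iff] at this
      rcases this with h | h
      · exact h1 h.symm
      · exact h2 h.symm
    exact ⟨(RE e, RE f), ⟨Mem_RE e, Mem_RE f, hne⟩, ⟨Mem_RE' e, Mem_RE f, hne⟩⟩
  · obtain ⟨x1, f⟩ := hn x
    have hne : lamd T lam (RE f) ≠ lamd T lam (RE e) := by
      intro h
      have : lam x ∈ lamd T lam (RE e) := h ▸ Mem_lab (Mem_RE f)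
      rw [lamd_RE, Sym2.mem_iff] at this
      rcases this with h | h
      · exact h1 h
      · exact h2 h
    exact ⟨(RE f, RE e), ⟨Mem_RE f, Mem_RE e, hne⟩, ⟨Mem_RE f, Mem_RE' e, hne⟩⟩

/-- Connections go down to the tree of regions. -/
lemma conn_down (hn : ∀ y, ∃ y', T.E y y')
    (h2 : ∀ x a b c, T.E x a → T.E x b → T.E x c →
      lam a = lam b ∨ lam a = lam c ∨ lam b = lam c)
    {p p' : V × V} (h : Conn T.E lam p p') (hp : lam p.1 ≠ lam p.2)
    {k k' : Vd T lam × Vd T lam} (hk : Corner p k) (hk' : Corner p' k') :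
    Conn (Td q0 hq0).E (lamd T lam) k k' := by
  induction h generalizing k' with
  | refl => exact corners_conn q0 hq0 h2 hp hk hk'
  | @tail b c hb h1 ih =>
    obtain ⟨κ, κ1, κ2⟩ := common_corner hn h1
    exact (ih κ1).trans (corners_conn q0 hq0 h2 h1.2.1 κ2 hk')

lemma exists_mem_ne (hd : ∀ u v, T.E u v → lam u ≠ lam v) (q : Vd T lam) (a : A) :
    ∃ w, Mem w q ∧ lam w ≠ a := by
  obtain ⟨v, hv, hq⟩ := q.2
  have e : q = RE (T.E_par hv) := by
    apply Subtype.ext
    show q.1 = R T lam v (lam (T.par v))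
    rw [R_par T lam hv, hq]
  by_cases h : lam v = a
  · refine ⟨T.par v, by rw [e]; exact Mem_RE' _, ?_⟩
    rw [← h]
    exact (hd _ _ (T.E_par hv)).symm
  · exact ⟨v, by rw [e]; exact Mem_RE _, h⟩

/-- Connections in the tree of regions lift. -/
lemma conn_up (hd : ∀ u v, T.E u v → lam u ≠ lam v) {k k' : Vd T lam × Vd T lam}
    (h : Conn (Td q0 hq0).E (lamd T lam) k k') {p p' : V × V}
    (hp : lam p.1 ≠ lam p.2) (hp' : lam p'.1 ≠ lam p'.2)
    (hk : Corner p k) (hk' : Corner p' k') : Conn T.E lam p p' := by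
  induction h generalizing p' with
  | refl => exact box_conn hd k.1 k.2 hk.2.2 hk.1 hk.2.1 hk'.1 hk'.2.1 hp hp'
  | @tail b c hb h1 ih =>
    obtain ⟨a1, a2, a3⟩ := h1
    rcases a3 with ⟨a3, a4⟩ | ⟨a3, a4⟩
    · obtain ⟨z, z1, z2⟩ := Td_share q0 hq0 a3
      obtain ⟨w, w1, w2⟩ := exists_mem_ne hd b.2 (lam z)
      have i1 := ih (p' := (z, w)) w2.symm ⟨z1, w1, a1⟩
      refine i1.trans ?_
      exact box_conn hd c.1 c.2 a2 z2 (a4 ▸ w1) hk'.1 hk'.2.1 w2.symm hp'
    · obtain ⟨z, z1, z2⟩ := Td_share q0 hq0 a4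
      obtain ⟨w, w1, w2⟩ := exists_mem_ne hd b.1 (lam z)
      have i1 := ih (p' := (w, z)) w2 ⟨w1, z1, a1⟩
      refine i1.trans ?_
      exact box_conn hd c.1 c.2 a2 (a3 ▸ w1) z2 hk'.1 hk'.2.1 w2 hp'

/-- A walk from `c` to its parent crosses the edge. -/
lemma exit {c : V} (hc : c ≠ T.r) {y y' : V} (h : Conn T.E lam (c, y) (T.par c, y')) :
    ∃ y'', Conn T.E lam (c, y) (c, y'') ∧ lam c ≠ lam y'' ∧ lam (T.par c) ≠ lam y'' := by
  set D : V → Prop := fun v => ReflTransGen (fun a b => a ≠ T.r ∧ b = T.par a) v c with hD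
  have hdep : ∀ v, D v → T.dep c ≤ T.dep v := by
    intro v hv
    induction hv using ReflTransGen.head_induction_on with
    | refl => exact le_rfl
    | head h1 _ ih =>
      rw [h1.2] at ih
      exact ih.trans (T.dep_lt _ h1.1).le
  have key : ∀ st, Conn T.E lam (c, y) st → D st.1 ∨
      ∃ y'', Conn T.E lam (c, y) (c, y'') ∧ lam c ≠ lam y'' ∧ lam (T.par c) ≠ lam y'' := by
    intro st hst
    induction hst with
    | refl => exact Or.inl ReflTransGen.refl
    | @tail b d hb h1 ih =>
      rcases ih with ih | ih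
      · obtain ⟨a1, a2, a3⟩ := h1
        rcases a3 with ⟨a3, a4⟩ | ⟨a3, a4⟩
        · rcases a3 with ⟨e1, e2⟩ | ⟨e1, e2⟩
          · -- up
            rcases ReflTransGen.cases_head ih with h | ⟨w, hw1, hw2⟩
            · right
              refine ⟨b.2, ?_, ?_, ?_⟩
              · have hb' : b = (c, b.2) := Prod.ext h rfl
                rw [← hb']
                exact hb
              · rw [← h]
                exact a1
              · rw [← h, ← e2, a4]
                exact a2
            · left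
              rw [e2, ← hw1.2]
              exact hw2
          · left
            exact ReflTransGen.head ⟨e1, e2⟩ ih
        · left
          rw [← a3]
          exact ih
      · exact Or.inr ih
  rcases key _ h with h1 | h1
  · exfalso
    have := hdep _ h1
    have := T.dep_lt c hc
    simp only at *
    omega
  · exact h1

lemma full_down1 (hn : ∀ y, ∃ y', T.E y y')
    (h2 : ∀ x a b c, T.E x a → T.E x b → T.E x c →
      lam a = lam b ∨ lam a = lam c ∨ lam b = lam c)
    {p : V × V} (hp : lam p.1 ≠ lam p.2) (hf : ∀ x, ∃ y, Conn T.E lam p (x, y))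
    {k : Vd T lam × Vd T lam} (hk : Corner p k) (q : Vd T lam) :
    ∃ s, Conn (Td q0 hq0).E (lamd T lam) k (q, s) := by
  have hE : ∀ u v, T.E u v → T.E v u := fun _ _ h => T.E_symm h
  obtain ⟨c, hc, hq⟩ := q.2
  have e : q = RE (T.E_par hc) := by
    apply Subtype.ext
    show q.1 = R T lam c (lam (T.par c))
    rw [R_par T lam hc, hq]
  obtain ⟨y, hy⟩ := hf c
  obtain ⟨y', hy'⟩ := hf (T.par c)
  obtain ⟨y'', a1, a2, a3⟩ := exit hc ((hy.symm hE).trans hy')
  obtain ⟨κ, κ1, κ2⟩ := common_corner (lam := lam) (a := (c, y'')) (b := (T.par c, y'')) hn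
    ⟨a2, a3, Or.inl ⟨T.E_par hc, rfl⟩⟩
  -- the corner over `q`
  obtain ⟨y1, f⟩ := hn y''
  have hne : lamd T lam q ≠ lamd T lam (RE f) := by
    intro h
    have : lam y'' ∈ lamd T lam q := h ▸ Mem_lab (Mem_RE f)
    rw [e, lamd_RE, Sym2.mem_iff] at this
    rcases this with h | h
    · exact a2 h.symm
    · exact a3 h.symm
  refine ⟨RE f, ?_⟩
  refine conn_down q0 hq0 hn h2 (hy.trans a1) hp hk ⟨?_, Mem_RE f, hne⟩
  show Mem c q
  rw [e]
  exact Mem_RE _

lemma Corner.swap {p : V × V} {k : Vd T lam × Vd T lam} (h : Corner p k) :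
    Corner p.swap k.swap := ⟨h.2.1, h.1, h.2.2.symm⟩

/-- The derivative reduces the theorem to a smaller tree. -/
lemma case_deriv (hd : ∀ u v, T.E u v → lam u ≠ lam v)
    (h2 : ∀ x a b c, T.E x a → T.E x b → T.E x c →
      lam a = lam b ∨ lam a = lam c ∨ lam b = lam c)
    (p : V × V) (hp : lam p.1 ≠ lam p.2) (hf : Full T.E lam p)
    (ih : ∀ q : Vd T lam × Vd T lam, lamd T lam q.1 ≠ lamd T lam q.2 →
      Full (Td q0 hq0).E (lamd T lam) q →
      Conn (Td q0 hq0).E (lamd T lam) q q.swap) :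
    Conn T.E lam p p.swap := by
  -- every vertex has a neighbour
  have hn : ∀ y, ∃ y', T.E y y' := by
    intro y
    by_cases hy : y = T.r
    · obtain ⟨c, c1, c2, _⟩ := Vd_top q0
      rw [hq0] at c2
      refine ⟨c, ?_⟩
      rw [hy, ← c2]
      exact T.E_symm (T.E_par c1)
    · exact ⟨T.par y, T.E_par hy⟩
  -- a corner of `p`
  obtain ⟨k, hk⟩ : ∃ k : Vd T lam × Vd T lam, Corner p k := by
    obtain ⟨x', hx'⟩ := hn p.1
    obtain ⟨y, hy⟩ := hf.1 x'
    rcases ReflTransGen.cases_head hy with h | ⟨w, hw, _⟩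
    · exfalso
      have h1 : p.1 = x' := by rw [h]
      rw [h1] at hx'
      exact hd _ _ hx' rfl
    · obtain ⟨k, k1, _⟩ := common_corner hn hw
      exact ⟨k, k1⟩
  have hfull : Full (Td q0 hq0).E (lamd T lam) k := by
    constructor
    · intro q
      exact full_down1 q0 hq0 hn h2 hp hf.1 hk q
    · intro s
      have hf' : ∀ x, ∃ y, Conn T.E lam p.swap (x, y) := by
        intro x
        obtain ⟨y, hy⟩ := hf.2 x
        exact ⟨y, hy.swap⟩
      obtain ⟨q, hq⟩ := full_down1 q0 hq0 hn h2 (p := p.swap) hp.symm hf' hk.swap s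
      refine ⟨q, ?_⟩
      have := hq.swap
      rwa [Prod.swap_swap] at this
  have h1 := ih k hk.2.2 hfull
  exact conn_up q0 hq0 hd h1 hp hp.symm hk hk.swap

end deriv

/-- **Exact level theorem.** On a finite rooted tree with an arbitrary labelling, a component of
`{(x, y) | lam x ≠ lam y}` (one-token moves) both of whose projections are everything is
symmetric. -/
theorem elt_core : ∀ n : ℕ, ∀ (V A : Type) [Finite V] (T : RT V) (lam : V → A) (p : V × V),
    Nat.card V < n → lam p.1 ≠ lam p.2 → Full T.E lam p → Conn T.E lam p p.swap := by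
  intro n
  induction n with
  | zero => intro V A _ T lam p h; omega
  | succ n ih =>
    intro V A _ T lam p hn hp hf
    by_cases h1 : ∃ v, v ≠ T.r ∧ lam (T.par v) = lam v
    · obtain ⟨v, hv, hl⟩ := h1
      refine case_contract T lam v hv hl p hp hf ?_
      intro q hq hfq
      refine ih {u : V // u ≠ v} A (contr T v hv) (fun u => lam u.1) q ?_ hq hfq
      have : Nat.card {u : V // u ≠ v} < Nat.card V := by
        apply Finite.card_subtype_lt (x := v)
        simp
      omega
    · push Not at h1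
      have hd : ∀ u v, T.E u v → lam u ≠ lam v := by
        rintro u v (⟨a, rfl⟩ | ⟨a, rfl⟩)
        · exact (h1 u a).symm
        · exact h1 v a
      by_cases h2 : ∀ x a b c, T.E x a → T.E x b → T.E x c →
          lam a = lam b ∨ lam a = lam c ∨ lam b = lam c
      · -- derivative
        have hne : p.1 ≠ p.2 := fun h => hp (by rw [h])
        obtain ⟨v, hv⟩ : ∃ v, v ≠ T.r := by
          by_cases h : p.1 = T.r
          · exact ⟨p.2, fun h' => hne (h.trans h'.symm)⟩
          · exact ⟨p.1, h⟩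
        obtain ⟨q0, hq0⟩ := exists_root_region (T := T) (lam := lam) _ v (Nat.lt_succ_self _) hv
        -- cardinality
        let F : {v : V // v ≠ T.r} → Vd T lam := fun v => ⟨reg T lam v.1, v.1, v.2, rfl⟩
        have hF : Function.Surjective F := by
          rintro ⟨q, v, hv, rfl⟩
          exact ⟨⟨v, hv⟩, rfl⟩
        have : Finite (Vd T lam) := Finite.of_surjective F hF
        have c1 : Nat.card (Vd T lam) ≤ Nat.card {v : V // v ≠ T.r} :=
          Nat.card_le_card_of_surjective F hF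
        have c2 : Nat.card {v : V // v ≠ T.r} < Nat.card V := by
          apply Finite.card_subtype_lt (x := T.r)
          simp
        refine case_deriv q0 hq0 hd h2 p hp hf ?_
        intro q hq hfq
        exact ih (Vd T lam) (Sym2 A) (Td q0 hq0) (lamd T lam) q (by omega) hq hfq
      · push Not at h2
        obtain ⟨x, a, b, c, e1, e2, e3, l12, l13, l23⟩ := h2
        exact case_three T lam hd e1 e2 e3 l12 l13 l23 p hp hf

theorem elt {V A : Type} [Finite V] (T : RT V) (lam : V → A) (p : V × V)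
    (hp : lam p.1 ≠ lam p.2) (hf : Full T.E lam p) : Conn T.E lam p p.swap :=
  elt_core _ V A T lam p (Nat.lt_succ_self _) hp hf

end Pool.MP_4b5926_gt.LAB
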