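import Mathlib

set_option autoImplicit false

namespace Pool.Agent.MP_4b5926_gt.ExchangeN

open Set Topology

/-- Closed sets of a compact Hausdorff space which no component joins are separated by a clopen set. -/
theorem split_components {K : Type*} [TopologicalSpace K] [CompactSpace K] [T2Space K]
    (A B : Set K) (hA : IsClosed A) (hB : IsClosed B)
    (h : ∀ a ∈ A, ∀ b ∈ B, connectedComponent a ≠ connectedComponent b) :
    ∃ U : Set K, IsClopen U ∧ A ⊆ U ∧ Disjoint U B := by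
  have hc : Continuous (ConnectedComponents.mk : K → ConnectedComponents K) :=
    ConnectedComponents.continuous_coe
  have hA' : IsClosed ((ConnectedComponents.mk : K → ConnectedComponents K) '' A) :=
    (hA.isCompact.image hc).isClosed
  have hB' : IsClosed ((ConnectedComponents.mk : K → ConnectedComponents K) '' B) :=
    (hB.isCompact.image hc).isClosed
  obtain ⟨C, hC, hAC, hCB⟩ := exists_clopen_of_closed_subset_open hA' hB'.isOpen_compl (by
    rintro _ ⟨a, ha, rfl⟩ ⟨b, hb, hab⟩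
    have := ConnectedComponents.coe_eq_coe.1 hab
    exact h a ha b hb this.symm)
  refine ⟨ConnectedComponents.mk ⁻¹' C, hC.preimage hc, ?_, ?_⟩
  · intro a ha
    exact hAC ⟨a, ha, rfl⟩
  · rw [Set.disjoint_left]
    intro b hb hb'
    exact hCB hb ⟨b, hb', rfl⟩

variable {X : Type*} [MetricSpace X] [CompactSpace X]

/-- pairs whose second entry is within `η` of a successor of the first one -/
def Near (Z : Set (X × X)) (η : ℝ) : Set (X × X) :=
  {p | ∃ y, (p.1, y) ∈ Z ∧ dist y p.2 ≤ η}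

/-- the transposed relation -/
def Tr (Y : Set (X × X)) : Set (X × X) := {p | (p.2, p.1) ∈ Y}

theorem near_closed (Z : Set (X × X)) (hZ : IsCompact Z) (η : ℝ) : IsClosed (Near Z η) := by
  have h1 : Near Z η = (fun q : (X × X) × X => (q.1.1, q.2)) ''
      ((Z ×ˢ (univ : Set X)) ∩ {q | dist q.1.2 q.2 ≤ η}) := by
    ext p
    constructor
    · rintro ⟨y, hy, hd⟩
      exact ⟨((p.1, y), p.2), ⟨⟨hy, mem_univ _⟩, hd⟩, rfl⟩
    · rintro ⟨⟨⟨x, y⟩, z⟩, ⟨⟨hy, -⟩, hd⟩, rfl⟩
      exact ⟨y, hy, hd⟩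
  rw [h1]
  refine (IsCompact.image ?_ (by fun_prop)).isClosed
  refine (hZ.prod isCompact_univ).inter_right ?_
  exact isClosed_le (by fun_prop) continuous_const

theorem tr_closed (Y : Set (X × X)) (hY : IsClosed Y) : IsClosed (Tr Y) :=
  hY.preimage (continuous_snd.prodMk continuous_fst)

/-- a sign function at scale `ε`: it does not vanish at distance at least `ε` from the diagonal, is positive
on `Y` and negative on the transpose of `Z` -/
structure Good (Y Z : Set (X × X)) (ε : ℝ) (α : X × X → ℝ) : Prop where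
  cont : Continuous α
  far : ∀ p : X × X, ε ≤ dist p.1 p.2 → α p ≠ 0
  pos : ∀ p ∈ Y, 0 < α p
  neg : ∀ p ∈ Tr Z, α p < 0

theorem exists_good (Y Z : Set (X × X)) (hY : IsClosed Y) (hZ : IsClosed Z) (ε : ℝ) (hε : 0 < ε)
    (hYK : ∀ p ∈ Y, ε ≤ dist p.1 p.2) (hZK : ∀ p ∈ Z, ε ≤ dist p.1 p.2)
    (hno : ¬ ∃ E : Set (X × X), IsCompact E ∧ IsConnected E ∧ (∀ x : X, (x, x) ∉ E) ∧
      (E ∩ Y).Nonempty ∧ (E ∩ Tr Z).Nonempty) :
    ∃ α, Good Y Z ε α := by
  classical
  let K : Set (X × X) := {p | ε ≤ dist p.1 p.2}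
  have hK : IsClosed K := isClosed_le continuous_const (by fun_prop)
  have hTrK : ∀ p ∈ Tr Z, p ∈ K := by
    intro p hp
    have := hZK _ hp
    simpa [K, dist_comm] using this
  have : CompactSpace K := isCompact_iff_compactSpace.1 hK.isCompact
  obtain ⟨U, hU, hAU, hUB⟩ := split_components (K := K) (Subtype.val ⁻¹' Y)
    (Subtype.val ⁻¹' Tr Z) (hY.preimage continuous_subtype_val)
    ((tr_closed Z hZ).preimage continuous_subtype_val) (by
      intro a ha b hb hab
      apply hno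
      refine ⟨Subtype.val '' connectedComponent a, ?_, ?_, ?_, ?_, ?_⟩
      · exact (isClosed_connectedComponent.isCompact).image continuous_subtype_val
      · exact isConnected_connectedComponent.image _ continuous_subtype_val.continuousOn
      · rintro x ⟨⟨q, hq⟩, -, hqx⟩
        simp only at hqx
        subst hqx
        simp only [K, Set.mem_ofPred_eq, dist_self] at hq
        exact absurd hq (not_le.2 hε)
      · exact ⟨a.1, ⟨a, mem_connectedComponent, rfl⟩, ha⟩
      · refine ⟨b.1, ⟨b, ?_, rfl⟩, hb⟩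
        rw [hab]
        exact mem_connectedComponent)
  have hP : IsClosed (Subtype.val '' U : Set (X × X)) :=
    ((hU.isClosed.isCompact).image continuous_subtype_val).isClosed
  have hP' : IsClosed (Subtype.val '' Uᶜ : Set (X × X)) :=
    ((hU.compl.isClosed.isCompact).image continuous_subtype_val).isClosed
  have hdisj : Disjoint (Subtype.val '' Uᶜ : Set (X × X)) (Subtype.val '' U) := by
    rw [Set.disjoint_left]
    rintro _ ⟨a, ha, rfl⟩ ⟨b, hb, hab⟩
    have : b = a := Subtype.ext hab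
    subst this
    exact ha hb
  obtain ⟨f, hf0, hf1, -⟩ := exists_continuous_zero_one_of_isClosed hP' hP hdisj
  refine ⟨fun p => 2 * f p - 1, by fun_prop, ?_, ?_, ?_⟩
  · intro p hp
    by_cases hpU : (⟨p, hp⟩ : K) ∈ U
    · have : f p = 1 := hf1 ⟨⟨p, hp⟩, hpU, rfl⟩
      simp only [this]
      norm_num
    · have : f p = 0 := hf0 ⟨⟨p, hp⟩, hpU, rfl⟩
      simp only [this]
      norm_num
  · intro p hp
    have hpK : p ∈ K := hYK p hp
    have : f p = 1 := hf1 ⟨⟨p, hpK⟩, hAU hp, rfl⟩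
    simp only [this]
    norm_num
  · intro p hp
    have hpK : p ∈ K := hTrK p hp
    have hpU : (⟨p, hpK⟩ : K) ∉ U := fun h => (Set.disjoint_left.1 hUB h) hp
    have : f p = 0 := hf0 ⟨⟨p, hpK⟩, hpU, rfl⟩
    simp only [this]
    norm_num

theorem step [ConnectedSpace X] (Z : Set (X × X)) (hZ : IsCompact Z) (η : ℝ) (ε : ℝ)
    (hε : ε ≤ η) (α : X × X → ℝ) (hα : Good (Near Z η) Z ε α) :
    ∃ δ > 0, ∀ ε' ≤ δ, ∀ β, Good (Near Z η) Z ε' β →
      ∀ x y z, (x, y) ∈ Z → 0 ≤ α (y, z) → 0 < β (x, z) := by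
  -- a uniform neighbourhood of the transposed relation on which `α` is negative
  have hδ : ∃ δ > 0, ∀ x y z, (x, y) ∈ Z → dist x z < δ → α (y, z) < 0 := by
    rcases Z.eq_empty_or_nonempty with rfl | hne
    · exact ⟨1, one_pos, fun x y z h => absurd h (notMem_empty _)⟩
    obtain ⟨q, hq, hmax⟩ := hZ.exists_isMaxOn hne
      (f := fun p : X × X => α (p.2, p.1)) (by
        have := hα.cont
        fun_prop)
    have hneg : α (q.2, q.1) < 0 := hα.neg _ hq
    have hu : UniformContinuous α := CompactSpace.uniformContinuous_of_continuous hα.cont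
    obtain ⟨δ, hδ, h⟩ := Metric.uniformContinuous_iff.1 hu (-α (q.2, q.1)) (by linarith)
    refine ⟨δ, hδ, fun x y z hxy hxz => ?_⟩
    have h1 : α (y, x) ≤ α (q.2, q.1) := hmax hxy
    have h2 : dist (α (y, z)) (α (y, x)) < -α (q.2, q.1) := by
      apply h
      rw [Prod.dist_eq]
      simpa [dist_comm z x] using hxz
    rw [Real.dist_eq] at h2
    have := abs_lt.1 h2
    linarith [this.2]
  obtain ⟨δ, hδ0, hδ⟩ := hδ
  refine ⟨δ, hδ0, fun ε' hε' β hβ x y z hxy hz => ?_⟩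
  -- the exceptional set is clopen and misses `x`
  by_contra hcon
  have hcon' : β (x, z) ≤ 0 := not_lt.1 hcon
  let S : Set X := {w | 0 ≤ α (y, w) ∧ β (x, w) ≤ 0}
  have hS' : S = {w | 0 < α (y, w) ∧ β (x, w) < 0} := by
    ext w
    constructor
    · rintro ⟨h1, h2⟩
      have hb : β (x, w) ≠ 0 := by
        intro h0
        have : ¬ ε' ≤ dist x w := fun h => hβ.far (x, w) h h0
        have := hδ x y w hxy (by linarith [not_le.1 this])
        linarith
      have ha : α (y, w) ≠ 0 := by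
        intro h0
        have : ¬ ε ≤ dist y w := fun h => hα.far (y, w) h h0
        have hpos : 0 < β (x, w) := hβ.pos (x, w) ⟨y, hxy, by linarith [not_le.1 this]⟩
        linarith
      exact ⟨lt_of_le_of_ne h1 (Ne.symm ha), lt_of_le_of_ne h2 hb⟩
    · rintro ⟨h1, h2⟩
      exact ⟨h1.le, h2.le⟩
  have hcα : Continuous fun w => α (y, w) := by
    have := hα.cont
    fun_prop
  have hcβ : Continuous fun w => β (x, w) := by
    have := hβ.cont
    fun_prop
  have hclosed : IsClosed S :=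
    (isClosed_le continuous_const hcα).inter (isClosed_le hcβ continuous_const)
  have hopen : IsOpen S := by
    rw [hS']
    exact (isOpen_lt continuous_const hcα).inter (isOpen_lt hcβ continuous_const)
  have hxS : x ∉ S := by
    rintro ⟨h1, -⟩
    have : α (y, x) < 0 := hα.neg (y, x) hxy
    linarith
  rcases isClopen_iff.1 ⟨hclosed, hopen⟩ with h | h
  · have : z ∈ S := ⟨hz, hcon'⟩
    rw [h] at this
    exact this
  · exact hxS (h ▸ mem_univ x)

/-- the chain lemma: the end of a chain is after its beginning, at every scale -/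
theorem chain_neg [ConnectedSpace X] (Z : Set (X × X)) (hZ : IsCompact Z) (η : ℝ) (hη : 0 < η)
    (hgood : ∀ ε, 0 < ε → ε ≤ η → ∃ α, Good (Near Z η) Z ε α)
    (x : ℕ → X) (hx : ∀ n, (x n, x (n + 1)) ∈ Z) :
    ∀ n : ℕ, ∀ ε, 0 < ε → ε ≤ η → ∀ α, Good (Near Z η) Z ε α → ∀ k, α (x (k + (n + 1)), x k) < 0 := by
  intro n
  induction n with
  | zero =>
    intro ε _ _ α hα k
    exact hα.neg _ (hx k)
  | succ n ih =>
    intro ε hε hεη α hα k
    by_contra hcon
    have hcon' : 0 ≤ α (x (k + (n + 1 + 1)), x k) := not_lt.1 hcon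
    obtain ⟨δ, hδ, h⟩ := step Z hZ η ε hεη α hα
    obtain ⟨β, hβ⟩ := hgood (min δ η) (lt_min hδ hη) (min_le_right _ _)
    have h1 : 0 < β (x (k + (n + 1)), x k) :=
      h (min δ η) (min_le_left _ _) β hβ (x (k + (n + 1))) (x (k + (n + 1) + 1)) (x k)
        (hx _) hcon'
    have h2 := ih (min δ η) (lt_min hδ hη) (min_le_right _ _) β hβ k
    linarith

theorem exchange [ConnectedSpace X] (Z : Set (X × X)) (hZ : IsCompact Z) (hne : Z.Nonempty)
    (hsub : Prod.snd '' Z ⊆ Prod.fst '' Z) (hdiag : ∀ x : X, (x, x) ∉ Z) (η : ℝ) (hη : 0 < η) :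
    ∃ E : Set (X × X), IsCompact E ∧ IsConnected E ∧ (∀ x : X, (x, x) ∉ E) ∧
      ∃ x y z x' y', (x, y) ∈ Z ∧ dist y z < η ∧ (x, z) ∈ E ∧ (x', y') ∈ Z ∧ (y', x') ∈ E := by
  -- distance of `Z` to the diagonal
  obtain ⟨q, hq, hmin⟩ := hZ.exists_isMinOn hne (f := fun p : X × X => dist p.1 p.2)
    (by fun_prop)
  have hρ : 0 < dist q.1 q.2 := by
    rw [dist_pos]
    intro h
    apply hdiag q.1
    have : q = (q.1, q.1) := Prod.ext rfl h.symm
    rw [← this]
    exact hq
  set r := min (η / 2) (dist q.1 q.2 / 2) with hr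
  have hr0 : 0 < r := lt_min (by linarith) (by linarith)
  have hrη : r < η := lt_of_le_of_lt (min_le_left _ _) (by linarith)
  have hYK : ∀ p ∈ Near Z r, r ≤ dist p.1 p.2 := by
    rintro ⟨a, b⟩ ⟨y, hy, hd⟩
    have h1 : dist q.1 q.2 ≤ dist a y := hmin hy
    have h2 : dist a y ≤ dist a b + dist b y := dist_triangle _ _ _
    have h3 : r ≤ dist q.1 q.2 / 2 := min_le_right _ _
    rw [dist_comm b y] at h2
    simp only at hd ⊢
    linarith
  have hZK : ∀ p ∈ Z, r ≤ dist p.1 p.2 := by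
    intro p hp
    have h1 : dist q.1 q.2 ≤ dist p.1 p.2 := hmin hp
    have h3 : r ≤ dist q.1 q.2 / 2 := min_le_right _ _
    linarith
  by_contra hcon
  have hno : ¬ ∃ E : Set (X × X), IsCompact E ∧ IsConnected E ∧ (∀ x : X, (x, x) ∉ E) ∧
      (E ∩ Near Z r).Nonempty ∧ (E ∩ Tr Z).Nonempty := by
    rintro ⟨E, hE1, hE2, hE3, ⟨p, hpE, y, hy, hd⟩, ⟨p', hpE', hy'⟩⟩
    exact hcon ⟨E, hE1, hE2, hE3, p.1, y, p.2, p'.2, p'.1, hy, lt_of_le_of_lt hd hrη,
      hpE, hy', hpE'⟩
  have hgood : ∀ ε, 0 < ε → ε ≤ r → ∃ α, Good (Near Z r) Z ε α := by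
    intro ε hε hεr
    exact exists_good _ _ (near_closed Z hZ r) hZ.isClosed ε hε
      (fun p hp => hεr.trans (hYK p hp)) (fun p hp => hεr.trans (hZK p hp)) hno
  -- an infinite chain
  have hnext : ∀ p : Z, ∃ p' : Z, p'.1.1 = p.1.2 := by
    rintro ⟨p, hp⟩
    obtain ⟨p', hp', h⟩ := hsub ⟨p, hp, rfl⟩
    exact ⟨⟨p', hp'⟩, h⟩
  choose f hf using hnext
  obtain ⟨p0, hp0⟩ := hne
  let s : ℕ → Z := fun n => f^[n] ⟨p0, hp0⟩
  let x : ℕ → X := fun n => (s n).1.1
  have hs : ∀ n, (s (n + 1)).1.1 = (s n).1.2 := by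
    intro n
    simp only [s, Function.iterate_succ_apply']
    exact hf _
  have hx : ∀ n, (x n, x (n + 1)) ∈ Z := by
    intro n
    have : (x n, x (n + 1)) = (s n).1 := Prod.ext rfl (hs n)
    rw [this]
    exact (s n).2
  -- recurrence
  obtain ⟨a, -, φ, hφ, hlim⟩ := isCompact_univ.tendsto_subseq (fun n => mem_univ (x n))
  obtain ⟨n0, hn0⟩ := Metric.tendsto_atTop.1 hlim (r / 2) (by linarith)
  have h1 := hn0 n0 le_rfl
  have h2 := hn0 (n0 + 1) (Nat.le_succ _)
  simp only [Function.comp] at h1 h2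
  have hlt : φ n0 < φ (n0 + 1) := hφ (Nat.lt_succ_self _)
  obtain ⟨m, hm⟩ := Nat.exists_eq_add_of_lt hlt
  have hclose : dist (x (φ n0 + m + 1)) (x (φ n0)) ≤ r := by
    rw [← hm]
    have := dist_triangle_right (x (φ (n0 + 1))) (x (φ n0)) a
    linarith
  have hmem : (x (φ n0 + m), x (φ n0)) ∈ Near Z r := ⟨x (φ n0 + m + 1), hx _, hclose⟩
  obtain ⟨α, hα⟩ := hgood r hr0 le_rfl
  have hpos : 0 < α (x (φ n0 + m), x (φ n0)) := hα.pos _ hmem
  rcases m with _ | m
  · have := hYK _ hmem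
    simp at this
    linarith
  · have h3 : α (x (φ n0 + (m + 1)), x (φ n0)) < 0 :=
      chain_neg Z hZ r hr0 hgood x hx m r hr0 le_rfl α hα (φ n0)
    exact absurd hpos (not_lt.2 h3.le)

/-- if `X` is aposyndetic at `y` with respect to `x` for all `(x, y)` in the compact set `W`,
then points near `y` can be joined to `y` inside `X` minus `x`, uniformly on `W` -/
theorem unif_apo (W : Set (X × X)) (hW : IsCompact W)
    (hapo : ∀ p ∈ W, ∃ H : Set X, IsCompact H ∧ IsConnected H ∧ p.2 ∈ interior H ∧ p.1 ∉ H) :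
    ∃ δ > 0, ∀ x y z, (x, y) ∈ W → dist y z < δ →
      ∃ C : Set X, IsCompact C ∧ IsConnected C ∧ y ∈ C ∧ z ∈ C ∧ x ∉ C := by
  choose! H hH1 hH2 hH3 hH4 using hapo
  have hr : ∀ p ∈ W, ∃ r > 0, Metric.ball p.2 r ⊆ H p ∧ ∀ x, dist p.1 x < r → x ∉ H p := by
    intro p hp
    obtain ⟨r1, h1, h2⟩ := Metric.isOpen_iff.1 isOpen_interior p.2 (hH3 p hp)
    obtain ⟨r2, h3, h4⟩ := Metric.isOpen_iff.1 (hH1 p hp).isClosed.isOpen_compl p.1 (hH4 p hp)
    refine ⟨min r1 r2, lt_min h1 h3, ?_, ?_⟩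
    · exact ((Metric.ball_subset_ball (min_le_left _ _)).trans h2).trans interior_subset
    · intro x hx
      apply h4
      rw [Metric.mem_ball, dist_comm]
      exact lt_of_lt_of_le hx (min_le_right _ _)
  choose! r hr0 hr1 hr2 using hr
  obtain ⟨t, ht⟩ := hW.elim_nhds_subcover' (fun p _ => Metric.ball p (r p / 2))
    (fun p hp => Metric.ball_mem_nhds p (by
      have := hr0 p hp
      linarith))
  by_cases hte : t.Nonempty
  · refine ⟨t.inf' hte (fun p => r p / 2), ?_, ?_⟩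
    · rw [gt_iff_lt, Finset.lt_inf'_iff]
      intro p hp
      have := hr0 p p.2
      linarith
    · intro x y z hxy hz
      obtain ⟨w, hwt, hw⟩ := mem_iUnion₂.1 (ht hxy)
      rw [Metric.mem_ball, Prod.dist_eq] at hw
      have hw1 : dist x w.1.1 < r w / 2 := lt_of_le_of_lt (le_max_left _ _) hw
      have hw2 : dist y w.1.2 < r w / 2 := lt_of_le_of_lt (le_max_right _ _) hw
      have h1 : dist y z < r w / 2 := lt_of_lt_of_le hz (Finset.inf'_le _ hwt)
      have hrw := hr0 w w.2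
      refine ⟨H w, hH1 w w.2, hH2 w w.2, hr1 w w.2 ?_, hr1 w w.2 ?_, hr2 w w.2 x ?_⟩
      · rw [Metric.mem_ball]
        linarith
      · rw [Metric.mem_ball]
        have := dist_triangle_left z w.1.2 y
        linarith
      · rw [dist_comm]
        linarith
  · rw [Finset.not_nonempty_iff_eq_empty] at hte
    subst hte
    refine ⟨1, one_pos, fun x y z hxy => ?_⟩
    have := ht hxy
    simp at this

/-- One-point version: a subcontinuum `Z` of `X × X` off the diagonal with a chain-closed part `W` gives a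
continuum off the diagonal containing `(B, A)` and `(A, B')` with `(A, B)` in `W` and `B'` close to `B`. -/
theorem nearly_symmetric [ConnectedSpace X] (Z : Set (X × X)) (hZ : IsCompact Z)
    (hZc : IsConnected Z) (hdiag : ∀ x : X, (x, x) ∉ Z)
    (W : Set (X × X)) (hWZ : W ⊆ Z) (hW : IsClosed W) (hne : W.Nonempty)
    (hsub : Prod.snd '' W ⊆ Prod.fst '' W) (η : ℝ) (hη : 0 < η) :
    ∃ K : Set (X × X), IsCompact K ∧ IsConnected K ∧ (∀ x : X, (x, x) ∉ K) ∧
      ∃ A B B' : X, (A, B) ∈ W ∧ dist B B' < η ∧ (B, A) ∈ K ∧ (A, B') ∈ K := by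
  obtain ⟨E, hE1, hE2, hE3, x, y, z, x', y', hxy, hyz, hxz, hxy', hyx'⟩ :=
    exchange W hW.isCompact hne hsub (fun x hx => hdiag x (hWZ hx)) η hη
  refine ⟨E ∪ Prod.swap '' Z, hE1.union (hZ.image continuous_swap), ?_, ?_, x, y, z, hxy, hyz,
    Or.inr ⟨(x, y), hWZ hxy, rfl⟩, Or.inl hxz⟩
  · exact IsConnected.union ⟨(y', x'), hyx', ⟨(x', y'), hWZ hxy', rfl⟩⟩ hE2
      (hZc.image _ continuous_swap.continuousOn)
  · rintro w (hw | ⟨⟨a, b⟩, hab, h⟩)
    · exact hE3 w hw
    · simp only [Prod.swap_prod_mk, Prod.mk.injEq] at h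
      obtain ⟨rfl, rfl⟩ := h
      exact hdiag _ hab

theorem aposyndetic [ConnectedSpace X]
    (hD : ∀ A B : X, ∀ K : Set (X × X), IsCompact K → IsConnected K →
      (A, B) ∈ K → (B, A) ∈ K → ∃ x : X, (x, x) ∈ K)
    (Z : Set (X × X)) (hZ : IsCompact Z) (hZc : IsConnected Z)
    (W : Set (X × X)) (hWZ : W ⊆ Z) (hW : IsClosed W) (hne : W.Nonempty)
    (hsub : Prod.snd '' W ⊆ Prod.fst '' W)
    (hapo : ∀ p ∈ W, ∃ H : Set X, IsCompact H ∧ IsConnected H ∧ p.2 ∈ interior H ∧ p.1 ∉ H) :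
    ∃ x : X, (x, x) ∈ Z := by
  by_contra hcon
  have hdiag : ∀ x : X, (x, x) ∉ Z := fun x hx => hcon ⟨x, hx⟩
  obtain ⟨δ, hδ, hunif⟩ := unif_apo W hW.isCompact hapo
  obtain ⟨K, hK1, hK2, hK3, A, B, B', hAB, hBB, hBA, hAB'⟩ :=
    nearly_symmetric Z hZ hZc hdiag W hWZ hW hne hsub δ hδ
  obtain ⟨C, c1, c2, c3, c4, c5⟩ := hunif A B B' hAB hBB
  have h1 : IsConnected (({A} : Set X) ×ˢ C) := isConnected_singleton.prod c2
  have h3 : IsConnected (K ∪ ({A} : Set X) ×ˢ C) :=
    IsConnected.union ⟨(A, B'), hAB', ⟨rfl, c4⟩⟩ hK2 h1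
  obtain ⟨w, hw⟩ := hD A B _ (hK1.union (isCompact_singleton.prod c1)) h3 (Or.inr ⟨rfl, c3⟩)
    (Or.inl hBA)
  rcases hw with hw | hw
  · exact hK3 w hw
  · obtain ⟨hwx, hwC⟩ := hw
    simp only [mem_singleton_iff] at hwx hwC
    subst hwx
    exact c5 hwC

end Pool.Agent.MP_4b5926_gt.ExchangeN
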