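import Mathlib

set_option autoImplicit false

namespace Pool.MP_4b5926_gt.LAB

open Classical in
/-- Lifting a fold of the tree of regions: `P x i` says that `x` lies in a region at level `i`. -/
theorem lift_fold {V A : Type} (E : V → V → Prop) (lam : V → A) (P : V → ℕ → Prop)
    (_hsym : ∀ x y, E x y → E y x)
    (hconn : ∀ S : V → Prop, (∀ x y, S x → E x y → S y) → ∀ x y, S x → S y)
    (hE : ∀ x y, E x y → lam x ≠ lam y)
    (F1 : ∀ x, ∃ i, P x i)
    (F2 : ∀ x i j, P x i → P x j → j ≤ i + 1)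
    (F3 : ∀ x y i, P x i → P x (i + 1) → P y i → P y (i + 1) → lam x = lam y)
    (F4 : ∀ x y, E x y → ∃ i, P x i ∧ P y i)
    (F5 : ∀ x y z i, P x i → P y i → P z i → lam x = lam y ∨ lam x = lam z ∨ lam y = lam z) :
    ∃ h : V → ℕ, (∀ x y, E x y → h x ≤ h y + 1) ∧ (∀ x y, h x = h y → lam x = lam y) := by
  rcases isEmpty_or_nonempty V with hV | ⟨⟨v0⟩⟩
  · exact ⟨fun _ => 0, fun x => (hV.false x).elim, fun x => (hV.false x).elim⟩
  -- through vertices
  let U : V → ℕ → Prop := fun x i => P x i ∧ P x (i + 1)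
  have F3' : ∀ x y i, U x i → U y i → lam x = lam y := fun x y i hx hy => F3 x y i hx.1 hx.2 hy.1 hy.2
  have F6 : ∀ i x y j, P x i → i < j → P y j → ∃ z, U z i := by
    intro i x y j hx hij hy
    by_contra hno
    push Not at hno
    have hS : ∀ x y, (∃ k, k ≤ i ∧ P x k) → E x y → (∃ k, k ≤ i ∧ P y k) := by
      rintro a b ⟨k, hk, hak⟩ hab
      obtain ⟨m, ham, hbm⟩ := F4 a b hab
      by_cases hm : m ≤ i
      · exact ⟨m, hm, hbm⟩
      · exfalso
        have h1 := F2 a k m hak ham
        have h2 : k = i := by omega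
        have h3 : m = i + 1 := by omega
        subst h2 h3
        exact hno a ⟨hak, ham⟩
    obtain ⟨k, hk, hyk⟩ := hconn (fun x => ∃ k, k ≤ i ∧ P x k) hS x y ⟨i, le_rfl, hx⟩
    have h1 := F2 y k j hyk hy
    have h2 : k = i := by omega
    have h3 : j = i + 1 := by omega
    subst h2 h3
    exact hno y ⟨hyk, hy⟩
  -- a base label for each level
  obtain ⟨b, hb⟩ : ∃ b : ℕ → A, ∀ i x, P x i → ∃ x', P x' i ∧ b i = lam x' := by
    have : ∀ i, ∃ a : A, ∀ x, P x i → ∃ x', P x' i ∧ a = lam x' := by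
      intro i
      by_cases h : ∃ x, P x i
      · obtain ⟨x, hx⟩ := h
        exact ⟨lam x, fun _ _ => ⟨x, hx, rfl⟩⟩
      · exact ⟨lam v0, fun x hx => (h ⟨x, hx⟩).elim⟩
    choose b hb using this
    exact ⟨b, hb⟩
  let Dn : ℕ → Prop := fun i => ∃ j, i = j + 1 ∧ ∃ y, U y j
  let T2 : ℕ → Prop := fun i => ∃ j, i = j + 1 ∧ ∃ x y, U x j ∧ U y (j + 1) ∧ lam x = lam y
  let l : ℕ → ℕ := fun i => if T2 i then 2 else 1
  let o : ℕ → ℕ := fun i => Nat.rec 0 (fun i s => s + l i) i
  have o_succ : ∀ i, o (i + 1) = o i + l i := fun i => rfl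
  have l_pos : ∀ i, 1 ≤ l i := by
    intro i
    simp only [l]
    split_ifs <;> omega
  have o_mono : StrictMono o := strictMono_nat_of_lt_succ fun i => by
    have := o_succ i
    have := l_pos i
    omega
  let Z : ℕ → A → Prop := fun i a =>
    (∃ j, i = j + 1 ∧ ∃ y, U y j ∧ lam y = a) ∨
    (¬ Dn i ∧ (∃ y, U y i) ∧ ∀ y, U y i → lam y ≠ a) ∨
    (¬ Dn i ∧ (¬ ∃ y, U y i) ∧ a = b i)
  -- level of a vertex
  let lev : V → ℕ := fun x => Nat.find (F1 x)
  have lev_spec : ∀ x, P x (lev x) := fun x => Nat.find_spec (F1 x)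
  have lev_min : ∀ x j, P x j → lev x ≤ j := fun x j hj => Nat.find_min' (F1 x) hj
  let h : V → ℕ := fun x =>
    if P x (lev x + 1) then o (lev x + 1) else if Z (lev x) (lam x) then o (lev x) else o (lev x) + 1
  have K : ∀ x k, P x k →
      (k = lev x + 1 ∧ U x (lev x) ∧ h x = o k) ∨ (k = lev x ∧ U x k ∧ h x = o (k + 1)) ∨
      (k = lev x ∧ ¬ U x k ∧ Z k (lam x) ∧ h x = o k) ∨
      (k = lev x ∧ ¬ U x k ∧ ¬ Z k (lam x) ∧ h x = o k + 1) := by
    intro x k hk
    have h1 := lev_spec x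
    have h2 := lev_min x k hk
    have h3 := F2 x _ _ h1 hk
    by_cases hU : P x (lev x + 1)
    · have hh : h x = o (lev x + 1) := if_pos hU
      rcases Nat.eq_or_lt_of_le h2 with e | e
      · right; left
        refine ⟨e.symm, ?_, ?_⟩
        · rw [← e]; exact ⟨h1, hU⟩
        · rw [← e]; exact hh
      · left
        have e' : k = lev x + 1 := by omega
        exact ⟨e', ⟨h1, hU⟩, by rw [e']; exact hh⟩
    · have e : k = lev x := by
        by_contra hne
        have e' : k = lev x + 1 := by omega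
        exact hU (e' ▸ hk)
      by_cases hZ : Z (lev x) (lam x)
      · right; right; left
        subst e
        exact ⟨rfl, fun hh => hU hh.2, hZ, (if_neg hU).trans (if_pos hZ)⟩
      · right; right; right
        subst e
        exact ⟨rfl, fun hh => hU hh.2, hZ, (if_neg hU).trans (if_neg hZ)⟩
  -- uniqueness of the bottom label
  have Zuniq : ∀ i x y, P x i → P y i → Z i (lam x) → Z i (lam y) → lam x = lam y := by
    intro i x y hx hy h1 h2
    rcases h1 with ⟨j, rfl, w, hw, e⟩ | ⟨g1, ⟨w, hw⟩, g3⟩ | ⟨g1, g2, g3⟩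
    · rcases h2 with ⟨j', hj', w', hw', e'⟩ | ⟨g1', _⟩ | ⟨g1', _⟩
      · have : j' = j := by omega
        subst this
        rw [← e, ← e']
        exact F3' _ _ _ hw hw'
      · exact absurd ⟨j, rfl, w, hw⟩ g1'
      · exact absurd ⟨j, rfl, w, hw⟩ g1'
    · rcases h2 with ⟨j', hj', w', hw', e'⟩ | ⟨_, _, g3'⟩ | ⟨_, g2', _⟩
      · exact absurd ⟨j', hj', w', hw'⟩ g1
      · rcases F5 x y w i hx hy hw.1 with h | h | h
        · exact h
        · exact absurd h.symm (g3 w hw)
        · exact absurd h.symm (g3' w hw)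
      · exact absurd ⟨w, hw⟩ g2'
    · rcases h2 with ⟨j', hj', w', hw', e'⟩ | ⟨_, g2', _⟩ | ⟨_, _, g3'⟩
      · exact absurd ⟨j', hj', w', hw'⟩ g1
      · exact absurd g2' g2
      · rw [g3, g3']
  -- one of two different labels at a level is the bottom label
  have Zex : ∀ i x y, P x i → P y i → lam x ≠ lam y → Z i (lam x) ∨ Z i (lam y) := by
    intro i x y hx hy hne
    by_cases hD : Dn i
    · obtain ⟨j, rfl, w, hw⟩ := hD
      rcases F5 x y w _ hx hy hw.2 with h | h | h
      · exact absurd h hne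
      · left; left
        exact ⟨j, rfl, w, hw, h.symm⟩
      · right; left
        exact ⟨j, rfl, w, hw, h.symm⟩
    · by_cases hU : ∃ y, U y i
      · obtain ⟨w, hw⟩ := hU
        by_cases e : lam x = lam w
        · right; right; left
          refine ⟨hD, ⟨w, hw⟩, fun z hz => ?_⟩
          rw [F3' z w i hz hw, ← e]
          exact hne
        · left; right; left
          refine ⟨hD, ⟨w, hw⟩, fun z hz => ?_⟩
          rw [F3' z w i hz hw]
          exact fun h => e h.symm
      · obtain ⟨x', hx', e⟩ := hb i x hx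
        rcases F5 x y x' i hx hy hx' with h | h | h
        · exact absurd h hne
        · left; right; right
          exact ⟨hD, hU, h.trans e.symm⟩
        · right; right; right
          exact ⟨hD, hU, h.trans e.symm⟩
  -- not bottom and simple level: the label is the label of the upper through vertices
  have Up : ∀ i x z, P x i → ¬ Z i (lam x) → ¬ T2 i → U z i → lam x = lam z := by
    intro i x z hx hZ hT hz
    by_contra hne
    rcases Zex i x z hx hz.1 hne with h | h
    · exact hZ h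
    · rcases h with ⟨j, rfl, w, hw, e⟩ | ⟨g1, g2, g3⟩ | ⟨g1, g2, g3⟩
      · exact hT ⟨j, rfl, w, z, hw, hz, e⟩
      · exact g3 z hz rfl
      · exact g2 ⟨z, hz⟩
  have l_one : ∀ i, o i + 1 = o (i + 1) → ¬ T2 i := by
    intro i h1 h2
    have h3 := o_succ i
    have h4 : l i = 2 := if_pos h2
    omega
  -- the case of one level
  have lab : ∀ x y, lev x ≤ lev y → h x = h y → lam x = lam y := by
    intro x y hle hxy
    have kx := K x (lev x) (lev_spec x)
    have ky := K y (lev y) (lev_spec y)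
    have px := lev_spec x
    have py := lev_spec y
    rcases Nat.eq_or_lt_of_le hle with e | e
    · rw [← e] at ky py
      have m := o_mono (Nat.lt_succ_self (lev x))
      rcases kx with ⟨k1, _⟩ | ⟨_, k2, k3⟩ | ⟨_, k2, k3, k4⟩ | ⟨_, k2, k3, k4⟩
      · omega
      · rcases ky with ⟨k1', _⟩ | ⟨_, k2', k3'⟩ | ⟨_, k2', k3', k4'⟩ | ⟨_, k2', k3', k4'⟩
        · omega
        · exact F3' _ _ _ k2 k2'
        · exfalso
          simp only [Nat.succ_eq_add_one] at m
          omega
        · exact (Up _ y x py k3' (l_one _ (by omega)) k2).symm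
      · rcases ky with ⟨k1', _⟩ | ⟨_, k2', k3'⟩ | ⟨_, k2', k3', k4'⟩ | ⟨_, k2', k3', k4'⟩
        · omega
        · exfalso
          simp only [Nat.succ_eq_add_one] at m
          omega
        · exact Zuniq _ x y px py k3 k3'
        · omega
      · rcases ky with ⟨k1', _⟩ | ⟨_, k2', k3'⟩ | ⟨_, k2', k3', k4'⟩ | ⟨_, k2', k3', k4'⟩
        · omega
        · exact Up _ x y px k3 (l_one _ (by omega)) k2'
        · omega
        · by_contra hne
          rcases Zex _ x y px py hne with h | h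
          · exact k3 h
          · exact k3' h
    · -- lev x < lev y
      obtain ⟨z, hz⟩ := F6 (lev x) x y (lev y) px e py
      have hx1 : h x ≤ o (lev x + 1) := by
        have m := o_mono (Nat.lt_succ_self (lev x))
        simp only [Nat.succ_eq_add_one] at m
        rcases kx with ⟨k1, _⟩ | ⟨_, k2, k3⟩ | ⟨_, k2, k3, k4⟩ | ⟨_, k2, k3, k4⟩ <;> omega
      have hy1 : o (lev y) ≤ h y := by
        have m := o_mono (Nat.lt_succ_self (lev y))
        simp only [Nat.succ_eq_add_one] at m
        rcases ky with ⟨k1, _⟩ | ⟨_, k2, k3⟩ | ⟨_, k2, k3, k4⟩ | ⟨_, k2, k3, k4⟩ <;> omega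
      have e1 : lev y = lev x + 1 := by
        by_contra hne
        have h1 : lev x + 1 < lev y := by omega
        have := o_mono h1
        omega
      have hy2 : h y = o (lev x + 1) := by
        rw [e1] at hy1
        omega
      have hx2 : h x = o (lev x + 1) := by omega
      -- the label of y
      have hly : lam y = lam z := by
        have m := o_mono (Nat.lt_succ_self (lev y))
        simp only [Nat.succ_eq_add_one] at m
        have e2 : o (lev y) = o (lev x + 1) := by rw [e1]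
        rcases ky with ⟨k1, _⟩ | ⟨_, k2, k3⟩ | ⟨_, k2, k3, k4⟩ | ⟨_, k2, k3, k4⟩
        · omega
        · omega
        · rw [e1] at k3
          rcases k3 with ⟨j, hj, w, hw, e⟩ | ⟨g1, g2, g3⟩ | ⟨g1, g2, g3⟩
          · have : j = lev x := by omega
            subst this
            rw [← e]
            exact F3' _ _ _ hw hz
          · exact absurd ⟨lev x, rfl, z, hz⟩ g1
          · exact absurd ⟨lev x, rfl, z, hz⟩ g1
        · omega
      have hlx : lam x = lam z := by
        rcases kx with ⟨k1, _⟩ | ⟨_, k2, k3⟩ | ⟨_, k2, k3, k4⟩ | ⟨_, k2, k3, k4⟩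
        · omega
        · exact F3' _ _ _ k2 hz
        · exfalso
          have m := o_mono (Nat.lt_succ_self (lev x))
          simp only [Nat.succ_eq_add_one] at m
          omega
        · exact Up _ x z px k3 (l_one _ (by omega)) hz
      rw [hlx, hly]
  refine ⟨h, ?_, ?_⟩
  · intro x y hxy
    obtain ⟨k, hxk, hyk⟩ := F4 x y hxy
    have hne := hE x y hxy
    have kx := K x k hxk
    have ky := K y k hyk
    have hs := o_succ k
    -- bottom of level k
    have low : ∀ y, ((k = lev y + 1 ∧ U y (lev y) ∧ h y = o k) ∨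
        (k = lev y ∧ ¬ U y k ∧ Z k (lam y) ∧ h y = o k)) → T2 k → ∀ x, U x k → lam x = lam y := by
      intro y hy hT x hx
      obtain ⟨j, rfl, a, b', ha, hb', e⟩ := hT
      have h1 : lam x = lam a := by
        rw [e]
        exact F3' _ _ _ hx hb'
      rcases hy with ⟨g1, g2, _⟩ | ⟨_, _, g3, _⟩
      · have : lev y = j := by omega
        rw [this] at g2
        rw [h1]
        exact F3' _ _ _ ha g2
      · rcases g3 with ⟨j', hj', w, hw, e'⟩ | ⟨g1, _⟩ | ⟨g1, _⟩
        · have : j' = j := by omega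
          subst this
          rw [h1, ← e']
          exact F3' _ _ _ ha hw
        · exact absurd ⟨j, rfl, a, ha⟩ g1
        · exact absurd ⟨j, rfl, a, ha⟩ g1
    by_cases hT : T2 k
    · have hl : l k = 2 := if_pos hT
      rcases kx with ⟨k1, _, k3⟩ | ⟨_, k2, k3⟩ | ⟨_, k2, _, k4⟩ | ⟨_, k2, _, k4⟩
      · rcases ky with ⟨k1', _, k3'⟩ | ⟨_, k2', k3'⟩ | ⟨_, k2', _, k4'⟩ | ⟨_, k2', _, k4'⟩ <;> omega
      · rcases ky with ky | ⟨_, k2', k3'⟩ | ky | ⟨_, k2', _, k4'⟩
        · exact absurd (low y (Or.inl ky) hT x k2) hne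
        · omega
        · exact absurd (low y (Or.inr ky) hT x k2) hne
        · omega
      · rcases ky with ⟨k1', _, k3'⟩ | ⟨_, k2', k3'⟩ | ⟨_, k2', _, k4'⟩ | ⟨_, k2', _, k4'⟩ <;> omega
      · rcases ky with ⟨k1', _, k3'⟩ | ⟨_, k2', k3'⟩ | ⟨_, k2', _, k4'⟩ | ⟨_, k2', _, k4'⟩ <;> omega
    · have hl : l k = 1 := if_neg hT
      rcases kx with ⟨k1, _, k3⟩ | ⟨_, k2, k3⟩ | ⟨_, k2, _, k4⟩ | ⟨_, k2, _, k4⟩ <;>
      rcases ky with ⟨k1', _, k3'⟩ | ⟨_, k2', k3'⟩ | ⟨_, k2', _, k4'⟩ | ⟨_, k2', _, k4'⟩ <;> omega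
  · intro x y hxy
    rcases le_total (lev x) (lev y) with hle | hle
    · exact lab x y hle hxy
    · exact (lab y x hle hxy.symm).symm

end Pool.MP_4b5926_gt.LAB
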