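import Pool.Agent.Lib.MP_4b5926_gt.Deriv
import Pool.Agent.Lib.MP_4b5926_gt.Lift

set_option autoImplicit false

namespace Pool.MP_4b5926_gt.LAB

open Relation Classical

/-- A fold: a map to an arc that decides the label. -/
def Fold {V A : Type} (E : V → V → Prop) (lam : V → A) : Prop :=
  ∃ h : V → ℕ, (∀ u v, E u v → h u ≤ h v + 1) ∧ (∀ u v, h u = h v → lam u = lam v)

/-- No symmetric component. -/
def NoSym {V A : Type} (E : V → V → Prop) (lam : V → A) : Prop :=
  ∀ x y, lam x ≠ lam y → ¬ Conn E lam (x, y) (y, x)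

section fact

variable {V A : Type} {T : RT V} {lam : V → A}

lemma root_path (x : V) : ReflTransGen T.E x T.r := by
  have key : ∀ n : ℕ, ∀ x : V, T.dep x < n → ReflTransGen T.E x T.r := by
    intro n
    induction n with
    | zero => intro x h; omega
    | succ n ih =>
      intro x hx
      by_cases h : x = T.r
      · rw [h]
      · have := T.dep_lt x h
        exact ReflTransGen.head (T.E_par h) (ih _ (by omega))
  exact key _ x (Nat.lt_succ_self _)

lemma closed_all (S : V → Prop) (hS : ∀ x y, S x → T.E x y → S y) (x y : V) (hx : S x) : S y := by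
  have up : ∀ a b, ReflTransGen T.E a b → S a → S b := by
    intro a b h
    induction h with
    | refl => exact id
    | tail _ h2 ih => exact fun ha => hS _ _ (ih ha) h2
  have down : ∀ a b, ReflTransGen T.E a b → S b → S a := by
    intro a b h
    induction h with
    | refl => exact id
    | tail _ h2 ih => exact fun hb => ih (hS _ _ hb (T.E_symm h2))
  exact down _ _ (root_path y) (up _ _ (root_path x) hx)

/-- triod swap -/
lemma swap_three (hd : ∀ u v, T.E u v → lam u ≠ lam v) {x a b c : V}
    (e1 : T.E x a) (e2 : T.E x b) (e3 : T.E x c)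
    (l12 : lam a ≠ lam b) (l13 : lam a ≠ lam c) (l23 : lam b ≠ lam c) :
    Conn T.E lam (x, a) (a, x) := by
  have h1 := hd _ _ e1
  have h2 := hd _ _ e2
  have h3 := hd _ _ e3
  have g1 := T.E_symm e1
  have g2 := T.E_symm e2
  have g3 := T.E_symm e3
  -- (x,a) (b,a) (b,x) (b,c) (x,c) (a,c) (a,x)
  refine (step1 e2 h1 l12.symm).trans ?_
  refine (step2 g1 l12.symm h2.symm).trans ?_
  refine (step2 e3 h2.symm l23).trans ?_
  refine (step1 g2 l23 h3).trans ?_
  refine (step1 e1 h3 l13).trans ?_
  exact step2 g3 l13 h1.symm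

/-- adjacent regions have different labels -/
lemma Td_lab_ne (hd : ∀ u v, T.E u v → lam u ≠ lam v) (q0 : Vd T lam) (hq0 : q0.1.1 = T.r)
    {q s : Vd T lam} (h : (Td q0 hq0).E q s) : lamd T lam q ≠ lamd T lam s := by
  have key : ∀ q : Vd T lam, q ≠ q0 → lamd T lam q ≠ lamd T lam ((Td q0 hq0).par q) := by
    intro q hq
    obtain ⟨c, c1, c2, c3, c4, c5⟩ := Vd_top q
    by_cases h : q.1.1 = T.r
    · rw [Td_par_root q0 hq0 h]
      intro e
      apply hq
      unfold lamd at e
      rw [h, hq0, Sym2.eq_iff] at e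
      apply Subtype.ext
      apply Prod.ext
      · rw [h, hq0]
      · rcases e with ⟨_, e⟩ | ⟨e, e'⟩
        · exact e
        · exfalso
          have : T.E T.r c := by
            have := T.E_symm (T.E_par c1)
            rwa [c2, h] at this
          apply hd _ _ this
          rw [c3, e']
    · rw [Td_par_ne q0 hq0 h]
      intro e
      unfold lamd at e
      simp only at e
      rw [reg_lab T lam _ q.1.1 (Nat.lt_succ_self _) h, Sym2.eq_iff] at e
      have e' : q.1.2 = lam (T.par q.1.1) := by
        rcases e with ⟨_, e⟩ | ⟨e1, e2⟩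
        · exact e
        · rw [e2, e1]
      apply c4
      rw [c2]
      exact ⟨h, by rw [c3, e']⟩
  rcases h with ⟨h1, h2⟩ | ⟨h1, h2⟩
  · rw [h2]
    exact key q h1
  · rw [h2]
    exact (key s h1).symm

/-- symmetric components go up from the tree of regions -/
lemma noSym_deriv (hd : ∀ u v, T.E u v → lam u ≠ lam v) (q0 : Vd T lam) (hq0 : q0.1.1 = T.r)
    (hns : NoSym T.E lam) : NoSym (Td q0 hq0).E (lamd T lam) := by
  intro q s hqs hc
  obtain ⟨x, hx, _⟩ := exists_mem_ne hd q (lam q.1.1)
  obtain ⟨y, hy, hyx⟩ := exists_mem_ne hd s (lam x)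
  have k : Corner (x, y) (q, s) := ⟨hx, hy, hqs⟩
  exact hns x y hyx.symm (conn_up q0 hq0 hd hc (p := (x, y)) (p' := (y, x)) hyx.symm hyx k
    k.swap)

/-- the lift of a fold of the tree of regions -/
lemma fold_deriv (hd : ∀ u v, T.E u v → lam u ≠ lam v)
    (h2 : ∀ x a b c, T.E x a → T.E x b → T.E x c →
      lam a = lam b ∨ lam a = lam c ∨ lam b = lam c)
    (q0 : Vd T lam) (hq0 : q0.1.1 = T.r) (hf : Fold (Td q0 hq0).E (lamd T lam)) :
    Fold T.E lam := by
  obtain ⟨g, g1, g2⟩ := hf
  have hn : ∀ y, ∃ y', T.E y y' := by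
    intro y
    by_cases hy : y = T.r
    · obtain ⟨c, c1, c2, _⟩ := Vd_top q0
      rw [hq0] at c2
      refine ⟨c, ?_⟩
      rw [hy, ← c2]
      exact T.E_symm (T.E_par c1)
    · exact ⟨T.par y, T.E_par hy⟩
  have adj : ∀ x (q s : Vd T lam), Mem x q → Mem x s → q = s ∨ (Td q0 hq0).E q s := by
    rintro x q s ⟨x1, e1, rfl⟩ ⟨x2, e2, rfl⟩
    exact Td_adj q0 hq0 h2 e1 e2
  refine lift_fold T.E lam (fun x i => ∃ q : Vd T lam, Mem x q ∧ g q = i)
    (fun x y h => T.E_symm h) (fun S hS x y hx => closed_all S hS x y hx) hd ?_ ?_ ?_ ?_ ?_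
  · intro x
    obtain ⟨x', e⟩ := hn x
    exact ⟨_, RE e, Mem_RE e, rfl⟩
  · rintro x i j ⟨q, hq, rfl⟩ ⟨s, hs, rfl⟩
    rcases adj x s q hs hq with h | h
    · rw [h]; omega
    · exact g1 _ _ h
  · rintro x y i ⟨q, hq, rfl⟩ ⟨q', hq', e'⟩ ⟨s, hs, e1⟩ ⟨s', hs', e2⟩
    by_contra hne
    have a1 : lamd T lam s = lamd T lam q := g2 _ _ e1
    have a2 : lamd T lam s' = lamd T lam q' := g2 _ _ (e2.trans e'.symm)
    have b1 : lamd T lam q = s(lam x, lam y) :=
      (Sym2.mem_and_mem_iff hne).1 ⟨Mem_lab hq, a1 ▸ Mem_lab hs⟩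
    have b2 : lamd T lam q' = s(lam x, lam y) :=
      (Sym2.mem_and_mem_iff hne).1 ⟨Mem_lab hq', a2 ▸ Mem_lab hs'⟩
    rcases adj x q q' hq hq' with h | h
    · rw [h] at e'
      omega
    · exact Td_lab_ne hd q0 hq0 h (b1.trans b2.symm)
  · intro x y e
    exact ⟨_, ⟨RE e, Mem_RE e, rfl⟩, ⟨RE e, Mem_RE' e, rfl⟩⟩
  · rintro x y z i ⟨q, hq, rfl⟩ ⟨s, hs, e1⟩ ⟨t, ht, e2⟩
    have a1 : lamd T lam s = lamd T lam q := g2 _ _ e1
    have a2 : lamd T lam t = lamd T lam q := g2 _ _ e2
    have m1 := Mem_lab hq
    have m2 := Mem_lab hs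
    have m3 := Mem_lab ht
    rw [a1] at m2
    rw [a2] at m3
    unfold lamd at m1 m2 m3
    rw [Sym2.mem_iff] at m1 m2 m3
    rcases m1 with m1 | m1 <;> rcases m2 with m2 | m2 <;> rcases m3 with m3 | m3
    · left; rw [m1, m2]
    · left; rw [m1, m2]
    · right; left; rw [m1, m3]
    · right; right; rw [m2, m3]
    · right; right; rw [m2, m3]
    · right; left; rw [m1, m3]
    · left; rw [m1, m2]
    · left; rw [m1, m2]

end fact

/-- **FACT.** A labelled finite tree without a symmetric component of
`{(x, y) | lam x ≠ lam y}` (one-token moves) factors through an arc. -/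
theorem fact_core : ∀ n : ℕ, ∀ (V A : Type) [Finite V] (T : RT V) (lam : V → A),
    Nat.card V < n → NoSym T.E lam → Fold T.E lam := by
  intro n
  induction n with
  | zero => intro V A _ T lam h; omega
  | succ n ih =>
    intro V A _ T lam hn hns
    by_cases h1 : ∃ v, v ≠ T.r ∧ lam (T.par v) = lam v
    · obtain ⟨v, hv, hl⟩ := h1
      have hcard : Nat.card {u : V // u ≠ v} < Nat.card V := by
        apply Finite.card_subtype_lt (x := v)
        simp
      obtain ⟨g, g1, g2⟩ := ih {u : V // u ≠ v} A (contr T v hv) (fun u => lam u.1) (by omega) (by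
        intro x y hxy hc
        exact hns x.1 y.1 hxy (contr_up T lam v hv hl hc))
      refine ⟨fun u => g (cpi T v hv u), ?_, ?_⟩
      · intro u w huw
        simp only
        rcases contr_E T v hv huw with h | h
        · rw [h]; omega
        · exact g1 _ _ h
      · intro u w huw
        have h := g2 _ _ huw
        simp only [lam_cpi T lam v hv hl] at h
        exact h
    · push Not at h1
      have hd : ∀ u v, T.E u v → lam u ≠ lam v := by
        rintro u v (⟨a, rfl⟩ | ⟨a, rfl⟩)
        · exact (h1 u a).symm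
        · exact h1 v a
      by_cases hr : ∃ v, v ≠ T.r
      · obtain ⟨v, hv⟩ := hr
        by_cases h2 : ∀ x a b c, T.E x a → T.E x b → T.E x c →
            lam a = lam b ∨ lam a = lam c ∨ lam b = lam c
        · obtain ⟨q0, hq0⟩ := exists_root_region (T := T) (lam := lam) _ v (Nat.lt_succ_self _) hv
          let F : {v : V // v ≠ T.r} → Vd T lam := fun v => ⟨reg T lam v.1, v.1, v.2, rfl⟩
          have hF : Function.Surjective F := by
            rintro ⟨q, v, hv, rfl⟩
            exact ⟨⟨v, hv⟩, rfl⟩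
          have : Finite (Vd T lam) := Finite.of_surjective F hF
          have c1 : Nat.card (Vd T lam) ≤ Nat.card {v : V // v ≠ T.r} :=
            Nat.card_le_card_of_surjective F hF
          have c2 : Nat.card {v : V // v ≠ T.r} < Nat.card V := by
            apply Finite.card_subtype_lt (x := T.r)
            simp
          exact fold_deriv hd h2 q0 hq0 (ih (Vd T lam) (Sym2 A) (Td q0 hq0) (lamd T lam) (by omega)
            (noSym_deriv hd q0 hq0 hns))
        · exfalso
          push Not at h2
          obtain ⟨x, a, b, c, e1, e2, e3, l12, l13, l23⟩ := h2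
          exact hns x a (hd _ _ e1) (swap_three hd e1 e2 e3 l12 l13 l23)
      · push Not at hr
        refine ⟨fun _ => 0, fun _ _ _ => Nat.zero_le _, fun u v _ => ?_⟩
        rw [hr u, hr v]

theorem fact {V A : Type} [Finite V] (T : RT V) (lam : V → A) (hns : NoSym T.E lam) :
    Fold T.E lam := fact_core _ V A T lam (Nat.lt_succ_self _) hns

/-- A tree is a rooted tree. -/
theorem exists_rt' {V : Type} (G : SimpleGraph V) (hG : G.IsTree) :
    ∃ R : RT V, ∀ u v, G.Adj u v ↔ R.E u v := by
  obtain ⟨r0⟩ := hG.connected.nonempty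
  have hex : ∀ v, v ≠ r0 → ∃ w, G.Adj v w ∧ G.dist r0 v = G.dist r0 w + 1 := by
    intro v hv
    obtain ⟨p, hp, hl⟩ := (hG.connected r0 v).exists_path_of_dist
    have hn : ¬ p.Nil := by
      intro h
      exact hv h.eq.symm
    have ha : G.Adj v p.penultimate := (p.adj_penultimate hn).symm
    refine ⟨p.penultimate, ha, ?_⟩
    rcases hG.dist_eq_dist_add_one_of_adj r0 ha with h | h
    · exact h
    · exfalso
      have h1 : G.dist r0 p.penultimate ≤ p.dropLast.length := SimpleGraph.dist_le _
      have h2 : p.dropLast.length + 1 = p.length := by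
        rw [SimpleGraph.Walk.length_dropLast_add_one hn]
      omega
  have huniq : ∀ v w w', G.Adj v w → G.Adj v w' → G.dist r0 v = G.dist r0 w + 1 →
      G.dist r0 v = G.dist r0 w' + 1 → w = w' := by
    intro v w w' ha ha' hd hd'
    obtain ⟨p, hp, hl⟩ := (hG.connected r0 w).exists_path_of_dist
    obtain ⟨p', hp', hl'⟩ := (hG.connected r0 w').exists_path_of_dist
    have hvp : v ∉ p.support := by
      intro h
      have h1 : G.dist r0 v ≤ (p.takeUntil v h).length := SimpleGraph.dist_le _
      have h2 := p.length_takeUntil_le_length h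
      omega
    have hvp' : v ∉ p'.support := by
      intro h
      have h1 : G.dist r0 v ≤ (p'.takeUntil v h).length := SimpleGraph.dist_le _
      have h2 := p'.length_takeUntil_le_length h
      omega
    have e := (hG.isAcyclic.subsingleton_path r0 v).elim ⟨_, hp.concat hvp ha.symm⟩
      ⟨_, hp'.concat hvp' ha'.symm⟩
    have e2 := Subtype.mk.inj e
    have e3 := congrArg SimpleGraph.Walk.penultimate e2
    simpa using e3
  choose! g hg hg' using hex
  refine ⟨⟨r0, fun v => if v = r0 then r0 else g v, fun v => G.dist r0 v, ?_⟩, ?_⟩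
  · intro v hv
    simp only [hv, if_false]
    have := hg' v hv
    omega
  · intro u v
    constructor
    · intro h
      rcases hG.dist_eq_dist_add_one_of_adj r0 h with hd | hd
      · left
        have hu : u ≠ r0 := by
          rintro rfl
          simp at hd
        refine ⟨hu, ?_⟩
        simp only [hu, if_false]
        exact (huniq u _ _ (hg u hu) h (hg' u hu) hd).symm
      · right
        have hv : v ≠ r0 := by
          rintro rfl
          simp at hd
        refine ⟨hv, ?_⟩
        simp only [hv, if_false]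
        exact (huniq v _ _ (hg v hv) h.symm (hg' v hv) hd).symm
    · rintro (⟨hu, h⟩ | ⟨hv, h⟩)
      · simp only at hu h
        rw [if_neg hu] at h
        rw [h]
        exact hg u hu
      · simp only at hv h
        rw [if_neg hv] at h
        rw [h]
        exact (hg v hv).symm

/-- **FACT** for trees as simple graphs. -/
theorem fact_tree {V A : Type} [Finite V] (G : SimpleGraph V) (hG : G.IsTree) (lam : V → A)
    (hns : ∀ x y, lam x ≠ lam y → ¬ Conn G.Adj lam (x, y) (y, x)) :
    ∃ h : V → ℕ, (∀ u v, G.Adj u v → h u ≤ h v + 1) ∧ (∀ u v, h u = h v → lam u = lam v) := by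
  obtain ⟨R, hR⟩ := exists_rt' G hG
  have e : G.Adj = R.E := by
    funext u v
    exact propext (hR u v)
  rw [e] at hns ⊢
  exact fact R lam hns

end Pool.MP_4b5926_gt.LAB
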