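import Mathlib

/-!
# Labelled trees without symmetric components factor through an arc

`T` a finite tree with a labelling `lam`, `G` the set of pairs of vertices with different labels; a move
changes one entry of the pair along an edge and stays in `G`.  If no pair `(x,y)` of `G` can be moved to
`(y,x)`, then the labelling factors through an arc.
-/

set_option linter.unusedVariables false

namespace Pool.Agent.Lib.MP_4b5926_gt.Fold

open Relation

/-- a rooted tree given by a parent function and a rank -/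
structure RT (V : Type) where
  root : V
  par : V → V
  rk : V → ℕ
  lt : ∀ v, v ≠ root → rk (par v) < rk v

variable {V A : Type}

/-- adjacency of a rooted tree -/
def RT.Adj (T : RT V) (u v : V) : Prop := (u ≠ T.root ∧ T.par u = v) ∨ (v ≠ T.root ∧ T.par v = u)

theorem RT.Adj.symm {T : RT V} {u v : V} (h : T.Adj u v) : T.Adj v u := by
  rcases h with h | h
  · exact Or.inr h
  · exact Or.inl h

/-- one-token moves -/
def Mv (R : V → V → Prop) (lam : V → A) (p q : V × V) : Prop :=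
  lam p.1 ≠ lam p.2 ∧ lam q.1 ≠ lam q.2 ∧ ((R p.1 q.1 ∧ p.2 = q.2) ∨ (p.1 = q.1 ∧ R p.2 q.2))

/-- no symmetric component -/
def SymFree (R : V → V → Prop) (lam : V → A) : Prop :=
  ∀ x y, lam x ≠ lam y → ¬ ReflTransGen (Mv R lam) (x, y) (y, x)

/-- a fold onto an arc, order version -/
structure IsFold (R : V → V → Prop) (lam : V → A) (h : V → ℤ) : Prop where
  same : ∀ u v, R u v → lam u = lam v → h u = h v
  btw : ∀ u v, R u v → ∀ w, ¬ (h u < h w ∧ h w < h v)
  lab : ∀ u v, h u = h v → lam u = lam v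

theorem IsFold.comap {V₁ : Type} {R : V → V → Prop} {R₁ : V₁ → V₁ → Prop} {lam : V → A}
    {lam₁ : V₁ → A} {h₁ : V₁ → ℤ} (H : IsFold R₁ lam₁ h₁) (π : V → V₁)
    (hl : ∀ v, lam₁ (π v) = lam v) (hR : ∀ u v, R u v → π u = π v ∨ R₁ (π u) (π v)) :
    IsFold R lam (fun v => h₁ (π v)) := by
  refine ⟨?_, ?_, ?_⟩
  · intro u v huv he
    rcases hR u v huv with h | h
    · simp only [h]
    · exact H.same _ _ h (by rw [hl, hl, he])
  · intro u v huv w
    rcases hR u v huv with h | h
    · intro hh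
      simp only [h] at hh
      omega
    · exact H.btw _ _ h _
  · intro u v h
    have := H.lab _ _ h
    rwa [hl, hl] at this

/-! ### contraction of an edge with equal labels -/

section contract

variable (T : RT V) (v0 : V) (hv0 : v0 ≠ T.root)

include hv0 in
theorem par_ne : T.par v0 ≠ v0 := by
  intro h
  have := T.lt v0 hv0
  rw [h] at this
  exact lt_irrefl _ this

open Classical in
/-- the contracted tree -/
noncomputable def contr : RT {u : V // u ≠ v0} where
  root := ⟨T.root, hv0.symm⟩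
  par u := if h : T.par u.1 = v0 then ⟨T.par v0, par_ne T v0 hv0⟩ else ⟨T.par u.1, h⟩
  rk u := T.rk u.1
  lt u hu := by
    have hu' : u.1 ≠ T.root := by
      intro h
      exact hu (Subtype.ext h)
    by_cases h : T.par u.1 = v0
    · simp only [h, dite_true]
      have h1 := T.lt v0 hv0
      have h2 := T.lt u.1 hu'
      rw [h] at h2
      exact lt_trans h1 h2
    · simp only [h, dite_false]
      exact T.lt u.1 hu'

theorem contr_adj {u w : {u : V // u ≠ v0}} (h : (contr T v0 hv0).Adj u w) :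
    T.Adj u.1 w.1 ∨ (T.Adj u.1 v0 ∧ T.Adj v0 w.1 ∧ (u.1 = T.par v0 ∨ w.1 = T.par v0)) := by
  have key : ∀ u w : {u : V // u ≠ v0}, u ≠ (contr T v0 hv0).root → (contr T v0 hv0).par u = w →
      T.Adj u.1 w.1 ∨ (T.Adj u.1 v0 ∧ T.Adj v0 w.1 ∧ w.1 = T.par v0) := by
    intro u w hu hw
    have hu' : u.1 ≠ T.root := by
      intro h
      exact hu (Subtype.ext h)
    by_cases h : T.par u.1 = v0
    · right
      have hw' : w.1 = T.par v0 := by
        rw [← hw]
        simp [contr, h]
      exact ⟨Or.inl ⟨hu', h⟩, Or.inl ⟨hv0, hw'.symm⟩, hw'⟩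
    · left
      have hw' : w.1 = T.par u.1 := by
        rw [← hw]
        simp [contr, h]
      exact Or.inl ⟨hu', hw'.symm⟩
  rcases h with ⟨h1, h2⟩ | ⟨h1, h2⟩
  · rcases key u w h1 h2 with h | ⟨h3, h4, h5⟩
    · exact Or.inl h
    · exact Or.inr ⟨h3, h4, Or.inr h5⟩
  · rcases key w u h1 h2 with h | ⟨h3, h4, h5⟩
    · exact Or.inl h.symm
    · exact Or.inr ⟨h4.symm, h3.symm, Or.inl h5⟩

theorem contr_symFree {lam : V → A} (he : lam v0 = lam (T.par v0)) (hS : SymFree T.Adj lam) :
    SymFree (contr T v0 hv0).Adj (fun u => lam u.1) := by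
  intro x y hxy hp
  refine hS x.1 y.1 hxy ?_
  have step : ∀ p q : {u : V // u ≠ v0} × {u : V // u ≠ v0},
      Mv (contr T v0 hv0).Adj (fun u => lam u.1) p q →
      ReflTransGen (Mv T.Adj lam) (p.1.1, p.2.1) (q.1.1, q.2.1) := by
    rintro ⟨p1, p2⟩ ⟨q1, q2⟩ ⟨h1, h2, h3⟩
    simp only at h1 h2 h3 ⊢
    rcases h3 with ⟨h3, h4⟩ | ⟨h3, h4⟩
    · subst h4
      rcases contr_adj T v0 hv0 h3 with h | ⟨ha, hb, hc⟩
      · exact ReflTransGen.single ⟨h1, h2, Or.inl ⟨h, rfl⟩⟩
      · have hv : lam v0 ≠ lam p2.1 := by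
          rcases hc with hc | hc
          · rw [he, ← hc]; exact h1
          · rw [he, ← hc]; exact h2
        have s1 : Mv T.Adj lam (p1.1, p2.1) (v0, p2.1) := ⟨h1, hv, Or.inl ⟨ha, rfl⟩⟩
        have s2 : Mv T.Adj lam (v0, p2.1) (q1.1, p2.1) := ⟨hv, h2, Or.inl ⟨hb, rfl⟩⟩
        exact (ReflTransGen.single s1).tail s2
    · subst h3
      rcases contr_adj T v0 hv0 h4 with h | ⟨ha, hb, hc⟩
      · exact ReflTransGen.single ⟨h1, h2, Or.inr ⟨rfl, h⟩⟩
      · have hv : lam p1.1 ≠ lam v0 := by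
          rcases hc with hc | hc
          · rw [he, ← hc]; exact h1
          · rw [he, ← hc]; exact h2
        have s1 : Mv T.Adj lam (p1.1, p2.1) (p1.1, v0) := ⟨h1, hv, Or.inr ⟨rfl, ha⟩⟩
        have s2 : Mv T.Adj lam (p1.1, v0) (p1.1, q2.1) := ⟨hv, h2, Or.inr ⟨rfl, hb⟩⟩
        exact (ReflTransGen.single s1).tail s2
  have gen : ∀ p q : {u : V // u ≠ v0} × {u : V // u ≠ v0},
      ReflTransGen (Mv (contr T v0 hv0).Adj (fun u => lam u.1)) p q →
      ReflTransGen (Mv T.Adj lam) (p.1.1, p.2.1) (q.1.1, q.2.1) := by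
    intro p q h
    induction h with
    | refl => exact ReflTransGen.refl
    | tail _ hbc ih => exact ih.trans (step _ _ hbc)
  exact gen _ _ hp

open Classical in
theorem contr_fold {lam : V → A} (he : lam v0 = lam (T.par v0))
    (H : ∃ h, IsFold (contr T v0 hv0).Adj (fun u => lam u.1) h) : ∃ h, IsFold T.Adj lam h := by
  obtain ⟨h₁, H⟩ := H
  let π : V → {u : V // u ≠ v0} := fun u => if h : u = v0 then ⟨T.par v0, par_ne T v0 hv0⟩ else ⟨u, h⟩
  have hπ0 : π v0 = ⟨T.par v0, par_ne T v0 hv0⟩ := by simp [π]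
  have hπ1 : ∀ u, (h : u ≠ v0) → π u = ⟨u, h⟩ := by
    intro u h
    simp [π, h]
  refine ⟨_, H.comap π ?_ ?_⟩
  · intro v
    by_cases h : v = v0
    · subst h
      rw [hπ0]
      exact he.symm
    · rw [hπ1 v h]
  · have key : ∀ u v, u ≠ T.root → T.par u = v → π u = π v ∨ (contr T v0 hv0).Adj (π u) (π v) := by
      intro u v hu hv
      by_cases h : u = v0
      · subst h
        left
        rw [hπ0, ← hv, hπ1 _ (par_ne T u hv0)]
      · right
        refine Or.inl ⟨?_, ?_⟩
        · rw [hπ1 u h]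
          intro hh
          exact hu (congrArg Subtype.val hh)
        · by_cases h' : v = v0
          · subst h'
            rw [hπ0, hπ1 u h]
            simp [contr, hv]
          · rw [hπ1 v h', hπ1 u h]
            have : T.par u ≠ v0 := by rw [hv]; exact h'
            simp [contr, hv, h']
    intro u v huv
    rcases huv with ⟨h1, h2⟩ | ⟨h1, h2⟩
    · exact key u v h1 h2
    · rcases key v u h1 h2 with h | h
      · exact Or.inl h.symm
      · exact Or.inr h.symm

end contract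

/-! ### the derived tree -/

/-- a vertex seeing three labels gives a symmetric component -/
theorem three_labels {R : V → V → Prop} (hsym : ∀ u v, R u v → R v u) {lam : V → A}
    (hprop : ∀ u v, R u v → lam u ≠ lam v) (hS : SymFree R lam) {x b c d : V}
    (hb : R x b) (hc : R x c) (hd : R x d) : lam b = lam c ∨ lam b = lam d ∨ lam c = lam d := by
  by_contra hne
  push Not at hne
  obtain ⟨hbc, hbd, hcd⟩ := hne
  have xb := hprop _ _ hb
  have xc := hprop _ _ hc
  have xd := hprop _ _ hd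
  refine hS x c xc ?_
  have s1 : Mv R lam (x, c) (d, c) := ⟨xc, hcd.symm, Or.inl ⟨hd, rfl⟩⟩
  have s2 : Mv R lam (d, c) (d, x) := ⟨hcd.symm, xd.symm, Or.inr ⟨rfl, hsym _ _ hc⟩⟩
  have s3 : Mv R lam (d, x) (d, b) := ⟨xd.symm, hbd.symm, Or.inr ⟨rfl, hb⟩⟩
  have s4 : Mv R lam (d, b) (x, b) := ⟨hbd.symm, xb, Or.inl ⟨hsym _ _ hd, rfl⟩⟩
  have s5 : Mv R lam (x, b) (c, b) := ⟨xb, hbc.symm, Or.inl ⟨hc, rfl⟩⟩
  have s6 : Mv R lam (c, b) (c, x) := ⟨hbc.symm, xc.symm, Or.inr ⟨rfl, hsym _ _ hb⟩⟩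
  exact (((((ReflTransGen.single s1).tail s2).tail s3).tail s4).tail s5).tail s6

section derive

variable (T : RT V) (c0 : {v : V // v ≠ T.root}) (hc0 : T.par c0.1 = T.root) (lam : V → A)

open Classical in
/-- the neighbour of `x` along its base edge -/
noncomputable def nb0 (x : V) : V := if x = T.root then c0.1 else T.par x

open Classical in
/-- the base edge of `x` -/
noncomputable def be (x : V) : {v : V // v ≠ T.root} := if h : x = T.root then c0 else ⟨x, h⟩

/-- some child of `x` has a label different from the one along the base edge -/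
def DD (x : V) : Prop := ∃ v : {v : V // v ≠ T.root}, T.par v.1 = x ∧ lam v.1 ≠ lam (nb0 T c0 x)

open Classical in
/-- a chosen such child -/
noncomputable def dd (x : V) : {v : V // v ≠ T.root} :=
  if h : DD T c0 lam x then h.choose else be T c0 x

theorem dd_par {x : V} (h : DD T c0 lam x) : T.par (dd T c0 lam x).1 = x := by
  rw [dd, dif_pos h]
  exact h.choose_spec.1

theorem dd_lam {x : V} (h : DD T c0 lam x) : lam (dd T c0 lam x).1 ≠ lam (nb0 T c0 x) := by
  rw [dd, dif_pos h]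
  exact h.choose_spec.2

open Classical in
/-- parent in the derived tree -/
noncomputable def dpar (v : {v : V // v ≠ T.root}) : {v : V // v ≠ T.root} :=
  if lam v.1 = lam (nb0 T c0 (T.par v.1)) then be T c0 (T.par v.1)
  else if v = dd T c0 lam (T.par v.1) then be T c0 (T.par v.1) else dd T c0 lam (T.par v.1)

open Classical in
/-- rank in the derived tree -/
noncomputable def drk (v : {v : V // v ≠ T.root}) : ℕ :=
  3 * T.rk (T.par v.1) + (if v = c0 then 0 else if v = dd T c0 lam (T.par v.1) then 1 else 2)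

include hc0 in
theorem drk_be {v : {v : V // v ≠ T.root}} (hv : v ≠ c0) :
    drk T c0 lam (be T c0 (T.par v.1)) < drk T c0 lam v := by
  by_cases hx : T.par v.1 = T.root
  · have : be T c0 (T.par v.1) = c0 := by rw [be, dif_pos hx]
    have e1 : drk T c0 lam c0 = 3 * T.rk T.root := by simp [drk, hc0]
    have e2 : 3 * T.rk T.root + 1 ≤ drk T c0 lam v := by
      unfold drk
      rw [hx, if_neg hv]
      split_ifs <;> omega
    rw [this, e1]
    omega
  · have h1 : be T c0 (T.par v.1) = ⟨T.par v.1, hx⟩ := by rw [be, dif_neg hx]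
    have h2 := T.lt _ hx
    rw [h1, drk, drk]
    simp only
    split_ifs <;> omega

include hc0 in
theorem dpar_lt (v : {v : V // v ≠ T.root}) (hv : v ≠ c0) :
    drk T c0 lam (dpar T c0 lam v) < drk T c0 lam v := by
  unfold dpar
  split_ifs with h1 h2
  · exact drk_be T c0 hc0 lam hv
  · exact drk_be T c0 hc0 lam hv
  · have hD : DD T c0 lam (T.par v.1) := ⟨v, rfl, h1⟩
    have h3 := dd_par T c0 lam hD
    rw [drk, drk, h3]
    split_ifs <;> first | omega | simp_all

/-- the derived tree -/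
noncomputable def der : RT {v : V // v ≠ T.root} where
  root := c0
  par := dpar T c0 lam
  rk := drk T c0 lam
  lt := dpar_lt T c0 hc0 lam

/-- `x` is an end of the edge `e` -/
def InE (x : V) (e : {v : V // v ≠ T.root}) : Prop := x = e.1 ∨ x = T.par e.1

/-- label of an edge -/
def edl (e : {v : V // v ≠ T.root}) : Sym2 A := s(lam e.1, lam (T.par e.1))

include hc0 in
theorem inE_be (x : V) : InE T x (be T c0 x) := by
  by_cases hx : x = T.root
  · right
    have : be T c0 x = c0 := by rw [be, dif_pos hx]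
    rw [this, hc0, hx]
  · left
    rw [be, dif_neg hx]

include hc0 in
theorem edl_be (x : V) : edl T lam (be T c0 x) = s(lam x, lam (nb0 T c0 x)) := by
  by_cases hx : x = T.root
  · have h1 : be T c0 x = c0 := by rw [be, dif_pos hx]
    have h2 : nb0 T c0 x = c0.1 := by rw [nb0, if_pos hx]
    rw [h1, h2, edl, hc0, hx, Sym2.eq_swap]
  · have h1 : be T c0 x = ⟨x, hx⟩ := by rw [be, dif_neg hx]
    have h2 : nb0 T c0 x = T.par x := by rw [nb0, if_neg hx]
    rw [h1, h2, edl]

include hc0 in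
theorem adj_nb0 (x : V) : T.Adj x (nb0 T c0 x) := by
  by_cases hx : x = T.root
  · have h2 : nb0 T c0 x = c0.1 := by rw [nb0, if_pos hx]
    rw [h2]
    exact Or.inr ⟨c0.2, by rw [hc0, hx]⟩
  · have h2 : nb0 T c0 x = T.par x := by rw [nb0, if_neg hx]
    rw [h2]
    exact Or.inl ⟨hx, rfl⟩

include hc0 in
theorem dpar_common (v : {v : V // v ≠ T.root}) : InE T (T.par v.1) (dpar T c0 lam v) := by
  unfold dpar
  split_ifs with h1 h2
  · exact inE_be T c0 hc0 _
  · exact inE_be T c0 hc0 _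
  · have hD : DD T c0 lam (T.par v.1) := ⟨v, rfl, h1⟩
    right
    rw [dd_par T c0 lam hD]

theorem der_common {e f : {v : V // v ≠ T.root}} (h : (der T c0 hc0 lam).Adj e f) :
    ∃ x, InE T x e ∧ InE T x f := by
  rcases h with ⟨h1, h2⟩ | ⟨h1, h2⟩
  · refine ⟨T.par e.1, Or.inr rfl, ?_⟩
    rw [← h2]
    exact dpar_common T c0 hc0 lam e
  · refine ⟨T.par f.1, ?_, Or.inr rfl⟩
    rw [← h2]
    exact dpar_common T c0 hc0 lam f

theorem inE_adj {x x' : V} {e : {v : V // v ≠ T.root}} (h : InE T x e) (h' : InE T x' e) (hne : x ≠ x') :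
    T.Adj x x' ∧ edl T lam e = s(lam x, lam x') := by
  rcases h with h | h <;> rcases h' with h' | h'
  · exact absurd (h.trans h'.symm) hne
  · subst h h'
    exact ⟨Or.inl ⟨e.2, rfl⟩, rfl⟩
  · subst h h'
    exact ⟨Or.inr ⟨e.2, rfl⟩, Sym2.eq_swap⟩
  · exact absurd (h.trans h'.symm) hne

theorem box_conn {e f : {v : V // v ≠ T.root}} (hef : edl T lam e ≠ edl T lam f) {x x' y y' : V}
    (hx : InE T x e) (hx' : InE T x' e) (hy : InE T y f) (hy' : InE T y' f) (h : lam x ≠ lam y)
    (h' : lam x' ≠ lam y') : ReflTransGen (Mv T.Adj lam) (x, y) (x', y') := by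
  by_cases hxx : x = x'
  · by_cases hyy : y = y'
    · subst hxx hyy
      exact ReflTransGen.refl
    · subst hxx
      exact ReflTransGen.single ⟨h, h', Or.inr ⟨rfl, (inE_adj T lam hy hy' hyy).1⟩⟩
  · by_cases hyy : y = y'
    · subst hyy
      exact ReflTransGen.single ⟨h, h', Or.inl ⟨(inE_adj T lam hx hx' hxx).1, rfl⟩⟩
    · obtain ⟨ax, ex⟩ := inE_adj T lam hx hx' hxx
      obtain ⟨ay, ey⟩ := inE_adj T lam hy hy' hyy
      by_cases h1 : lam x' = lam y
      · by_cases h2 : lam x = lam y'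
        · exact absurd (by rw [ex, ey, h1, h2, Sym2.eq_swap]) hef
        · have s1 : Mv T.Adj lam (x, y) (x, y') := ⟨h, h2, Or.inr ⟨rfl, ay⟩⟩
          have s2 : Mv T.Adj lam (x, y') (x', y') := ⟨h2, h', Or.inl ⟨ax, rfl⟩⟩
          exact (ReflTransGen.single s1).tail s2
      · have s1 : Mv T.Adj lam (x, y) (x', y) := ⟨h, h1, Or.inl ⟨ax, rfl⟩⟩
        have s2 : Mv T.Adj lam (x', y) (x', y') := ⟨h1, h', Or.inr ⟨rfl, ay⟩⟩
        exact (ReflTransGen.single s1).tail s2

theorem exists_end (hprop : ∀ u v, T.Adj u v → lam u ≠ lam v) (f : {v : V // v ≠ T.root}) (a : A) :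
    ∃ y, InE T y f ∧ a ≠ lam y := by
  by_cases h : a = lam f.1
  · refine ⟨T.par f.1, Or.inr rfl, ?_⟩
    rw [h]
    exact hprop _ _ (Or.inl ⟨f.2, rfl⟩)
  · exact ⟨f.1, Or.inl rfl, h⟩

theorem der_path (hprop : ∀ u v, T.Adj u v → lam u ≠ lam v)
    (p q : {v : V // v ≠ T.root} × {v : V // v ≠ T.root})
    (hpq : ReflTransGen (Mv (der T c0 hc0 lam).Adj (edl T lam)) p q)
    (hp : edl T lam p.1 ≠ edl T lam p.2) (x y : V) (hx : InE T x p.1) (hy : InE T y p.2)
    (hxy : lam x ≠ lam y) (x' y' : V) (hx' : InE T x' q.1) (hy' : InE T y' q.2)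
    (hxy' : lam x' ≠ lam y') : ReflTransGen (Mv T.Adj lam) (x, y) (x', y') := by
  induction hpq generalizing x' y' with
  | refl => exact box_conn T lam hp hx hx' hy hy' hxy hxy'
  | @tail b c hab hbc ih =>
    obtain ⟨h1, h2, h3⟩ := hbc
    rcases h3 with ⟨h3, h4⟩ | ⟨h3, h4⟩
    · obtain ⟨z, hz1, hz2⟩ := der_common T c0 hc0 lam h3
      obtain ⟨w, hw1, hw2⟩ := exists_end T lam hprop b.2 (lam z)
      refine (ih z w hz1 hw1 hw2).trans (box_conn T lam h2 hz2 hx' ?_ hy' hw2 hxy')
      rw [← h4]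
      exact hw1
    · obtain ⟨z, hz1, hz2⟩ := der_common T c0 hc0 lam h4
      obtain ⟨w, hw1, hw2⟩ := exists_end T lam hprop b.1 (lam z)
      refine (ih w z hw1 hz1 hw2.symm).trans (box_conn T lam h2 ?_ hx' hz2 hy' hw2.symm hxy')
      rw [← h3]
      exact hw1

theorem der_symFree (hprop : ∀ u v, T.Adj u v → lam u ≠ lam v) (hS : SymFree T.Adj lam) :
    SymFree (der T c0 hc0 lam).Adj (edl T lam) := by
  intro e f hef hp
  obtain ⟨y, hy, hxy⟩ := exists_end T lam hprop f (lam e.1)
  exact hS e.1 y hxy (der_path T c0 hc0 lam hprop _ _ hp hef e.1 y (Or.inl rfl) hy hxy y e.1 hy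
    (Or.inl rfl) hxy.symm)

end derive

/-! ### folding the tree from a fold of the derived tree -/

section unfold

variable (T : RT V) (c0 : {v : V // v ≠ T.root}) (hc0 : T.par c0.1 = T.root) (lam : V → A)
  (hprop : ∀ u v, T.Adj u v → lam u ≠ lam v) (hS : SymFree T.Adj lam)
  (h' : {v : V // v ≠ T.root} → ℤ) (H : IsFold (der T c0 hc0 lam).Adj (edl T lam) h')

theorem nb0_root {x : V} (hx : x = T.root) : nb0 T c0 x = c0.1 := by rw [nb0, if_pos hx]

theorem be_root {x : V} (hx : x = T.root) : be T c0 x = c0 := by rw [be, dif_pos hx]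

theorem be_ne {x : V} (hx : x ≠ T.root) : be T c0 x = ⟨x, hx⟩ := by rw [be, dif_neg hx]

include hc0 in
theorem ne_c0 {v : {v : V // v ≠ T.root}} {x : V} (hx : T.par v.1 = x)
    (h : lam v.1 ≠ lam (nb0 T c0 x)) : v ≠ c0 := by
  intro he
  subst he
  apply h
  rw [nb0_root T v (by rw [← hx, hc0])]

include H in
theorem f1 {v : {v : V // v ≠ T.root}} (h : lam v.1 = lam (nb0 T c0 (T.par v.1))) :
    h' v = h' (be T c0 (T.par v.1)) := by
  by_cases hv : v = c0
  · subst hv
    rw [be_root T v hc0]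
  · refine H.same _ _ (Or.inl ⟨hv, ?_⟩) ?_
    · show dpar T c0 lam v = _
      rw [dpar, if_pos h]
    · rw [edl_be T c0 hc0, edl, h, Sym2.eq_swap]

include H hprop hS in
theorem f2 {v : {v : V // v ≠ T.root}} (h : lam v.1 ≠ lam (nb0 T c0 (T.par v.1))) :
    DD T c0 lam (T.par v.1) ∧ h' v = h' (dd T c0 lam (T.par v.1)) := by
  have hD : DD T c0 lam (T.par v.1) := ⟨v, rfl, h⟩
  refine ⟨hD, ?_⟩
  by_cases hv : v = dd T c0 lam (T.par v.1)
  · rw [← hv]
  · refine H.same _ _ (Or.inl ⟨ne_c0 T c0 hc0 lam rfl h, ?_⟩) ?_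
    · show dpar T c0 lam v = _
      rw [dpar, if_neg h, if_neg hv]
    · have h1 := dd_par T c0 lam hD
      have h2 := dd_lam T c0 lam hD
      have h3 : T.Adj (T.par v.1) v.1 := Or.inr ⟨v.2, rfl⟩
      have h4 : T.Adj (T.par v.1) (dd T c0 lam (T.par v.1)).1 :=
        Or.inr ⟨(dd T c0 lam (T.par v.1)).2, h1⟩
      have h5 := adj_nb0 T c0 hc0 (T.par v.1)
      have h6 : lam v.1 = lam (dd T c0 lam (T.par v.1)).1 := by
        rcases three_labels (fun u v h => RT.Adj.symm h) hprop hS h3 h4 h5 with h7 | h7 | h7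
        · exact h7
        · exact absurd h7 h
        · exact absurd h7 h2
      rw [edl, edl, h1, h6]

include H in
theorem f3 {x : V} (hD : DD T c0 lam x) : h' (dd T c0 lam x) ≠ h' (be T c0 x) ∧
    edl T lam (dd T c0 lam x) ≠ edl T lam (be T c0 x) ∧
    ∀ g, ¬ (h' (dd T c0 lam x) < h' g ∧ h' g < h' (be T c0 x)) ∧
      ¬ (h' (be T c0 x) < h' g ∧ h' g < h' (dd T c0 lam x)) := by
  have h1 := dd_par T c0 lam hD
  have h2 := dd_lam T c0 lam hD
  have h3 : edl T lam (dd T c0 lam x) ≠ edl T lam (be T c0 x) := by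
    rw [edl_be T c0 hc0, edl, h1]
    intro h
    rw [Sym2.eq_iff] at h
    rcases h with ⟨h4, h5⟩ | ⟨h4, h5⟩
    · exact h2 (h4.trans h5)
    · exact h2 h4
  have h4 : (der T c0 hc0 lam).Adj (dd T c0 lam x) (be T c0 x) := by
    refine Or.inl ⟨ne_c0 T c0 hc0 lam h1 h2, ?_⟩
    show dpar T c0 lam _ = _
    rw [dpar, h1, if_neg h2, if_pos rfl]
  refine ⟨fun h => h3 (H.lab _ _ h), h3, fun g => ⟨H.btw _ _ h4 g, H.btw _ _ h4.symm g⟩⟩

/-- interface between the heights `i` and `j` with label `c` -/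
def Itf (i j : ℤ) (c : A) : Prop := ∃ x, DD T c0 lam x ∧ lam x = c ∧
  ((h' (be T c0 x) = i ∧ h' (dd T c0 lam x) = j) ∨ (h' (be T c0 x) = j ∧ h' (dd T c0 lam x) = i))

theorem Itf.symm {i j : ℤ} {c : A} (h : Itf T c0 lam h' i j c) : Itf T c0 lam h' j i c := by
  obtain ⟨x, h1, h2, h3⟩ := h
  exact ⟨x, h1, h2, h3.symm⟩

theorem mem_be (hc0 : T.par c0.1 = T.root) (x : V) : lam x ∈ edl T lam (be T c0 x) := by
  rw [edl_be T c0 hc0]
  exact Sym2.mem_mk_left _ _

theorem mem_dd {x : V} (hD : DD T c0 lam x) : lam x ∈ edl T lam (dd T c0 lam x) := by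
  rw [edl, dd_par T c0 lam hD]
  exact Sym2.mem_mk_right _ _

include H in
theorem itf_data {i j : ℤ} {c : A} (h : Itf T c0 lam h' i j c) :
    ∃ e f, h' e = i ∧ h' f = j ∧ c ∈ edl T lam e ∧ c ∈ edl T lam f ∧ edl T lam e ≠ edl T lam f ∧
      i ≠ j ∧ ∀ g, ¬ (i < h' g ∧ h' g < j) ∧ ¬ (j < h' g ∧ h' g < i) := by
  obtain ⟨x, h1, h2, h3⟩ := h
  obtain ⟨h4, h5, h6⟩ := f3 T c0 hc0 lam h' H h1
  rcases h3 with ⟨h7, h8⟩ | ⟨h7, h8⟩
  · refine ⟨be T c0 x, dd T c0 lam x, h7, h8, h2 ▸ mem_be T c0 lam hc0 x, h2 ▸ mem_dd T c0 lam h1,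
      h5.symm, ?_, ?_⟩
    · rw [← h7, ← h8]; exact h4.symm
    · intro g
      rw [← h7, ← h8]
      exact ⟨(h6 g).2, (h6 g).1⟩
  · refine ⟨dd T c0 lam x, be T c0 x, h8, h7, h2 ▸ mem_dd T c0 lam h1, h2 ▸ mem_be T c0 lam hc0 x,
      h5, ?_, ?_⟩
    · rw [← h7, ← h8]; exact h4
    · intro g
      rw [← h7, ← h8]
      exact ⟨(h6 g).1, (h6 g).2⟩

include H in
theorem itf_unique {i j : ℤ} {c c' : A} (h : Itf T c0 lam h' i j c) (h2 : Itf T c0 lam h' i j c') :
    c = c' := by
  by_contra hne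
  obtain ⟨e, f, he, hf, hce, hcf, hef, -, -⟩ := itf_data T c0 hc0 lam h' H h
  obtain ⟨e', f', he', hf', hce', hcf', -, -, -⟩ := itf_data T c0 hc0 lam h' H h2
  have h3 := H.lab e e' (he.trans he'.symm)
  have h4 := H.lab f f' (hf.trans hf'.symm)
  rw [← h3] at hce'
  rw [← h4] at hcf'
  have h5 := (Sym2.mem_and_mem_iff hne).1 ⟨hce, hce'⟩
  have h6 := (Sym2.mem_and_mem_iff hne).1 ⟨hcf, hcf'⟩
  exact hef (h5.trans h6.symm)

open Classical in
/-- a reference label for every height -/
noncomputable def gg (i : ℤ) : A := if h : ∃ e, h' e = i then lam h.choose.1 else lam T.root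

include H in
theorem gg_mem (e : {v : V // v ≠ T.root}) : gg T lam h' (h' e) ∈ edl T lam e := by
  have hex : ∃ e', h' e' = h' e := ⟨e, rfl⟩
  have h1 := H.lab _ _ hex.choose_spec
  rw [gg, dif_pos hex, ← h1, edl]
  exact Sym2.mem_mk_left _ _

open Classical in
/-- the second height of a vertex on an interface -/
noncomputable def jj (x : V) : ℤ := if DD T c0 lam x then h' (dd T c0 lam x)
  else if h : ∃ j, Itf T c0 lam h' (h' (be T c0 x)) j (lam x) then h.choose else 0

open Classical in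
/-- the fold -/
noncomputable def pos (x : V) : ℤ :=
  if ∃ j, Itf T c0 lam h' (h' (be T c0 x)) j (lam x) then 2 * (h' (be T c0 x) + jj T c0 lam h' x)
  else if lam x = gg T lam h' (h' (be T c0 x)) then 4 * h' (be T c0 x)
  else 4 * h' (be T c0 x) + 1

/-- position of a vertex of an edge of height `i` -/
def Near (i : ℤ) (u : V) : Prop :=
  (∃ j, Itf T c0 lam h' i j (lam u) ∧ pos T c0 lam h' u = 2 * (i + j)) ∨
  ((∀ j, ¬ Itf T c0 lam h' i j (lam u)) ∧
    ((lam u = gg T lam h' i ∧ pos T c0 lam h' u = 4 * i) ∨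
      (lam u ≠ gg T lam h' i ∧ pos T c0 lam h' u = 4 * i + 1)))

theorem near_be (x : V) : Near T c0 lam h' (h' (be T c0 x)) x := by
  by_cases h : ∃ j, Itf T c0 lam h' (h' (be T c0 x)) j (lam x)
  · left
    refine ⟨jj T c0 lam h' x, ?_, ?_⟩
    · by_cases hD : DD T c0 lam x
      · rw [jj, if_pos hD]
        exact ⟨x, hD, rfl, Or.inl ⟨rfl, rfl⟩⟩
      · rw [jj, if_neg hD, dif_pos h]
        exact h.choose_spec
    · rw [pos, if_pos h]
  · right
    refine ⟨fun j hj => h ⟨j, hj⟩, ?_⟩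
    by_cases hg : lam x = gg T lam h' (h' (be T c0 x))
    · left
      refine ⟨hg, ?_⟩
      rw [pos, if_neg h, if_pos hg]
    · right
      refine ⟨hg, ?_⟩
      rw [pos, if_neg h, if_neg hg]

theorem near_dd {x : V} (hD : DD T c0 lam x) : Near T c0 lam h' (h' (dd T c0 lam x)) x := by
  have h1 : Itf T c0 lam h' (h' (be T c0 x)) (h' (dd T c0 lam x)) (lam x) :=
    ⟨x, hD, rfl, Or.inl ⟨rfl, rfl⟩⟩
  left
  refine ⟨h' (be T c0 x), h1.symm, ?_⟩
  rw [pos, if_pos ⟨_, h1⟩, jj, if_pos hD]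
  ring

include H hprop hS in
theorem near {e : {v : V // v ≠ T.root}} {u : V} (h : InE T u e) : Near T c0 lam h' (h' e) u := by
  rcases h with h | h
  · have h1 : be T c0 u = e := by
      subst h
      rw [be_ne T c0 e.2]
    rw [← h1]
    exact near_be T c0 lam h' u
  · subst h
    by_cases hl : lam e.1 = lam (nb0 T c0 (T.par e.1))
    · rw [f1 T c0 hc0 lam h' H hl]
      exact near_be T c0 lam h' _
    · obtain ⟨hD, h2⟩ := f2 T c0 hc0 lam hprop hS h' H hl
      rw [h2]
      exact near_dd T c0 lam h' hD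

theorem sym2_eq {s : Sym2 A} {a b g : A} (ha : a ∈ s) (hb : b ∈ s) (hg : g ∈ s) (hag : a ≠ g)
    (hbg : b ≠ g) : a = b := by
  have h1 := (Sym2.mem_and_mem_iff hag).1 ⟨ha, hg⟩
  rw [h1, Sym2.mem_iff] at hb
  rcases hb with h | h
  · exact h.symm
  · exact absurd h hbg

include H in
theorem pos_lab (u w : V) (h : pos T c0 lam h' u = pos T c0 lam h' w) : lam u = lam w := by
  have nu := near_be T c0 lam h' u
  have nw := near_be T c0 lam h' w
  rcases nu with ⟨j, hj, hpu⟩ | ⟨hnu, hpu⟩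
  · obtain ⟨e1, e2, h1, h2, -, -, -, h3, h4⟩ := itf_data T c0 hc0 lam h' H hj
    rcases nw with ⟨l, hl, hpw⟩ | ⟨hnw, hpw⟩
    · obtain ⟨f1, f2, k1, k2, -, -, -, k3, k4⟩ := itf_data T c0 hc0 lam h' H hl
      have a1 := h4 f1
      have a2 := h4 f2
      have a3 := k4 e1
      have a4 := k4 e2
      have : (h' (be T c0 u) = h' (be T c0 w) ∧ j = l) ∨ (h' (be T c0 u) = l ∧ j = h' (be T c0 w)) := by
        omega
      rcases this with ⟨b1, b2⟩ | ⟨b1, b2⟩
      · rw [b1, b2] at hj
        exact itf_unique T c0 hc0 lam h' H hj hl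
      · rw [b1, b2] at hj
        exact itf_unique T c0 hc0 lam h' H hj hl.symm
    · have a1 := h4 (be T c0 w)
      exfalso
      rcases hpw with ⟨-, hpw⟩ | ⟨-, hpw⟩ <;> omega
  · rcases nw with ⟨l, hl, hpw⟩ | ⟨hnw, hpw⟩
    · obtain ⟨f1, f2, k1, k2, -, -, -, k3, k4⟩ := itf_data T c0 hc0 lam h' H hl
      have a1 := k4 (be T c0 u)
      exfalso
      rcases hpu with ⟨-, hpu⟩ | ⟨-, hpu⟩ <;> omega
    · have hk : h' (be T c0 u) = h' (be T c0 w) := by
        rcases hpu with ⟨-, hpu⟩ | ⟨-, hpu⟩ <;> rcases hpw with ⟨-, hpw⟩ | ⟨-, hpw⟩ <;> omega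
      rcases hpu with ⟨h1, hpu⟩ | ⟨h1, hpu⟩ <;> rcases hpw with ⟨h2, hpw⟩ | ⟨h2, hpw⟩
      · rw [h1, h2, hk]
      · exfalso; omega
      · exfalso; omega
      · have m1 := mem_be T c0 lam hc0 u
        have m2 := mem_be T c0 lam hc0 w
        have m3 := gg_mem T c0 hc0 lam h' H (be T c0 u)
        rw [← H.lab _ _ hk] at m2
        refine sym2_eq m1 m2 m3 h1 ?_
        rw [hk]
        exact h2

include H hprop hS in
theorem pos_btw {e : {v : V // v ≠ T.root}} {u v : V} (hu : InE T u e) (hv : InE T v e)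
    (huv : u ≠ v) (w : V) :
    ¬ (pos T c0 lam h' u < pos T c0 lam h' w ∧ pos T c0 lam h' w < pos T c0 lam h' v) := by
  rintro ⟨hl1, hl2⟩
  obtain ⟨had, hed⟩ := inE_adj T lam hu hv huv
  have hne := hprop _ _ had
  have nu := near T c0 hc0 lam hprop hS h' H hu
  have nv := near T c0 hc0 lam hprop hS h' H hv
  have nw := near_be T c0 lam h' w
  have mw := mem_be T c0 lam hc0 w
  have hwe : h' (be T c0 w) = h' e → lam w = lam u ∨ lam w = lam v := by
    intro h
    rw [H.lab _ _ h, hed, Sym2.mem_iff] at mw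
    exact mw
  rcases nu with ⟨j, hj, hpu⟩ | ⟨hnu, hpu⟩ <;> rcases nv with ⟨j', hj', hpv⟩ | ⟨hnv, hpv⟩
  · obtain ⟨e1, e2, h1, h2, -, -, -, h3, h4⟩ := itf_data T c0 hc0 lam h' H hj
    obtain ⟨e1', e2', h1', h2', -, -, -, h3', h4'⟩ := itf_data T c0 hc0 lam h' H hj'
    have hjj : j ≠ j' := by
      intro h
      subst h
      exact hne (itf_unique T c0 hc0 lam h' H hj hj')
    have b1 := h4 e2'
    have b2 := h4' e2
    rcases nw with ⟨l, hl, hpw⟩ | ⟨hnw, hpw⟩
    · obtain ⟨f1, f2, k1, k2, -, -, -, k3, k4⟩ := itf_data T c0 hc0 lam h' H hl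
      have a1 := h4 f1
      have a2 := h4 f2
      have a3 := h4' f1
      have a4 := h4' f2
      have a5 := k4 e1
      have a6 := k4 e2
      have a7 := k4 e2'
      omega
    · have a1 := h4 (be T c0 w)
      have a2 := h4' (be T c0 w)
      have hk : h' (be T c0 w) = h' e := by
        rcases hpw with ⟨-, hpw⟩ | ⟨-, hpw⟩ <;> omega
      rcases hwe hk with h5 | h5
      · exact hnw j (by rw [hk, h5]; exact hj)
      · exact hnw j' (by rw [hk, h5]; exact hj')
  · obtain ⟨e1, e2, h1, h2, -, -, -, h3, h4⟩ := itf_data T c0 hc0 lam h' H hj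
    rcases nw with ⟨l, hl, hpw⟩ | ⟨hnw, hpw⟩
    · obtain ⟨f1, f2, k1, k2, -, -, -, k3, k4⟩ := itf_data T c0 hc0 lam h' H hl
      have a1 := h4 f1
      have a2 := h4 f2
      have a5 := k4 e1
      have a6 := k4 e2
      rcases hpv with ⟨-, hpv⟩ | ⟨-, hpv⟩ <;> omega
    · have a1 := h4 (be T c0 w)
      have hk : h' (be T c0 w) = h' e := by
        rcases hpw with ⟨-, hpw⟩ | ⟨-, hpw⟩ <;> rcases hpv with ⟨-, hpv⟩ | ⟨-, hpv⟩ <;> omega
      rcases hwe hk with h5 | h5
      · exact hnw j (by rw [hk, h5]; exact hj)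
      · rw [hk, h5] at hpw
        rcases hpw with ⟨c1, hpw⟩ | ⟨c1, hpw⟩ <;> rcases hpv with ⟨c2, hpv⟩ | ⟨c2, hpv⟩
        · omega
        · exact c2 c1
        · exact c1 c2
        · omega
  · obtain ⟨e1, e2, h1, h2, -, -, -, h3, h4⟩ := itf_data T c0 hc0 lam h' H hj'
    rcases nw with ⟨l, hl, hpw⟩ | ⟨hnw, hpw⟩
    · obtain ⟨f1, f2, k1, k2, -, -, -, k3, k4⟩ := itf_data T c0 hc0 lam h' H hl
      have a1 := h4 f1
      have a2 := h4 f2
      have a5 := k4 e1
      have a6 := k4 e2
      rcases hpu with ⟨-, hpu⟩ | ⟨-, hpu⟩ <;> omega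
    · have a1 := h4 (be T c0 w)
      have hk : h' (be T c0 w) = h' e := by
        rcases hpw with ⟨-, hpw⟩ | ⟨-, hpw⟩ <;> rcases hpu with ⟨-, hpu⟩ | ⟨-, hpu⟩ <;> omega
      rcases hwe hk with h5 | h5
      · rw [hk, h5] at hpw
        rcases hpw with ⟨c1, hpw⟩ | ⟨c1, hpw⟩ <;> rcases hpu with ⟨c2, hpu⟩ | ⟨c2, hpu⟩
        · omega
        · exact c2 c1
        · exact c1 c2
        · omega
      · exact hnw j' (by rw [hk, h5]; exact hj')
  · rcases hpu with ⟨-, hpu⟩ | ⟨-, hpu⟩ <;> rcases hpv with ⟨-, hpv⟩ | ⟨-, hpv⟩ <;> omega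

include H hprop hS in
theorem fold_of_der : IsFold T.Adj lam (pos T c0 lam h') := by
  refine ⟨?_, ?_, ?_⟩
  · intro u v huv he
    exact absurd he (hprop u v huv)
  · intro u v huv w
    have hne : u ≠ v := fun h => hprop u v huv (by rw [h])
    rcases huv with ⟨h1, h2⟩ | ⟨h1, h2⟩
    · exact pos_btw T c0 hc0 lam hprop hS h' H (e := ⟨u, h1⟩) (Or.inl rfl) (Or.inr h2.symm) hne w
    · exact pos_btw T c0 hc0 lam hprop hS h' H (e := ⟨v, h1⟩) (Or.inr h2.symm) (Or.inl rfl) hne w
  · exact pos_lab T c0 hc0 lam h' H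

end unfold

/-- the theorem for rooted trees -/
theorem fold_rt (n : ℕ) : ∀ (V : Type) [Finite V] (A : Type) (T : RT V) (lam : V → A),
    Nat.card V = n → SymFree T.Adj lam → ∃ h, IsFold T.Adj lam h := by
  induction n with
  | zero =>
    intro V _ A T lam hV hS
    have := Finite.card_eq_zero_iff.1 hV
    exact (IsEmpty.false T.root).elim
  | succ n ih =>
    intro V _ A T lam hV hS
    by_cases hc : ∃ v, v ≠ T.root ∧ lam v = lam (T.par v)
    · obtain ⟨v0, hv0, he⟩ := hc
      refine contr_fold T v0 hv0 he (ih _ _ _ _ ?_ (contr_symFree T v0 hv0 he hS))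
      have h1 := Set.ncard_add_ncard_compl ({v0} : Set V)
      rw [Set.ncard_singleton, hV] at h1
      have h2 : Nat.card {u : V // u ≠ v0} = ({v0}ᶜ : Set V).ncard := rfl
      omega
    · push Not at hc
      have hprop : ∀ u v, T.Adj u v → lam u ≠ lam v := by
        rintro u v (⟨h1, h2⟩ | ⟨h1, h2⟩)
        · rw [← h2]; exact hc u h1
        · rw [← h2]; exact (hc v h1).symm
      by_cases hex : ∃ v, v ≠ T.root
      · obtain ⟨c, hc1, hc2⟩ : ∃ c, c ≠ T.root ∧ T.par c = T.root := by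
          by_contra hno
          push Not at hno
          have key : ∀ m, ∀ v, v ≠ T.root → T.rk v = m → False := by
            intro m
            induction m using Nat.strong_induction_on with
            | _ m ihm =>
              intro v hv hm
              exact ihm _ (hm ▸ T.lt v hv) (T.par v) (hno v hv) rfl
          obtain ⟨v, hv⟩ := hex
          exact key _ v hv rfl
        obtain ⟨h', H⟩ := ih {v : V // v ≠ T.root} (Sym2 A) (der T ⟨c, hc1⟩ hc2 lam) (edl T lam) (by
          have h1 := Set.ncard_add_ncard_compl ({T.root} : Set V)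
          rw [Set.ncard_singleton, hV] at h1
          have h2 : Nat.card {u : V // u ≠ T.root} = ({T.root}ᶜ : Set V).ncard := rfl
          omega) (der_symFree T ⟨c, hc1⟩ hc2 lam hprop hS)
        exact ⟨_, fold_of_der T ⟨c, hc1⟩ hc2 lam hprop hS h' H⟩
      · push Not at hex
        refine ⟨fun _ => 0, ?_, ?_, ?_⟩
        · intro u v _ _
          rfl
        · intro u v _ w h
          exact lt_irrefl _ h.1
        · intro u v _
          rw [hex u, hex v]

/-! ### trees as simple graphs -/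

/-- the labelling of a finite tree without symmetric component factors through an arc -/
theorem tree_fold {V : Type} [Finite V] (T : SimpleGraph V) (hT : T.IsTree) {A : Type} (lam : V → A)
    (hsym : ∀ x y, lam x ≠ lam y → ¬ ReflTransGen (Mv T.Adj lam) (x, y) (y, x)) :
    ∃ h : V → ℕ, (∀ u v, T.Adj u v → h u ≤ h v + 1) ∧ (∀ u v, h u = h v → lam u = lam v) := by
  classical
  let _ := Fintype.ofFinite V
  obtain ⟨r⟩ := hT.connected.nonempty
  have hex : ∀ v, v ≠ r → ∃ u, T.Adj v u ∧ T.dist r u < T.dist r v := by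
    intro v hv
    obtain ⟨p, hp⟩ := hT.connected.exists_walk_length_eq_dist v r
    cases p with
    | nil => exact absurd rfl hv
    | @cons _ u _ hadj q =>
      refine ⟨u, hadj, ?_⟩
      have h1 : T.dist u r ≤ q.length := SimpleGraph.dist_le q
      rw [SimpleGraph.Walk.length_cons] at hp
      rw [SimpleGraph.dist_comm (u := r) (v := u), SimpleGraph.dist_comm (u := r) (v := v)]
      omega
  let par : V → V := fun v => if h : v ≠ r then (hex v h).choose else r
  have hpar : ∀ v, v ≠ r → T.Adj v (par v) ∧ T.dist r (par v) < T.dist r v := by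
    intro v hv
    have : par v = (hex v hv).choose := by simp [par, hv]
    rw [this]
    exact (hex v hv).choose_spec
  let R : RT V := ⟨r, par, T.dist r, fun v hv => (hpar v hv).2⟩
  have hRT : ∀ u v, R.Adj u v → T.Adj u v := by
    rintro u v (⟨h1, h2⟩ | ⟨h1, h2⟩)
    · rw [← h2]; exact (hpar u h1).1
    · rw [← h2]; exact (hpar v h1).1.symm
  have hTR : ∀ u v, T.Adj u v → R.Adj u v := by
    have key : ∀ u v, T.Adj u v → T.dist r v < T.dist r u → par u = v := by
      intro u v huv hlt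
      have hu : u ≠ r := by
        rintro rfl
        simp at hlt
      by_contra hne
      obtain ⟨ha, hb⟩ := hpar u hu
      obtain ⟨p, hp, hpl⟩ := (hT.connected r v).exists_path_of_dist
      obtain ⟨q, hq, hql⟩ := (hT.connected r (par u)).exists_path_of_dist
      have d1 := hT.dist_eq_dist_add_one_of_adj r huv
      have d2 := hT.dist_eq_dist_add_one_of_adj r ha
      have h1 : (p.concat huv.symm).IsPath := by
        refine hp.concat ?_ huv.symm
        intro hmem
        have := SimpleGraph.dist_le (p.takeUntil u hmem)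
        have h3 := p.length_takeUntil_le_length hmem
        omega
      have h2 : (q.concat ha.symm).IsPath := by
        refine hq.concat ?_ ha.symm
        intro hmem
        have := SimpleGraph.dist_le (q.takeUntil u hmem)
        have h3 := q.length_takeUntil_le_length hmem
        omega
      have h3 := (hT.existsUnique_path r u).unique h1 h2
      have h4 := congrArg (fun w => w.penultimate) h3
      simp only [SimpleGraph.Walk.penultimate_concat] at h4
      exact hne h4.symm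
    intro u v huv
    have d1 := hT.dist_eq_dist_add_one_of_adj r huv
    rcases d1 with d1 | d1
    · have hlt : T.dist r v < T.dist r u := by omega
      refine Or.inl ⟨?_, key u v huv hlt⟩
      rintro rfl
      simp at hlt
    · have hlt : T.dist r u < T.dist r v := by omega
      refine Or.inr ⟨?_, key v u huv.symm hlt⟩
      rintro rfl
      simp at hlt
  have hS : SymFree R.Adj lam := by
    intro x y hxy hp
    have hle : Mv R.Adj lam ≤ Mv T.Adj lam := by
      rintro p q ⟨h1, h2, h3⟩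
      refine ⟨h1, h2, ?_⟩
      rcases h3 with ⟨h3, h4⟩ | ⟨h3, h4⟩
      · exact Or.inl ⟨hRT _ _ h3, h4⟩
      · exact Or.inr ⟨h3, hRT _ _ h4⟩
    exact hsym x y hxy (ReflTransGen.mono hle _ _ hp)
  obtain ⟨h, H⟩ := fold_rt _ V A R lam rfl hS
  -- renumbering
  let S : V → Finset ℤ := fun v => (Finset.univ.image h).filter (fun z => z < h v)
  refine ⟨fun v => (S v).card, ?_, ?_⟩
  · intro u v huv
    have hsub : S u ⊆ insert (h v) (S v) := by
      intro z hz
      simp only [S, Finset.mem_filter, Finset.mem_image, Finset.mem_univ, true_and] at hz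
      obtain ⟨⟨w, hw⟩, hz⟩ := hz
      simp only [S, Finset.mem_insert, Finset.mem_filter, Finset.mem_image, Finset.mem_univ, true_and]
      rcases lt_trichotomy z (h v) with h1 | h1 | h1
      · exact Or.inr ⟨⟨w, hw⟩, h1⟩
      · exact Or.inl h1
      · exfalso
        have := H.btw v u (hTR v u huv.symm) w
        rw [hw] at this
        exact this ⟨h1, hz⟩
    calc (S u).card ≤ (insert (h v) (S v)).card := Finset.card_le_card hsub
      _ ≤ (S v).card + 1 := Finset.card_insert_le _ _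
  · intro u v huv
    have huv : (S u).card = (S v).card := huv
    apply H.lab
    rcases lt_trichotomy (h u) (h v) with h1 | h1 | h1
    · exfalso
      have : (S u).card < (S v).card := by
        apply Finset.card_lt_card
        rw [Finset.ssubset_iff_of_subset]
        · exact ⟨h u, by simp [S, h1], by simp [S]⟩
        · intro z hz
          simp only [S, Finset.mem_filter] at hz ⊢
          exact ⟨hz.1, hz.2.trans h1⟩
      omega
    · exact h1
    · exfalso
      have : (S v).card < (S u).card := by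
        apply Finset.card_lt_card
        rw [Finset.ssubset_iff_of_subset]
        · exact ⟨h v, by simp [S, h1], by simp [S]⟩
        · intro z hz
          simp only [S, Finset.mem_filter] at hz ⊢
          exact ⟨hz.1, hz.2.trans h1⟩
      omega

end Pool.Agent.Lib.MP_4b5926_gt.Fold
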