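import Pool.Agent.Lib.MP_4b5926_gt.Topo
import Pool.Agent.Lib.MP_4b5926_gt.Fact

set_option autoImplicit false
set_option linter.unusedSectionVars false

open Relation Filter Topology Set

namespace Pool.MP_4b5926_gt

section surj

variable {V W : Type} [Fintype V] [Fintype W] [DecidableEq V] [DecidableEq W]

lemma continuous_push (f : V → W) : Continuous (push f) := by
  refine continuous_pi fun b => ?_
  unfold push
  refine continuous_finsetSum _ fun v _ => ?_
  by_cases h : f v = b
  · simp only [h, if_true]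
    exact continuous_apply v
  · simp only [h, if_false]
    exact continuous_const

lemma isClosed_Geo (T : SimpleGraph V) : IsClosed (Geo T) := by
  have : Geo T = {w | ∀ v, 0 ≤ w v} ∩ ({w | ∑ v, w v = 1} ∩
      {w | ∀ u v, ¬ (u = v ∨ T.Adj u v) → w u * w v = 0}) := by
    ext w
    constructor
    · rintro ⟨a, b, c⟩
      refine ⟨a, b, fun u v huv => ?_⟩
      by_contra h
      exact huv (c u v (left_ne_zero_of_mul h) (right_ne_zero_of_mul h))
    · rintro ⟨a, b, c⟩
      refine ⟨a, b, fun u v hu hv => ?_⟩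
      by_contra h
      exact mul_ne_zero hu hv (c u v h)
  rw [this]
  refine IsClosed.inter ?_ (IsClosed.inter ?_ ?_)
  · have : {w : V → ℝ | ∀ v, 0 ≤ w v} = ⋂ v, {w | 0 ≤ w v} := by
      ext w
      simp
    rw [this]
    exact isClosed_iInter fun v => isClosed_le continuous_const (continuous_apply v)
  · exact isClosed_eq (continuous_finsetSum _ fun v _ => continuous_apply v) continuous_const
  · have : {w : V → ℝ | ∀ u v, ¬ (u = v ∨ T.Adj u v) → w u * w v = 0} =
        ⋂ u, ⋂ v, ⋂ (_ : ¬ (u = v ∨ T.Adj u v)), {w | w u * w v = 0} := by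
      ext w
      simp only [mem_ofPred_eq, mem_iInter]
    rw [this]
    exact isClosed_iInter fun u => isClosed_iInter fun v => isClosed_iInter fun _ =>
      isClosed_eq ((continuous_apply u).mul (continuous_apply v)) continuous_const

lemma isCompact_Geo (T : SimpleGraph V) : IsCompact (Geo T) := by
  refine (isCompact_univ_pi (fun _ : V => isCompact_Icc (a := (0 : ℝ)) (b := 1))).of_isClosed_subset
    (isClosed_Geo T) ?_
  rintro w ⟨a, b, _⟩ v _
  refine ⟨a v, ?_⟩
  rw [← b]
  exact Finset.single_le_sum (fun u _ => a u) (Finset.mem_univ v)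

/-- points of the realization of a triangle-free graph are vertices or lie on edges -/
lemma Geo_cases (T : SimpleGraph V) (hT : T.IsAcyclic) {w : V → ℝ} (hw : w ∈ Geo T) :
    (∃ v, w = Pi.single v 1) ∨
      ∃ u v, T.Adj u v ∧ ∃ t : ℝ, t ∈ Icc (0 : ℝ) 1 ∧
        w = (1 - t) • (Pi.single u (1 : ℝ) : V → ℝ) + t • Pi.single v (1 : ℝ) := by
  obtain ⟨a, b, c⟩ := hw
  obtain ⟨u, hu⟩ : ∃ u, w u ≠ 0 := by
    by_contra h
    push Not at h
    rw [Finset.sum_eq_zero fun v _ => h v] at b
    exact zero_ne_one b
  by_cases h : ∃ v, v ≠ u ∧ w v ≠ 0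
  · right
    obtain ⟨v, hvu, hv⟩ := h
    have huv : T.Adj u v := (c u v hu hv).resolve_left (Ne.symm hvu)
    have rest : ∀ x, x ≠ u → x ≠ v → w x = 0 := by
      intro x hxu hxv
      by_contra hx
      have h1 : T.Adj x u := (c x u hx hu).resolve_left hxu
      have h2 : T.Adj x v := (c x v hx hv).resolve_left hxv
      have := hT.cliqueFree (n := 3) le_rfl {x, u, v}
      apply this
      rw [SimpleGraph.is3Clique_triple_iff]
      exact ⟨h1, h2, huv⟩
    have sum2 : w u + w v = 1 := by
      rw [← b, ← Finset.sum_pair (Ne.symm hvu)]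
      refine Finset.sum_subset (Finset.subset_univ _) fun x _ hx => ?_
      simp only [Finset.mem_insert, Finset.mem_singleton, not_or] at hx
      exact rest x hx.1 hx.2
    refine ⟨u, v, huv, w v, ⟨a v, by linarith [a u]⟩, ?_⟩
    funext x
    by_cases hxu : x = u
    · subst hxu
      have : x ≠ v := Ne.symm hvu
      simp [this]
      linarith
    · by_cases hxv : x = v
      · subst hxv
        simp [hxu]
      · rw [rest x hxu hxv]
        simp [hxu, hxv]
  · left
    push Not at h
    refine ⟨u, ?_⟩
    have h1 : w u = 1 := by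
      rw [← b]
      exact (Finset.sum_eq_single u (fun x _ hx => h x hx) (fun h => absurd (Finset.mem_univ _) h)).symm
    funext x
    by_cases hx : x = u
    · subst hx
      simp [h1]
    · rw [h x hx]
      simp [hx]

/-- A surjective simplicial map of trees is onto on edges. -/
lemma edge_lift (T : SimpleGraph V) (S : SimpleGraph W) (hT : T.IsTree) (hS : S.IsTree) (f : V → W)
    (hf : ∀ u v, T.Adj u v → f u = f v ∨ S.Adj (f u) (f v)) (hsurj : Function.Surjective f)
    {a b : W} (hab : S.Adj a b) : ∃ u v, T.Adj u v ∧ f u = a ∧ f v = b := by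
  by_contra hcon
  push Not at hcon
  have hbr := SimpleGraph.isAcyclic_iff_forall_adj_isBridge.1 hS.isAcyclic hab
  rw [SimpleGraph.isBridge_iff] at hbr
  obtain ⟨u, hu⟩ := hsurj a
  obtain ⟨v, hv⟩ := hsurj b
  obtain ⟨q⟩ := hT.connected.preconnected u v
  have key : ∀ {x y : V}, T.Walk x y → (S \ SimpleGraph.fromEdgeSet {s(a, b)}).Reachable (f x) (f y) := by
    intro x y q
    induction q with
    | nil => exact SimpleGraph.Reachable.refl _
    | @cons x y z hxy _ ih =>
      refine SimpleGraph.Reachable.trans ?_ ih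
      rcases hf _ _ hxy with h | h
      · rw [h]
      · refine SimpleGraph.Adj.reachable ?_
        rw [SimpleGraph.sdiff_adj]
        refine ⟨h, ?_⟩
        intro h'
        rw [SimpleGraph.fromEdgeSet_adj] at h'
        have h1 := h'.1
        rw [mem_singleton_iff, Sym2.eq_iff] at h1
        rcases h1 with ⟨e1, e2⟩ | ⟨e1, e2⟩
        · exact hcon _ _ hxy e1 e2
        · exact hcon _ _ hxy.symm e2 e1
  have h1 := key q
  rw [hu, hv] at h1
  exact hbr h1

end surj

section lim

variable {n : ℕ → ℕ} (T : ∀ i, SimpleGraph (Fin (n i))) (f : ∀ i, Fin (n (i + 1)) → Fin (n i))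

/-- The bonding maps are onto. -/
lemma push_surj (hT : ∀ i, (T i).IsTree)
    (hf : ∀ i u v, (T (i + 1)).Adj u v → f i u = f i v ∨ (T i).Adj (f i u) (f i v))
    (hs : ∀ i, Function.Surjective (f i)) (i : ℕ) {w : Fin (n i) → ℝ} (hw : w ∈ Geo (T i)) :
    ∃ w' ∈ Geo (T (i + 1)), push (f i) w' = w := by
  rcases Geo_cases (T i) (hT i).isAcyclic hw with ⟨v, rfl⟩ | ⟨a, b, hab, t, ht, rfl⟩
  · obtain ⟨u, rfl⟩ := hs i v
    exact ⟨Pi.single u 1, single_mem_Geo T u, push_single _ _⟩
  · obtain ⟨u, v, huv, rfl, rfl⟩ := edge_lift (T (i + 1)) (T i) (hT _) (hT _) (f i) (hf i) (hs i) hab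
    refine ⟨_, seg_mem_Geo T huv ht, ?_⟩
    rw [push_seg, push_single, push_single]

lemma push_mem (hf : ∀ i u v, (T (i + 1)).Adj u v → f i u = f i v ∨ (T i).Adj (f i u) (f i v))
    (i : ℕ) {w : Fin (n (i + 1)) → ℝ} (hw : w ∈ Geo (T (i + 1))) : push (f i) w ∈ Geo (T i) := by
  obtain ⟨a, b, c⟩ := hw
  have pos : ∀ x, push (f i) w x ≠ 0 → ∃ u, f i u = x ∧ w u ≠ 0 := by
    intro x hx
    by_contra h
    push Not at h
    apply hx
    unfold push
    refine Finset.sum_eq_zero fun v _ => ?_
    by_cases hv : f i v = x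
    · rw [if_pos hv]
      exact h v hv
    · rw [if_neg hv]
  refine ⟨fun x => ?_, ?_, ?_⟩
  · unfold push
    refine Finset.sum_nonneg fun v _ => ?_
    by_cases hv : f i v = x
    · rw [if_pos hv]
      exact a v
    · rw [if_neg hv]
  · unfold push
    rw [Finset.sum_comm]
    rw [← b]
    refine Finset.sum_congr rfl fun v _ => ?_
    rw [Finset.sum_ite_eq Finset.univ (f i v) (fun _ => w v)]
    simp
  · intro x y hx hy
    obtain ⟨u, rfl, hu⟩ := pos x hx
    obtain ⟨v, rfl, hv⟩ := pos y hy
    rcases c u v hu hv with h | h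
    · exact Or.inl (by rw [h])
    · exact hf i u v h

/-- The inverse limit. -/
def invLim : Set (∀ i, Fin (n i) → ℝ) :=
  {w | ∀ i, w i ∈ Geo (T i) ∧ push (f i) (w (i + 1)) = w i}

/-- The partial inverse limit: compatibility up to level `N`. -/
def partLim (N : ℕ) : Set (∀ i, Fin (n i) → ℝ) :=
  {w | (∀ i, w i ∈ Geo (T i)) ∧ ∀ i < N, push (f i) (w (i + 1)) = w i}

lemma isCompact_partLim (N : ℕ) : IsCompact (partLim T f N) := by
  have h1 : IsCompact (Set.pi univ fun i => Geo (T i)) := isCompact_univ_pi fun i => isCompact_Geo (T i)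
  refine h1.of_isClosed_subset ?_ ?_
  · have : partLim T f N = (Set.pi univ fun i => Geo (T i)) ∩
        ⋂ i, ⋂ (_ : i < N), {w | push (f i) (w (i + 1)) = w i} := by
      ext w
      simp only [partLim, mem_ofPred_eq, mem_inter_iff, Set.mem_pi, mem_univ, forall_const, mem_iInter]
    rw [this]
    refine h1.isClosed.inter (isClosed_iInter fun i => isClosed_iInter fun _ => ?_)
    exact isClosed_eq ((continuous_push (f i)).comp (continuous_apply (i + 1))) (continuous_apply i)
  · rintro w ⟨hw, _⟩ i _
    exact hw i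

lemma isCompact_invLim : IsCompact (invLim T f) := by
  have : invLim T f = partLim T f 0 ∩ ⋂ N, partLim T f N := by
    ext w
    constructor
    · intro h
      refine ⟨⟨fun i => (h i).1, fun i hi => absurd hi (Nat.not_lt_zero i)⟩, ?_⟩
      rw [mem_iInter]
      exact fun N => ⟨fun i => (h i).1, fun i _ => (h i).2⟩
    · rintro ⟨_, h⟩ i
      rw [mem_iInter] at h
      exact ⟨(h 0).1 i, (h (i + 1)).2 i (Nat.lt_succ_self i)⟩
  rw [this]
  exact (isCompact_partLim T f 0).inter_right (isClosed_iInter fun N => (isCompact_partLim T f N).isClosed)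

/-- every point of level `N` is the coordinate of a point compatible up to `N` -/
lemma exists_below (hT : ∀ i, (T i).IsTree)
    (hf : ∀ i u v, (T (i + 1)).Adj u v → f i u = f i v ∨ (T i).Adj (f i u) (f i v)) (N : ℕ) :
    ∀ w ∈ Geo (T N), ∃ x ∈ partLim T f N, x N = w := by
  induction N with
  | zero =>
    intro w hw
    have : ∀ i, ∃ v, v ∈ Geo (T i) := fun i => by
      obtain ⟨v⟩ := (hT i).connected.nonempty
      exact ⟨_, single_mem_Geo T v⟩
    choose x hx using this
    refine ⟨Function.update x 0 w, ⟨fun i => ?_, fun i hi => absurd hi (Nat.not_lt_zero i)⟩, ?_⟩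
    · by_cases h : i = 0
      · subst h
        rw [Function.update_self]
        exact hw
      · rw [Function.update_of_ne h]
        exact hx i
    · rw [Function.update_self]
  | succ N ih =>
    intro w hw
    obtain ⟨x, ⟨hx1, hx2⟩, hx3⟩ := ih _ (push_mem T f hf N hw)
    refine ⟨Function.update x (N + 1) w, ⟨fun i => ?_, fun i hi => ?_⟩, ?_⟩
    · by_cases h : i = N + 1
      · subst h
        rw [Function.update_self]
        exact hw
      · rw [Function.update_of_ne h]
        exact hx1 i
    · have h1 : i ≠ N + 1 := by omega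
      rw [Function.update_of_ne h1]
      by_cases h2 : i = N
      · subst h2
        rw [Function.update_self]
        exact hx3.symm
      · have h3 : i + 1 ≠ N + 1 := by omega
        rw [Function.update_of_ne h3]
        exact hx2 i (by omega)
    · rw [Function.update_self]

/-- The projections of the inverse limit are onto. -/
lemma proj_onto (hT : ∀ i, (T i).IsTree)
    (hf : ∀ i u v, (T (i + 1)).Adj u v → f i u = f i v ∨ (T i).Adj (f i u) (f i v))
    (hs : ∀ i, Function.Surjective (f i)) (i : ℕ) {w : Fin (n i) → ℝ} (hw : w ∈ Geo (T i)) :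
    ∃ x ∈ invLim T f, x i = w := by
  have ext : ∀ d, ∃ x ∈ partLim T f (i + d), x i = w := by
    intro d
    induction d with
    | zero => exact exists_below T f hT hf i w hw
    | succ d ih =>
      obtain ⟨x, ⟨hx1, hx2⟩, hx3⟩ := ih
      obtain ⟨w', hw', hw''⟩ := push_surj T f hT hf hs (i + d) (hx1 (i + d))
      refine ⟨Function.update x (i + d + 1) w', ⟨fun j => ?_, fun j hj => ?_⟩, ?_⟩
      · by_cases h : j = i + d + 1
        · subst h
          rw [Function.update_self]
          exact hw'
        · rw [Function.update_of_ne h]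
          exact hx1 j
      · have h1 : j ≠ i + d + 1 := by omega
        rw [Function.update_of_ne h1]
        by_cases h2 : j = i + d
        · subst h2
          rw [Function.update_self]
          exact hw''
        · have h3 : j + 1 ≠ i + d + 1 := by omega
          rw [Function.update_of_ne h3]
          exact hx2 j (by omega)
      · have h1 : i ≠ i + d + 1 := by omega
        rw [Function.update_of_ne h1]
        exact hx3
  have hcl : IsClosed {x : ∀ i, Fin (n i) → ℝ | x i = w} := isClosed_eq (continuous_apply i) continuous_const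
  obtain ⟨x, hx⟩ := IsCompact.nonempty_iInter_of_sequence_nonempty_isCompact_isClosed
    (fun d => partLim T f (i + d) ∩ {x | x i = w})
    (fun d x hx => ⟨⟨hx.1.1, fun j hj => hx.1.2 j (by omega)⟩, hx.2⟩)
    (fun d => by
      obtain ⟨x, hx, hx'⟩ := ext d
      exact ⟨x, hx, hx'⟩)
    ((isCompact_partLim T f _).inter_right hcl)
    (fun d => (isCompact_partLim T f _).isClosed.inter hcl)
  rw [mem_iInter] at hx
  refine ⟨x, fun j => ⟨(hx 0).1.1 j, (hx (j + 1)).1.2 j (by omega)⟩, (hx 0).2⟩

/-- Simplicial inverse limits of trees with (D) are arc-like and have semispan zero. -/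
theorem main (hT : ∀ i, (T i).IsTree)
    (hf : ∀ i u v, (T (i + 1)).Adj u v → f i u = f i v ∨ (T i).Adj (f i u) (f i v))
    (hs : ∀ i, Function.Surjective (f i))
    (X : Type) [MetricSpace X] (e : X ≃ₜ invLim T f)
    (hD : ∀ A B : X, ∀ K : Set (X × X), IsCompact K → IsConnected K →
        (A, B) ∈ K → (B, A) ∈ K → ∃ x : X, (x, x) ∈ K) :
    (∀ ε : ℝ, 0 < ε → ∃ g : X → ℝ, Continuous g ∧ ∀ x y, g x = g y → dist x y < ε) ∧
      ∀ Z : Set (X × X), IsCompact Z → IsConnected Z → Prod.snd '' Z ⊆ Prod.fst '' Z →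
        ∃ x : X, (x, x) ∈ Z := by
  have : CompactSpace (invLim T f) := isCompact_iff_compactSpace.1 (isCompact_invLim T f)
  have : CompactSpace X := e.symm.compactSpace
  have key : ∀ ε : ℝ, 0 < ε → ∃ g : X → ℝ, Continuous g ∧ ∀ x y, g x = g y → dist x y < ε := by
    refine arc_like T f (fun i x => (e x).1 i) ?_ ?_ ?_ ?_ ?_ ?_ hD
    · intro j i lam hns
      obtain ⟨h, h1, h2⟩ := LAB.fact_tree (T j) (hT j) lam (fun x y hxy hc => hns ⟨x, y, hxy, hc⟩)
      refine ⟨fun v => (h v : ℤ), fun u v huv => ?_, fun u v huv => h2 u v (Int.ofNat.inj huv)⟩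
      have a := h1 u v huv
      have b := h1 v u huv.symm
      show |(h u : ℤ) - (h v : ℤ)| ≤ 1
      rw [abs_le]
      constructor <;> omega
    · intro i x
      exact ((e x).2 i).1
    · intro i w hw
      obtain ⟨x, hx, hx'⟩ := proj_onto T f hT hf hs i hw
      refine ⟨e.symm ⟨x, hx⟩, ?_⟩
      simp only [Homeomorph.apply_symm_apply]
      exact hx'
    · intro i x
      exact ((e x).2 i).2
    · intro i
      exact (continuous_apply i).comp (continuous_subtype_val.comp e.continuous)
    · intro x y h
      apply e.injective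
      apply Subtype.ext
      funext i
      exact h i
  exact ⟨key, fun Z h1 h2 h3 => arc_like_semispan key Z h1 h2 h3⟩

end lim

end Pool.MP_4b5926_gt
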