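import Mathlib

set_option autoImplicit false

namespace MP4b5926

open Set Metric

/-- The definition of tree-likeness used in the frozen statement. -/
def TreeLike (X : Type) [MetricSpace X] : Prop :=
  ∀ ε : ℝ, 0 < ε → ∃ n : ℕ, ∃ U : Fin n → Set X,
    (∀ i, IsOpen (U i)) ∧ (∀ i, (U i).Nonempty) ∧
    (∀ i, Metric.diam (U i) < ε) ∧ (⋃ i, U i) = Set.univ ∧
    (∀ i j k, i ≠ j → j ≠ k → i ≠ k → U i ∩ U j ∩ U k = ∅) ∧
    (SimpleGraph.fromRel (fun i j : Fin n => (U i ∩ U j).Nonempty)).IsTree

/-- Property (D) of the problem. -/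
def PropD (X : Type) [MetricSpace X] : Prop :=
  ∀ A B : X, ∀ K : Set (X × X), IsCompact K → IsConnected K →
    (A, B) ∈ K → (B, A) ∈ K → ∃ x : X, (x, x) ∈ K

/-- Good cut systems: arbitrarily fine finite closed covers such that every component of the
intersection of two members has less than half the diameter of every component of a member. -/
def GoodCuts (X : Type) [MetricSpace X] : Prop :=
  ∀ ε : ℝ, 0 < ε → ∃ n : ℕ, ∃ P : Fin n → Set X, ∃ δ : ℝ,
    (∀ i, IsClosed (P i)) ∧ (⋃ i, P i) = Set.univ ∧ (∀ i, Metric.diam (P i) < ε) ∧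
    (∀ i, ∀ x ∈ P i, δ ≤ Metric.diam (connectedComponentIn (P i) x)) ∧
    (∀ i j, i ≠ j → ∀ x ∈ P i ∩ P j, 2 * Metric.diam (connectedComponentIn (P i ∩ P j) x) < δ)

/-- two disjoint compact sets have positive distance -/
lemma exists_sep {Y : Type*} [MetricSpace Y] {A B : Set Y} (hA : IsCompact A) (hB : IsCompact B)
    (h : ∀ y, y ∈ A → y ∈ B → False) : ∃ ε : ℝ, 0 < ε ∧ ∀ a ∈ A, ∀ b ∈ B, ε ≤ dist a b := by
  by_cases hne : (A ×ˢ B).Nonempty
  · obtain ⟨q, hq, hmin⟩ := (hA.prod hB).exists_isMinOn hne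
      (f := fun q : Y × Y => dist q.1 q.2) (by fun_prop)
    refine ⟨dist q.1 q.2, ?_, ?_⟩
    · apply dist_pos.2
      intro he
      exact h q.1 hq.1 (by rw [he]; exact hq.2)
    · intro a ha b hb
      exact hmin (show (a, b) ∈ A ×ˢ B from ⟨ha, hb⟩)
  · refine ⟨1, one_pos, fun a ha b hb => ?_⟩
    exact absurd ⟨(a, b), ha, hb⟩ hne

lemma exists_unif {ι : Type*} [Finite ι] (Q : ι → ℝ → Prop)
    (mono : ∀ i a b, 0 < a → a ≤ b → Q i b → Q i a) (h : ∀ i, ∃ ε : ℝ, 0 < ε ∧ Q i ε) :
    ∃ ε : ℝ, 0 < ε ∧ ∀ i, Q i ε := by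
  choose e he hQ using h
  by_cases hne : Nonempty ι
  · obtain ⟨i0, hi0⟩ := Finite.exists_min e
    exact ⟨e i0, he i0, fun i => mono i _ _ (he i0) (hi0 i) (hQ i)⟩
  · exact ⟨1, one_pos, fun i => absurd ⟨i⟩ hne⟩

section
variable {X : Type} [MetricSpace X] [CompactSpace X]

lemma dist_le_diam {S : Set X} {x y : X} (hx : x ∈ S) (hy : y ∈ S) : dist x y ≤ Metric.diam S :=
  Metric.dist_le_diam_of_mem (Metric.isBounded_of_compactSpace) hx hy

end

section
variable {X : Type*} [MetricSpace X] [CompactSpace X]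

/-- the relation of being in the same component is closed -/
lemma isClosed_comp {P : Set X} (hP : IsClosed P) :
    IsClosed {q : X × X | q.2 ∈ connectedComponentIn P q.1} := by
  have : CompactSpace P := isCompact_iff_compactSpace.1 hP.isCompact
  have h1 : IsClosed {a : P × P | (a.1 : ConnectedComponents P) = (a.2 : ConnectedComponents P)} := by
    apply isClosed_eq
    · exact ConnectedComponents.continuous_coe.comp continuous_fst
    · exact ConnectedComponents.continuous_coe.comp continuous_snd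
  have h2 : {q : X × X | q.2 ∈ connectedComponentIn P q.1} =
      (fun a : P × P => ((a.1 : X), (a.2 : X))) ''
        {a : P × P | (a.1 : ConnectedComponents P) = (a.2 : ConnectedComponents P)} := by
    ext q
    constructor
    · intro hq
      have hq1 : q.1 ∈ P := by
        by_contra hn
        simp only [mem_ofPred_eq, connectedComponentIn, hn, dif_neg, not_false_eq_true] at hq
        exact hq
      have hq2 : q.2 ∈ P := connectedComponentIn_subset P q.1 hq
      refine ⟨(⟨q.1, hq1⟩, ⟨q.2, hq2⟩), ?_, rfl⟩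
      rw [mem_ofPred_eq, connectedComponentIn_eq_image hq1] at hq
      obtain ⟨c, hc, hc2⟩ := hq
      have : c = ⟨q.2, hq2⟩ := Subtype.ext hc2
      subst this
      simp only [mem_ofPred_eq]
      rw [ConnectedComponents.coe_eq_coe]
      exact connectedComponent_eq hc
    · rintro ⟨a, ha, rfl⟩
      simp only [mem_ofPred_eq] at ha ⊢
      rw [ConnectedComponents.coe_eq_coe] at ha
      rw [connectedComponentIn_eq_image a.1.2]
      refine ⟨a.2, ?_, rfl⟩
      have : a.2 ∈ connectedComponent a.2 := mem_connectedComponent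
      rw [← ha] at this
      exact this
  rw [h2]
  exact ((h1.isCompact).image (by fun_prop)).isClosed

lemma isClosed_compIn {P : Set X} (hP : IsClosed P) (x : X) : IsClosed (connectedComponentIn P x) := by
  have h := isClosed_comp hP
  have : connectedComponentIn P x = (fun y => (x, y)) ⁻¹' {q : X × X | q.2 ∈ connectedComponentIn P q.1} := by
    ext y; simp
  rw [this]
  exact h.preimage (by fun_prop)

end

section
variable {X : Type} [MetricSpace X] [CompactSpace X]

/-- separation of a continuum missing the diagonal from its mirror image, by (D) -/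
lemma exists_HH (hD : PropD X) {Z : Set (X × X)} (hZ : IsConnected Z)
    {η : ℝ} (hη : 0 < η) (hd : ∀ z ∈ Z, η ≤ dist z.1 z.2) :
    ∃ H H' : Set (X × X), IsClosed H ∧ IsClosed H' ∧ (∀ q, q ∈ H → q ∈ H' → False) ∧
      (∀ q : X × X, η ≤ dist q.1 q.2 ↔ (q ∈ H ∨ q ∈ H')) ∧ (∀ z ∈ Z, z ∈ H) ∧ (∀ z ∈ Z, z.swap ∈ H') := by
  set K : Set (X × X) := {q | η ≤ dist q.1 q.2} with hK
  have hKc : IsClosed K := isClosed_le continuous_const (by fun_prop)
  obtain ⟨z0, hz0⟩ := hZ.nonempty
  have hz0K : z0 ∈ K := hd z0 hz0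
  have hz0K' : z0.swap ∈ K := by
    have := hd z0 hz0
    simp only [hK, mem_ofPred_eq, Prod.fst_swap, Prod.snd_swap, dist_comm z0.2 z0.1]
    exact this
  have hnot : z0.swap ∉ connectedComponentIn K z0 := by
    intro hmem
    have hcl : IsClosed (connectedComponentIn K z0) := isClosed_compIn hKc z0
    obtain ⟨x, hx⟩ := hD z0.1 z0.2 (connectedComponentIn K z0) hcl.isCompact
      ⟨⟨z0, mem_connectedComponentIn hz0K⟩, isPreconnected_connectedComponentIn⟩
      (mem_connectedComponentIn hz0K) hmem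
    have := connectedComponentIn_subset K z0 hx
    simp only [hK, mem_ofPred_eq, dist_self] at this
    linarith
  have hKcomp : CompactSpace K := isCompact_iff_compactSpace.1 hKc.isCompact
  rw [connectedComponentIn_eq_image hz0K] at hnot
  have hnot2 : (⟨z0.swap, hz0K'⟩ : K) ∉ connectedComponent (⟨z0, hz0K⟩ : K) := fun hh => hnot ⟨_, hh, rfl⟩
  rw [connectedComponent_eq_iInter_isClopen] at hnot2
  simp only [mem_iInter, not_forall] at hnot2
  obtain ⟨⟨s, hs, hs0⟩, hsn⟩ := hnot2
  simp only at hsn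
  have hH : IsClosed ((fun a : K => (a : X × X)) '' s) := (hs.1.isCompact.image (by fun_prop)).isClosed
  have hH' : IsClosed ((fun a : K => (a : X × X)) '' sᶜ) :=
    (hs.compl.1.isCompact.image (by fun_prop)).isClosed
  have hdis : ∀ q, q ∈ ((fun a : K => (a : X × X)) '' s) → q ∈ ((fun a : K => (a : X × X)) '' sᶜ) → False := by
    rintro q ⟨a, ha, rfl⟩ ⟨b, hb, hab⟩
    have : b = a := Subtype.ext hab
    subst this
    exact hb ha
  have hcov : ∀ q : X × X, η ≤ dist q.1 q.2 ↔
      (q ∈ ((fun a : K => (a : X × X)) '' s) ∨ q ∈ ((fun a : K => (a : X × X)) '' sᶜ)) := by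
    intro q
    constructor
    · intro hq
      by_cases h : (⟨q, hq⟩ : K) ∈ s
      · exact Or.inl ⟨_, h, rfl⟩
      · exact Or.inr ⟨_, h, rfl⟩
    · rintro (⟨a, -, rfl⟩ | ⟨a, -, rfl⟩)
      · exact a.2
      · exact a.2
  refine ⟨_, _, hH, hH', hdis, hcov, ?_, ?_⟩
  · have hp := isPreconnected_iff_subset_of_disjoint_closed.1 hZ.isPreconnected _ _ hH hH'
      (fun z hz => (hcov z).1 (hd z hz)) (by
        ext q; constructor
        · rintro ⟨-, h1, h2⟩; exact (hdis q h1 h2).elim
        · intro h; exact absurd h (notMem_empty q))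
    rcases hp with hp | hp
    · exact hp
    · exact (hdis z0 ⟨_, hs0, rfl⟩ (hp hz0)).elim
  · have hZ2 : IsPreconnected (Prod.swap '' Z) := hZ.isPreconnected.image _ (by fun_prop)
    have hp := isPreconnected_iff_subset_of_disjoint_closed.1 hZ2 _ _ hH hH'
      (by
        rintro _ ⟨z, hz, rfl⟩
        refine (hcov _).1 ?_
        have := hd z hz
        rwa [Prod.fst_swap, Prod.snd_swap, dist_comm]) (by
        ext q; constructor
        · rintro ⟨-, h1, h2⟩; exact (hdis q h1 h2).elim
        · intro h; exact absurd h (notMem_empty q))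
    rcases hp with hp | hp
    · exact (hdis z0.swap (hp ⟨z0, hz0, rfl⟩) ⟨⟨z0.swap, hz0K'⟩, hsn, rfl⟩).elim
    · intro z hz
      exact hp ⟨z, hz, rfl⟩
end

end MP4b5926
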