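import Pool.Agent.Lib.MP_4b5926_gt.MLMain

set_option autoImplicit false
set_option linter.unusedSectionVars false

namespace MP4b5926

open Set Metric

/-- Chainable (arc-like): arbitrarily fine chain covers. -/
def Chainable (X : Type) [MetricSpace X] : Prop :=
  ∀ ε : ℝ, 0 < ε → ∃ n : ℕ, ∃ C : Fin n → Set X,
    (∀ i, IsOpen (C i)) ∧ (∀ i, (C i).Nonempty) ∧ (∀ i, Metric.diam (C i) < ε) ∧
    (⋃ i, C i) = Set.univ ∧
    (∀ i j : Fin n, (C i ∩ C j).Nonempty ↔ ((i : ℕ) ≤ (j : ℕ) + 1 ∧ (j : ℕ) ≤ (i : ℕ) + 1))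

/-- the fold theorem -/
def FoldThm : Prop := ∀ (V : Type) [Finite V] (T : SimpleGraph V), T.IsTree → ∀ (A : Type) (lam : V → A),
  (¬ ∃ x y, lam x ≠ lam y ∧ Relation.ReflTransGen (Move T lam) (x, y) (y, x)) →
  ∃ h : V → ℤ, (∀ u v, T.Adj u v → |h u - h v| ≤ 1) ∧ (∀ u v, h u = h v → lam u = lam v)

lemma Move.swap {V A : Type} {T : SimpleGraph V} {lam : V → A} {p q : V × V} (h : Move T lam p q) :
    Move T lam p.swap q.swap := by
  obtain ⟨h1, h2, h3⟩ := h
  refine ⟨h1.symm, h2.symm, ?_⟩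
  rcases h3 with ⟨h3, h4⟩ | ⟨h3, h4⟩
  · exact Or.inr ⟨h4, h3⟩
  · exact Or.inl ⟨h4, h3⟩

lemma Moves.swap {V A : Type} {T : SimpleGraph V} {lam : V → A} {p q : V × V}
    (h : Relation.ReflTransGen (Move T lam) p q) :
    Relation.ReflTransGen (Move T lam) p.swap q.swap := by
  induction h with
  | refl => exact Relation.ReflTransGen.refl
  | tail _ h2 ih => exact ih.tail h2.swap

section
variable {X : Type} [MetricSpace X] [CompactSpace X]

/-- finitely many antisymmetric clopen sets are dominated by one -/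
lemma exists_anti_aux {K : Type*} [TopologicalSpace K] (σ : K → K) (hσ : Continuous σ) (hσσ : ∀ a, σ (σ a) = a)
    {ι : Type*} (N : ι → Set K) (hN : ∀ i, IsClopen (N i)) (hNa : ∀ i, ∀ a ∈ N i, σ a ∉ N i)
    (t : Finset ι) : ∃ A : Set K, IsClopen A ∧ (∀ a ∈ A, σ a ∉ A) ∧ ∀ i ∈ t, ∀ a ∈ N i, a ∈ A ∨ σ a ∈ A := by
  classical
  induction t using Finset.induction_on with
  | empty => exact ⟨∅, isClopen_empty, by simp, by simp⟩
  | insert i t _ ih =>
    obtain ⟨A, hA, hAa, hAt⟩ := ih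
    refine ⟨A ∪ (N i ∩ (σ ⁻¹' A)ᶜ), hA.union ((hN i).inter (hA.preimage hσ).compl), ?_, ?_⟩
    · rintro a (ha | ⟨ha, ha'⟩) (hb | ⟨hb, hb'⟩)
      · exact hAa a ha hb
      · apply hb'
        show σ (σ a) ∈ A
        rw [hσσ]; exact ha
      · exact ha' hb
      · exact hNa i a ha hb
    · intro j hj a ha
      rcases Finset.mem_insert.1 hj with rfl | hj
      · by_cases h : σ a ∈ A
        · exact Or.inr (Or.inl h)
        · exact Or.inl (Or.inr ⟨ha, h⟩)
      · rcases hAt j hj a ha with h | h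
        · exact Or.inl (Or.inl h)
        · exact Or.inr (Or.inl h)

/-- antisymmetric separation of `{η ≤ dist}` under (D) -/
lemma exists_anti (hD : PropD X) {η : ℝ} (hη : 0 < η) :
    ∃ H : Set (X × X), IsClosed H ∧ (∀ q, q ∈ H → q.swap ∈ H → False) ∧
      (∀ q : X × X, η ≤ dist q.1 q.2 → (q ∈ H ∨ q.swap ∈ H)) := by
  classical
  set K : Set (X × X) := {q | η ≤ dist q.1 q.2} with hK
  have hKc : IsClosed K := isClosed_le continuous_const (by fun_prop)
  have hKcomp : CompactSpace K := isCompact_iff_compactSpace.1 hKc.isCompact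
  have hsw : ∀ q ∈ K, q.swap ∈ K := by
    intro q hq
    have : η ≤ dist q.1 q.2 := hq
    show η ≤ dist q.2 q.1
    rwa [dist_comm]
  let σ : K → K := fun a => ⟨a.1.swap, hsw _ a.2⟩
  have hσ : Continuous σ := by
    apply Continuous.subtype_mk
    exact continuous_swap.comp continuous_subtype_val
  have hσσ : ∀ a, σ (σ a) = a := fun a => Subtype.ext (Prod.swap_swap _)
  have hcomp : ∀ a : K, σ a ∉ connectedComponent a := by
    intro a ha
    have hcl : IsClosed (connectedComponentIn K (a : X × X)) := isClosed_compIn hKc _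
    have hmem : (a : X × X).swap ∈ connectedComponentIn K (a : X × X) := by
      rw [connectedComponentIn_eq_image a.2]
      exact ⟨σ a, ha, rfl⟩
    obtain ⟨x, hx⟩ := hD (a : X × X).1 (a : X × X).2 (connectedComponentIn K (a : X × X)) hcl.isCompact
      ⟨⟨a, mem_connectedComponentIn a.2⟩, isPreconnected_connectedComponentIn⟩
      (mem_connectedComponentIn a.2) hmem
    have h2 : η ≤ dist x x := connectedComponentIn_subset K _ hx
    rw [dist_self] at h2
    linarith
  have hclopen : ∀ a : K, ∃ s : Set K, IsClopen s ∧ a ∈ s ∧ σ a ∉ s := by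
    intro a
    have h1 := hcomp a
    rw [connectedComponent_eq_iInter_isClopen] at h1
    simp only [mem_iInter, not_forall] at h1
    obtain ⟨⟨s, hs, hs0⟩, hsn⟩ := h1
    exact ⟨s, hs, hs0, hsn⟩
  choose s hs hsa hsn using hclopen
  set N : K → Set K := fun a => s a ∩ (σ ⁻¹' (s a))ᶜ with hN
  have hNc : ∀ a, IsClopen (N a) := fun a => (hs a).inter ((hs a).preimage hσ).compl
  have hNa : ∀ i, ∀ a ∈ N i, σ a ∉ N i := by
    rintro i a ⟨h1, h2⟩ ⟨h3, h4⟩
    exact h2 h3
  have hNm : ∀ a, a ∈ N a := fun a => ⟨hsa a, hsn a⟩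
  obtain ⟨t, ht⟩ := isCompact_univ.elim_finite_subcover N (fun a => (hNc a).isOpen)
    (fun a _ => mem_iUnion.2 ⟨a, hNm a⟩)
  obtain ⟨A, hA, hAa, hAt⟩ := exists_anti_aux σ hσ hσσ N hNc hNa t
  refine ⟨(fun a : K => (a : X × X)) '' A, (hA.1.isCompact.image (by fun_prop)).isClosed, ?_, ?_⟩
  · rintro q ⟨a, ha, rfl⟩ ⟨b, hb, hab⟩
    have : b = σ a := Subtype.ext hab
    subst this
    exact hAa a ha hb
  · intro q hq
    have h1 := ht (mem_univ (⟨q, hq⟩ : K))
    simp only [mem_iUnion] at h1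
    obtain ⟨i, hi, hqi⟩ := h1
    rcases hAt i hi _ hqi with h | h
    · exact Or.inl ⟨_, h, rfl⟩
    · exact Or.inr ⟨_, h, rfl⟩

variable {n : ℕ} {P : Fin n → Set X} {c δ θ η : ℝ}

/-- no symmetric component in fine tree covers -/
lemma no_symm (hK : Consts P c δ θ η) {H : Set (X × X)} (hHc : IsClosed H)
    (hHa : ∀ q, q ∈ H → q.swap ∈ H → False)
    (hHcov : ∀ q : X × X, η ≤ dist q.1 q.2 → (q ∈ H ∨ q.swap ∈ H)) :
    ∃ ε : ℝ, 0 < ε ∧ ∀ (V : Type) (T : SimpleGraph V) (lam : V → Fin n) (pt : V → X),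
      (∀ v, pt v ∈ P (lam v)) → (∀ v w, T.Adj v w → dist (pt v) (pt w) < ε) →
      ¬ ∃ x y, lam x ≠ lam y ∧ Relation.ReflTransGen (Move T lam) (x, y) (y, x) := by
  have hS : Sides η H (Prod.swap ⁻¹' H) := ⟨hHc, hHc.preimage continuous_swap, fun q h1 h2 => hHa q h1 h2, hHcov⟩
  obtain ⟨ε, hε, he1, he2⟩ := exists_eps0 hK hS
  refine ⟨ε, hε, ?_⟩
  intro V T lam pt hpt hadj
  have flip : ∀ (i j : Fin n) (a b : X) (H1 : Set (X × X)), (a, b) ∈ Sd P θ η H1 i j →
      (b, a) ∈ Sd P θ η (Prod.swap ⁻¹' H1) j i := by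
    rintro i j a b H1 ⟨r, h1, h2, h3, h4⟩
    refine ⟨r.swap, h2, h1, ?_, ?_⟩
    · rw [Prod.fst_swap, Prod.snd_swap, dist_comm]; exact h3
    · show r.swap.swap ∈ H1
      rw [Prod.swap_swap]; exact h4
  have main : ∀ x y, lam x ≠ lam y → Relation.ReflTransGen (Move T lam) (x, y) (y, x) →
      (pt x, pt y) ∈ Sd P θ η H (lam x) (lam y) → False := by
    intro x y hxy hp hs
    have h1 := side_move hK hS he1 he2 hpt hadj hp hs
    have h2 := flip _ _ _ _ _ hs
    exact compat1 hK hS hxy.symm hxy.symm h1 h2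
  rintro ⟨x, y, hxy, hp⟩
  rcases Sd_cover hK hS (i := lam x) (j := lam y) (q := (pt x, pt y)) (hpt x) (hpt y) with h | h
  · exact main x y hxy hp h
  · have h2 := flip _ _ _ _ _ h
    rw [← Set.preimage_comp, Prod.swap_swap_eq, Set.preimage_id] at h2
    exact main y x hxy.symm (Moves.swap hp) h2

/-- an integer valued function on a connected graph which moves by at most one along edges
crosses every level -/
lemma exists_cross {V : Type} {T : SimpleGraph V} (hT : T.Connected) {h : V → ℤ}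
    (hh : ∀ u v, T.Adj u v → |h u - h v| ≤ 1) {a b : V} {k : ℤ} (ha : h a ≤ k) (hb : k + 1 ≤ h b) :
    ∃ u v, T.Adj u v ∧ h u = k ∧ h v = k + 1 := by
  by_contra hcon
  push Not at hcon
  have : ∀ c, T.Reachable a c → h c ≤ k := by
    rintro c ⟨w⟩
    refine walk_induct (S := univ) (Q := fun c => h c ≤ k) ?_ w (fun _ _ => trivial) ha
    intro u v huv _ _ hu
    by_contra hv
    push Not at hv
    have h1 := abs_le.1 (hh u v huv)
    exact hcon u v huv (by omega) (by omega)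
  have := this b (hT.preconnected a b)
  omega

lemma exists_c {n : ℕ} {P : Fin n → Set X} {δ : ℝ} (hP : ∀ i, IsClosed (P i)) (hδ : 0 < δ)
    (h : ∀ i j, i ≠ j → ∀ x ∈ P i ∩ P j, 2 * Metric.diam (connectedComponentIn (P i ∩ P j) x) < δ) :
    ∃ c : ℝ, 0 ≤ c ∧ 2 * c < δ ∧
      ∀ i j, i ≠ j → ∀ x y, y ∈ connectedComponentIn (P i ∩ P j) x → dist x y ≤ c := by
  obtain ⟨e, he, hQ⟩ := exists_unif (ι := Fin n × Fin n) (fun ij e => ij.1 ≠ ij.2 → ∀ x y,
      y ∈ connectedComponentIn (P ij.1 ∩ P ij.2) x → dist x y ≤ δ / 2 - e)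
    (by
      intro ij a b _ hab hb hne x y hy
      have := hb hne x y hy
      linarith)
    (by
      rintro ⟨i, j⟩
      by_cases hij : i ≠ j
      · have hcl : IsClosed {q : X × X | q.2 ∈ connectedComponentIn (P i ∩ P j) q.1} :=
          isClosed_comp ((hP i).inter (hP j))
        by_cases hne : ({q : X × X | q.2 ∈ connectedComponentIn (P i ∩ P j) q.1}).Nonempty
        · obtain ⟨q, hq, hmax⟩ := hcl.isCompact.exists_isMaxOn hne (f := fun q : X × X => dist q.1 q.2) (by fun_prop)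
          have h1 := h i j hij q.1 (mem_of_mem_compIn hq)
          have h2 : dist q.1 q.2 ≤ Metric.diam (connectedComponentIn (P i ∩ P j) q.1) :=
            dist_le_diam (mem_connectedComponentIn (mem_of_mem_compIn hq)) hq
          refine ⟨δ / 2 - dist q.1 q.2, by linarith, fun _ x y hy => ?_⟩
          have h3 : dist x y ≤ dist q.1 q.2 := hmax (show (x, y) ∈ _ from hy)
          linarith
        · exact ⟨1, one_pos, fun _ x y hy => absurd ⟨(x, y), hy⟩ hne⟩
      · exact ⟨1, one_pos, fun h => absurd h hij⟩)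
  refine ⟨δ / 2 - min e (δ / 2), ?_, ?_, ?_⟩
  · have := min_le_right e (δ / 2); linarith
  · have : 0 < min e (δ / 2) := lt_min he (by linarith)
    linarith
  · intro i j hij x y hy
    have h1 := hQ (i, j) hij x y hy
    have h2 := min_le_left e (δ / 2)
    linarith

lemma exists_univ [ConnectedSpace X] {n : ℕ} {P : Fin n → Set X} (hP : ∀ i, IsClosed (P i))
    (hu : (⋃ i, P i) = univ) (hd : ∀ i j, i ≠ j → ∀ x, x ∈ P i → x ∈ P j → False) : ∃ i, P i = univ := by
  obtain ⟨x0⟩ : Nonempty X := inferInstance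
  have hx0 : x0 ∈ ⋃ i, P i := by rw [hu]; trivial
  obtain ⟨i, hi⟩ := mem_iUnion.1 hx0
  refine ⟨i, ?_⟩
  have hcomp : (P i)ᶜ = ⋃ j ∈ {j | j ≠ i}, P j := by
    ext x
    simp only [mem_compl_iff, mem_iUnion, exists_prop]
    constructor
    · intro hx
      have : x ∈ ⋃ i, P i := by rw [hu]; trivial
      obtain ⟨j, hj⟩ := mem_iUnion.1 this
      exact ⟨j, fun h => hx (h ▸ hj), hj⟩
    · rintro ⟨j, hj, hxj⟩ hxi
      exact hd j i hj x hxj hxi
  have hcl : IsClosed (P i)ᶜ := by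
    rw [hcomp]
    exact (toFinite _).isClosed_biUnion fun j _ => hP j
  have hclopen : IsClopen (P i) := ⟨hP i, isClosed_compl_iff.1 hcl⟩
  rcases isClopen_iff.1 hclopen with h | h
  · rw [h] at hi; exact absurd hi (notMem_empty _)
  · exact h

/-- **(GC) gives chain covers.** -/
theorem chainable_of_good [ConnectedSpace X] (hF : FoldThm) (hT : TreeLike X) (hD : PropD X) (hG : GoodCuts X) :
    Chainable X := by
  classical
  intro ε hε
  obtain ⟨n, P, δ, hPc, hPu, hPd, hPδ, hPs⟩ := hG (ε / 2) (by linarith)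
  by_cases hδ : 0 < δ
  swap
  · obtain ⟨i, hi⟩ := exists_univ hPc hPu (fun i j hij x hx hx' => by
      have h1 := hPs i j hij x ⟨hx, hx'⟩
      have h2 : 0 ≤ Metric.diam (connectedComponentIn (P i ∩ P j) x) := Metric.diam_nonneg
      linarith)
    have h1 := hPd i
    rw [hi] at h1
    obtain ⟨x0⟩ : Nonempty X := inferInstance
    refine ⟨1, fun _ => univ, fun _ => isOpen_univ, fun _ => ⟨x0, trivial⟩, fun _ => by linarith, ?_, ?_⟩
    · exact eq_univ_of_forall fun x => mem_iUnion.2 ⟨0, trivial⟩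
    · intro i j
      have hi := i.2
      have hj := j.2
      constructor
      · intro _; omega
      · intro _; exact ⟨x0, trivial, trivial⟩
  obtain ⟨c, hc0, hc, hcs⟩ := exists_c hPc hδ hPs
  have hCuts : Cuts P c δ := ⟨hPc, hcs, hc0, hc, hPδ⟩
  obtain ⟨θ, η, hK⟩ := exists_consts hT hCuts
  obtain ⟨H, hHc, hHa, hHcov⟩ := exists_anti hD hK.hη
  obtain ⟨ε0, hε0, hno⟩ := no_symm hK hHc hHa hHcov
  set μ := min (ε0 / 2) (ε / 5) with hμ
  have hμ0 : 0 < μ := lt_min (by linarith) (by linarith)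
  have hμ1 : μ ≤ ε0 / 2 := min_le_left _ _
  have hμ2 : μ ≤ ε / 5 := min_le_right _ _
  obtain ⟨m, U, hUo, hUn, hUd, hUc, -, hUt⟩ := hT μ hμ0
  have hUdd : ∀ i, ∀ x ∈ U i, ∀ y ∈ U i, dist x y < μ := fun i x hx y hy =>
    lt_of_le_of_lt (dist_le_diam hx hy) (hUd i)
  have hlab : ∀ v : Fin m, ∃ l : Fin n, ∃ x : X, x ∈ U v ∧ x ∈ P l := by
    intro v
    obtain ⟨x, hx⟩ := hUn v
    have hx' : x ∈ ⋃ i, P i := by rw [hPu]; trivial
    obtain ⟨l, hl⟩ := mem_iUnion.1 hx'
    exact ⟨l, x, hx, hl⟩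
  choose lam pt hptU hptP using hlab
  have hUt' : (nerve U).IsTree := hUt
  have hns := hno (Fin m) (nerve U) lam pt hptP (by
    intro v w hvw
    obtain ⟨x, hx1, hx2⟩ := nerve_meet hvw
    have h1 := hUdd _ _ (hptU v) _ hx1
    have h2 := hUdd _ _ hx2 _ (hptU w)
    have h3 := dist_triangle (pt v) x (pt w)
    linarith)
  obtain ⟨h, hh1, hh2⟩ := hF (Fin m) (nerve U) hUt' (Fin n) lam hns
  -- range of h
  obtain ⟨x0⟩ : Nonempty X := inferInstance
  have hx0 : x0 ∈ ⋃ i, U i := by rw [hUc]; trivial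
  obtain ⟨i0, -⟩ := mem_iUnion.1 hx0
  have hne : Nonempty (Fin m) := ⟨i0⟩
  obtain ⟨ia, hia⟩ := Finite.exists_min h
  obtain ⟨ib, hib⟩ := Finite.exists_max h
  have hval : ∀ k : ℤ, h ia ≤ k → k ≤ h ib → ∃ u, h u = k := by
    intro k h1 h2
    rcases eq_or_lt_of_le h2 with h3 | h3
    · exact ⟨ib, h3.symm⟩
    · obtain ⟨u, v, -, hu, -⟩ := exists_cross hUt'.1 hh1 (a := ia) (b := ib) (k := k) h1 (by omega)
      exact ⟨u, hu⟩
  have hlen : 0 ≤ h ib - h ia := by have := hia ib; omega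
  refine ⟨(h ib - h ia).toNat + 1, fun k => ⋃ u ∈ {u : Fin m | h u = h ia + (k : ℕ)}, U u, ?_, ?_, ?_, ?_, ?_⟩
  · intro k
    exact isOpen_biUnion fun u _ => hUo u
  · intro k
    obtain ⟨u, hu⟩ := hval (h ia + (k : ℕ)) (by omega) (by have := k.2; omega)
    obtain ⟨x, hx⟩ := hUn u
    exact ⟨x, mem_biUnion (show u ∈ {u : Fin m | h u = h ia + (k : ℕ)} from hu) hx⟩
  · intro k
    have hd : Metric.diam (⋃ u ∈ {u : Fin m | h u = h ia + (k : ℕ)}, U u) ≤ ε / 2 + 2 * μ := by
      apply Metric.diam_le_of_forall_dist_le (by linarith)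
      intro x hx y hy
      simp only [mem_iUnion] at hx hy
      obtain ⟨u, hu, hxu⟩ := hx
      obtain ⟨v, hv, hyv⟩ := hy
      have hu' : h u = h ia + (k : ℕ) := hu
      have hv' : h v = h ia + (k : ℕ) := hv
      have he : lam u = lam v := hh2 u v (by rw [hu', hv'])
      have h1 := hUdd _ _ hxu _ (hptU u)
      have h2 := hUdd _ _ (hptU v) _ hyv
      have h3 : dist (pt u) (pt v) ≤ Metric.diam (P (lam u)) :=
        dist_le_diam (hptP u) (by rw [he]; exact hptP v)
      have h4 := hPd (lam u)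
      have h5 := dist_triangle4 x (pt u) (pt v) y
      linarith
    linarith
  · apply eq_univ_of_forall
    intro x
    have hx : x ∈ ⋃ i, U i := by rw [hUc]; trivial
    obtain ⟨u, hu⟩ := mem_iUnion.1 hx
    have h1 := hia u
    have h2 := hib u
    refine mem_iUnion.2 ⟨⟨(h u - h ia).toNat, by omega⟩, ?_⟩
    refine mem_biUnion (show u ∈ {v : Fin m | h v = h ia + (((h u - h ia).toNat : ℕ) : ℤ)} from ?_) hu
    show h u = _
    omega
  · intro i j
    constructor
    · rintro ⟨x, hx1, hx2⟩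
      simp only [mem_iUnion] at hx1 hx2
      obtain ⟨u, hu, hxu⟩ := hx1
      obtain ⟨v, hv, hxv⟩ := hx2
      have hu' : h u = h ia + (i : ℕ) := hu
      have hv' : h v = h ia + (j : ℕ) := hv
      by_cases huv : u = v
      · subst huv; omega
      · have h1 := abs_le.1 (hh1 u v (nerve_adj huv hxu hxv))
        omega
    · rintro ⟨h1, h2⟩
      have hne2 : ∀ k : ℤ, h ia ≤ k → k ≤ h ib → ∃ x, ∃ u, h u = k ∧ x ∈ U u := by
        intro k a b
        obtain ⟨u, hu⟩ := hval k a b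
        obtain ⟨x, hx⟩ := hUn u
        exact ⟨x, u, hu, hx⟩
      have key : ∀ k : ℤ, h ia ≤ k → k + 1 ≤ h ib → ∃ x, ∃ u v, h u = k ∧ h v = k + 1 ∧ x ∈ U u ∧ x ∈ U v := by
        intro k a b
        obtain ⟨u, v, huv, hu, hv⟩ := exists_cross hUt'.1 hh1 (a := ia) (b := ib) (k := k) a b
        obtain ⟨x, hx1, hx2⟩ := nerve_meet huv
        exact ⟨x, u, v, hu, hv, hx1, hx2⟩
      have hi := i.2
      have hj := j.2
      rcases lt_trichotomy (i : ℕ) (j : ℕ) with hij | hij | hij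
      · obtain ⟨x, u, v, hu, hv, hxu, hxv⟩ := key (h ia + (i : ℕ)) (by omega) (by omega)
        refine ⟨x, mem_biUnion (show u ∈ {u : Fin m | h u = h ia + (i : ℕ)} from hu) hxu,
          mem_biUnion (show v ∈ {u : Fin m | h u = h ia + (j : ℕ)} from ?_) hxv⟩
        show h v = _
        omega
      · obtain ⟨x, u, hu, hxu⟩ := hne2 (h ia + (i : ℕ)) (by omega) (by omega)
        refine ⟨x, mem_biUnion (show u ∈ {u : Fin m | h u = h ia + (i : ℕ)} from hu) hxu,
          mem_biUnion (show u ∈ {u : Fin m | h u = h ia + (j : ℕ)} from ?_) hxu⟩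
        show h u = _
        omega
      · obtain ⟨x, u, v, hu, hv, hxu, hxv⟩ := key (h ia + (j : ℕ)) (by omega) (by omega)
        refine ⟨x, mem_biUnion (show v ∈ {u : Fin m | h u = h ia + (i : ℕ)} from ?_) hxv,
          mem_biUnion (show u ∈ {u : Fin m | h u = h ia + (j : ℕ)} from hu) hxu⟩
        show h v = _
        omega

end

end MP4b5926
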