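import Pool.Agent.Lib.MP_4b5926_gt.MLSide

set_option autoImplicit false
set_option linter.unusedSectionVars false

namespace MP4b5926

open Set Metric

/-- moves of one token in the graph of pairs with different labels -/
def Move {V A : Type} (T : SimpleGraph V) (lam : V → A) (p q : V × V) : Prop :=
  lam p.1 ≠ lam p.2 ∧ lam q.1 ≠ lam q.2 ∧ ((T.Adj p.1 q.1 ∧ p.2 = q.2) ∨ (p.1 = q.1 ∧ T.Adj p.2 q.2))

section
variable {X : Type} [MetricSpace X] [CompactSpace X] {n : ℕ} {P : Fin n → Set X} {c δ θ η : ℝ}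
  {H H' : Set (X × X)}

/-- the side is constant along moves -/
lemma side_move (hK : Consts P c δ θ η) (hS : Sides η H H') {ε : ℝ}
    (he1 : ∀ i l j : Fin n, i ≠ j → l ≠ j → ∀ q ∈ Sd P θ η H i j, ∀ q' ∈ Sd P θ η H' l j, ε ≤ dist q q')
    (he2 : ∀ i j l : Fin n, i ≠ j → i ≠ l → ∀ q ∈ Sd P θ η H i j, ∀ q' ∈ Sd P θ η H' i l, ε ≤ dist q q')
    {V : Type} {T : SimpleGraph V} {lam : V → Fin n} {pt : V → X} (hpt : ∀ v, pt v ∈ P (lam v))
    (hadj : ∀ v w, T.Adj v w → dist (pt v) (pt w) < ε) {a b : V × V}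
    (hab : Relation.ReflTransGen (Move T lam) a b)
    (ha : (pt a.1, pt a.2) ∈ Sd P θ η H (lam a.1) (lam a.2)) :
    (pt b.1, pt b.2) ∈ Sd P θ η H (lam b.1) (lam b.2) := by
  induction hab with
  | refl => exact ha
  | tail hab hmove ih =>
    rename_i b c
    obtain ⟨h1, h2, h3⟩ := hmove
    rcases Sd_cover hK hS (i := lam c.1) (j := lam c.2) (q := (pt c.1, pt c.2)) (hpt _) (hpt _) with h | h
    · exact h
    · exfalso
      rcases h3 with ⟨h3, h4⟩ | ⟨h3, h4⟩
      · have := he1 (lam b.1) (lam c.1) (lam b.2) h1 (by rw [h4]; exact h2) _ ih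
          (pt c.1, pt c.2) (by rw [h4]; exact h)
        rw [Prod.dist_eq] at this
        simp only [h4, dist_self] at this
        have h5 := hadj _ _ h3
        have h6 : 0 ≤ dist (pt b.1) (pt c.1) := dist_nonneg
        rw [max_eq_left h6] at this
        linarith
      · have := he2 (lam b.1) (lam b.2) (lam c.2) h1 (by rw [h3]; exact h2) _ ih
          (pt c.1, pt c.2) (by rw [h3]; exact h)
        rw [Prod.dist_eq] at this
        simp only [h3, dist_self] at this
        have h5 := hadj _ _ h4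
        have h6 : 0 ≤ dist (pt b.2) (pt c.2) := dist_nonneg
        rw [max_eq_right h6] at this
        linarith

end

end MP4b5926
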