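import Pool.Agent.Lib.MP_4b5926_gt.MLUni

set_option autoImplicit false
set_option linter.unusedSectionVars false

namespace MP4b5926

open Set Metric

structure Cuts {X : Type} [MetricSpace X] {n : ℕ} (P : Fin n → Set X) (c δ : ℝ) : Prop where
  closed : ∀ i, IsClosed (P i)
  small : ∀ i j, i ≠ j → ∀ x y, y ∈ connectedComponentIn (P i ∩ P j) x → dist x y ≤ c
  nonneg : 0 ≤ c
  lt : 2 * c < δ
  diam : ∀ i, ∀ x ∈ P i, δ ≤ Metric.diam (connectedComponentIn (P i) x)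

section
variable {X : Type} [MetricSpace X] [CompactSpace X] {n : ℕ} {P : Fin n → Set X} {c δ : ℝ}

lemma mem_of_mem_compIn {F : Set X} {x y : X} (h : y ∈ connectedComponentIn F x) : x ∈ F := by
  by_contra hn
  simp only [connectedComponentIn, hn, dif_neg, not_false_eq_true] at h
  exact h

lemma compIn_eq {F : Set X} {x y : X} (h : y ∈ connectedComponentIn F x) :
    connectedComponentIn F x = connectedComponentIn F y := connectedComponentIn_eq h

lemma near_one (hT : TreeLike X) (hC : Cuts P c δ) {θ : ℝ} (hθ : c < θ) (i j : Fin n) (hij : i ≠ j) :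
    ∃ η : ℝ, 0 < η ∧ ∀ x1 x2 y1 y2 : X, x2 ∈ connectedComponentIn (P i) x1 →
      y2 ∈ connectedComponentIn (P j) y1 → dist x1 y1 < η → dist x2 y2 < η →
      dist x1 x2 < θ ∧ dist y1 y2 < θ := by
  set W : Set ((X × X) × (X × X)) := {w | w.1.2 ∈ connectedComponentIn (P i) w.1.1 ∧
    w.2.2 ∈ connectedComponentIn (P j) w.2.1 ∧ (θ ≤ dist w.1.1 w.1.2 ∨ θ ≤ dist w.2.1 w.2.2)} with hW
  have hWc : IsClosed W := by
    have c1 : IsClosed {w : (X × X) × (X × X) | θ ≤ dist w.1.1 w.1.2} :=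
      isClosed_le continuous_const (by fun_prop)
    have c2 : IsClosed {w : (X × X) × (X × X) | θ ≤ dist w.2.1 w.2.2} :=
      isClosed_le continuous_const (by fun_prop)
    exact ((isClosed_comp (hC.closed i)).preimage continuous_fst).inter
      (((isClosed_comp (hC.closed j)).preimage continuous_snd).inter (c1.union c2))
  have hDg : IsClosed {w : (X × X) × (X × X) | w.1 = w.2} := isClosed_eq continuous_fst continuous_snd
  obtain ⟨η, hη, hηd⟩ := exists_sep hWc.isCompact hDg.isCompact (by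
    rintro ⟨a, b⟩ ⟨h1, h2, h3⟩ (hab : a = b)
    subst hab
    simp only at h1 h2 h3
    have hpre : IsPreconnected (connectedComponentIn (P i) a.1 ∩ connectedComponentIn (P j) a.1) :=
      inter_isPreconnected hT (isClosed_compIn (hC.closed i) _) (isClosed_compIn (hC.closed j) _)
        isPreconnected_connectedComponentIn isPreconnected_connectedComponentIn
    have hmem1 : a.1 ∈ connectedComponentIn (P i) a.1 ∩ connectedComponentIn (P j) a.1 :=
      ⟨mem_connectedComponentIn (mem_of_mem_compIn h1), mem_connectedComponentIn (mem_of_mem_compIn h2)⟩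
    have hsub := hpre.subset_connectedComponentIn hmem1 (inter_subset_inter
      (connectedComponentIn_subset _ _) (connectedComponentIn_subset _ _))
    have h4 := hC.small i j hij a.1 a.2 (hsub ⟨h1, h2⟩)
    rcases h3 with h3 | h3 <;> linarith)
  refine ⟨η, hη, fun x1 x2 y1 y2 hx hy h1 h2 => ?_⟩
  by_contra hcon
  rw [not_and_or, not_lt, not_lt] at hcon
  have := hηd ((x1, x2), (y1, y2)) ⟨hx, hy, hcon⟩ ((x1, x2), (x1, x2)) rfl
  rw [Prod.dist_eq, Prod.dist_eq] at this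
  simp only [dist_self] at this
  rw [Prod.dist_eq] at this
  simp only [dist_comm y1 x1, dist_comm y2 x2] at this
  rcases le_max_iff.1 this with h | h
  · simp only [max_self] at h; linarith
  · rcases le_max_iff.1 h with h | h <;> linarith

lemma near (hT : TreeLike X) (hC : Cuts P c δ) {θ : ℝ} (hθ : c < θ) :
    ∃ η : ℝ, 0 < η ∧ ∀ i j : Fin n, i ≠ j → ∀ x1 x2 y1 y2 : X, x2 ∈ connectedComponentIn (P i) x1 →
      y2 ∈ connectedComponentIn (P j) y1 → dist x1 y1 < η → dist x2 y2 < η →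
      dist x1 x2 < θ ∧ dist y1 y2 < θ := by
  obtain ⟨η, hη, h⟩ := exists_unif (ι := Fin n × Fin n) (fun ij e => ij.1 ≠ ij.2 →
      ∀ x1 x2 y1 y2 : X, x2 ∈ connectedComponentIn (P ij.1) x1 →
      y2 ∈ connectedComponentIn (P ij.2) y1 → dist x1 y1 < e → dist x2 y2 < e →
      dist x1 x2 < θ ∧ dist y1 y2 < θ)
    (by
      intro ij a b ha hab hb hne x1 x2 y1 y2 h1 h2 h3 h4
      exact hb hne x1 x2 y1 y2 h1 h2 (h3.trans_le hab) (h4.trans_le hab))
    (by
      intro ij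
      by_cases hne : ij.1 ≠ ij.2
      · obtain ⟨e, he, h⟩ := near_one hT hC hθ ij.1 ij.2 hne
        exact ⟨e, he, fun _ => h⟩
      · exact ⟨1, one_pos, fun h => absurd h hne⟩)
  exact ⟨η, hη, fun i j hij => h (i, j) hij⟩

/-- the constants of the box lemma -/
structure Consts {X : Type} [MetricSpace X] {n : ℕ} (P : Fin n → Set X) (c δ θ η : ℝ) : Prop where
  cuts : Cuts P c δ
  hθ : 0 < θ
  hη : 0 < η
  hδ : 2 * (θ + η) < δ
  near : ∀ i j : Fin n, i ≠ j → ∀ x1 x2 y1 y2 : X, x2 ∈ connectedComponentIn (P i) x1 →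
      y2 ∈ connectedComponentIn (P j) y1 → dist x1 y1 < η → dist x2 y2 < η →
      dist x1 x2 < θ ∧ dist y1 y2 < θ

lemma exists_consts (hT : TreeLike X) (hC : Cuts P c δ) : ∃ θ η : ℝ, Consts P c δ θ η := by
  have h0 := hC.nonneg
  have hlt := hC.lt
  obtain ⟨η1, h1, h1'⟩ := near hT hC (θ := (c + δ / 2) / 2) (by linarith)
  refine ⟨(c + δ / 2) / 2, min η1 ((δ / 2 - c) / 4), hC, by linarith, lt_min h1 (by linarith), ?_, ?_⟩
  · have := min_le_right η1 ((δ / 2 - c) / 4)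
    linarith
  · intro i j hij x1 x2 y1 y2 a b c d
    exact h1' i j hij x1 x2 y1 y2 a b (c.trans_le (min_le_left _ _)) (d.trans_le (min_le_left _ _))

variable {θ η : ℝ}

lemma exists_x0 (hK : Consts P c δ θ η) {i j : Fin n} (hij : i ≠ j) {x y : X} (hx : x ∈ P i) (_hy : y ∈ P j) :
    ∃ x0 ∈ connectedComponentIn (P i) x, ∀ y' ∈ connectedComponentIn (P j) y, η ≤ dist x0 y' := by
  by_contra hcon
  push Not at hcon
  have hd : Metric.diam (connectedComponentIn (P i) x) ≤ θ := by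
    apply Metric.diam_le_of_forall_dist_le hK.hθ.le
    intro x1 h1 x2 h2
    obtain ⟨y1, hy1, hd1⟩ := hcon x1 h1
    obtain ⟨y2, hy2, hd2⟩ := hcon x2 h2
    exact (hK.near i j hij x1 x2 y1 y2 (by rw [← compIn_eq h1]; exact h2)
      (by rw [← compIn_eq hy1]; exact hy2) hd1 hd2).1.le
  have := hK.cuts.diam i x hx
  have := hK.hδ
  have := hK.hθ
  have := hK.hη
  linarith

lemma exists_y0 (hK : Consts P c δ θ η) {i j : Fin n} (hij : i ≠ j) {x y : X} (_hx : x ∈ P i) (hy : y ∈ P j) :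
    ∃ y0 ∈ connectedComponentIn (P j) y, ∀ x' ∈ connectedComponentIn (P i) x, η ≤ dist x' y0 := by
  by_contra hcon
  push Not at hcon
  have hd : Metric.diam (connectedComponentIn (P j) y) ≤ θ := by
    apply Metric.diam_le_of_forall_dist_le hK.hθ.le
    intro y1 h1 y2 h2
    obtain ⟨x1, hx1, hd1⟩ := hcon y1 h1
    obtain ⟨x2, hx2, hd2⟩ := hcon y2 h2
    exact (hK.near i j hij x1 x2 y1 y2 (by rw [← compIn_eq hx1]; exact hx2)
      (by rw [← compIn_eq h1]; exact h2) hd1 hd2).2.le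
  have := hK.cuts.diam j y hy
  have := hK.hδ
  have := hK.hθ
  have := hK.hη
  linarith

lemma exists_far (hK : Consts P c δ θ η) {i j : Fin n} {x y : X} (hx : x ∈ P i) (hy : y ∈ P j) :
    ∃ r : X × X, r.1 ∈ connectedComponentIn (P i) x ∧ r.2 ∈ connectedComponentIn (P j) y ∧
      θ + η ≤ dist r.1 r.2 := by
  have hθ := hK.hθ
  have hη := hK.hη
  by_contra hcon
  push Not at hcon
  have hd : Metric.diam (connectedComponentIn (P i) x) ≤ 2 * (θ + η) := by
    apply Metric.diam_le_of_forall_dist_le (by linarith)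
    intro x1 h1 x2 h2
    have a := hcon (x1, y) h1 (mem_connectedComponentIn hy)
    have b := hcon (x2, y) h2 (mem_connectedComponentIn hy)
    have c := dist_triangle_right x1 x2 y
    simp only at a b
    linarith
  have := hK.cuts.diam i x hx
  have := hK.hδ
  linarith

/-- the cross of a box -/
def Cross (P : Fin n → Set X) (η : ℝ) (i j : Fin n) (x y : X) : Set (X × X) :=
  {q | q.1 ∈ connectedComponentIn (P i) x ∧ q.2 ∈ connectedComponentIn (P j) y ∧
    ((∀ y' ∈ connectedComponentIn (P j) y, η ≤ dist q.1 y') ∨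
     (∀ x' ∈ connectedComponentIn (P i) x, η ≤ dist x' q.2))}

lemma cross_pre (hK : Consts P c δ θ η) {i j : Fin n} (hij : i ≠ j) {x y : X} (hx : x ∈ P i) (hy : y ∈ P j) :
    IsPreconnected (Cross P η i j x y) := by
  obtain ⟨x0, hx0, hx0'⟩ := exists_x0 hK hij hx hy
  obtain ⟨y0, hy0, hy0'⟩ := exists_y0 hK hij hx hy
  have hcX : IsPreconnected (connectedComponentIn (P i) x) := isPreconnected_connectedComponentIn
  have hcY : IsPreconnected (connectedComponentIn (P j) y) := isPreconnected_connectedComponentIn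
  have row : ∀ x' : X, IsPreconnected ((fun y' : X => (x', y')) '' connectedComponentIn (P j) y) :=
    fun x' => hcY.image _ (by fun_prop)
  have col : ∀ y' : X, IsPreconnected ((fun x' : X => (x', y')) '' connectedComponentIn (P i) x) :=
    fun y' => hcX.image _ (by fun_prop)
  apply isPreconnected_of_forall (x0, y0)
  rintro ⟨x', y'⟩ ⟨h1, h2, h3 | h3⟩
  · refine ⟨((fun b => (x', b)) '' connectedComponentIn (P j) y) ∪
      ((fun a => (a, y0)) '' connectedComponentIn (P i) x), ?_, Or.inr ⟨x0, hx0, rfl⟩,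
      Or.inl ⟨y', h2, rfl⟩, (row x').union (x', y0) ⟨y0, hy0, rfl⟩ ⟨x', h1, rfl⟩ (col y0)⟩
    rintro q (⟨b, hb, rfl⟩ | ⟨a, ha, rfl⟩)
    · exact ⟨h1, hb, Or.inl h3⟩
    · exact ⟨ha, hy0, Or.inr hy0'⟩
  · refine ⟨((fun b => (x0, b)) '' connectedComponentIn (P j) y) ∪
      ((fun a => (a, y')) '' connectedComponentIn (P i) x), ?_, Or.inl ⟨y0, hy0, rfl⟩,
      Or.inr ⟨x', h1, rfl⟩, (row x0).union (x0, y') ⟨y', h2, rfl⟩ ⟨x0, hx0, rfl⟩ (col y')⟩
    rintro q (⟨b, hb, rfl⟩ | ⟨a, ha, rfl⟩)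
    · exact ⟨hx0, hb, Or.inl hx0'⟩
    · exact ⟨ha, h2, Or.inr h3⟩

lemma cross_dist {i j : Fin n} {x y : X} {q : X × X} (hq : q ∈ Cross P η i j x y) :
    η ≤ dist q.1 q.2 := by
  obtain ⟨h1, h2, h3 | h3⟩ := hq
  · exact h3 _ h2
  · exact h3 _ h1

lemma far_mem_cross (hK : Consts P c δ θ η) {i j : Fin n} (hij : i ≠ j) {x y : X} {r : X × X}
    (h1 : r.1 ∈ connectedComponentIn (P i) x) (h2 : r.2 ∈ connectedComponentIn (P j) y)
    (h3 : θ + η ≤ dist r.1 r.2) : r ∈ Cross P η i j x y := by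
  refine ⟨h1, h2, ?_⟩
  by_contra hcon
  rw [not_or] at hcon
  obtain ⟨ha, hb⟩ := hcon
  push Not at ha hb
  obtain ⟨y', hy', hdy⟩ := ha
  obtain ⟨x', hx', hdx⟩ := hb
  have := hK.near i j hij r.1 x' y' r.2 (by rw [← compIn_eq h1]; exact hx')
    (by rw [← compIn_eq hy']; exact h2) hdy hdx
  have h4 := dist_triangle r.1 x' r.2
  linarith [this.1]

/-- pairs in `P i × P j` whose box has a far point in `H` -/
def Sd (P : Fin n → Set X) (θ η : ℝ) (H : Set (X × X)) (i j : Fin n) : Set (X × X) :=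
  {q | ∃ r : X × X, r.1 ∈ connectedComponentIn (P i) q.1 ∧ r.2 ∈ connectedComponentIn (P j) q.2 ∧
    θ + η ≤ dist r.1 r.2 ∧ r ∈ H}

lemma Sd_closed (hC : Cuts P c δ) {H : Set (X × X)} (hH : IsClosed H) (i j : Fin n) :
    IsClosed (Sd P θ η H i j) := by
  have h1 : IsClosed {w : (X × X) × (X × X) | w.2.1 ∈ connectedComponentIn (P i) w.1.1 ∧
      w.2.2 ∈ connectedComponentIn (P j) w.1.2 ∧ θ + η ≤ dist w.2.1 w.2.2 ∧ w.2 ∈ H} := by
    have c1 : IsClosed {w : (X × X) × (X × X) | θ + η ≤ dist w.2.1 w.2.2} :=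
      isClosed_le continuous_const (by fun_prop)
    exact ((isClosed_comp (hC.closed i)).preimage (f := fun w : (X × X) × (X × X) => (w.1.1, w.2.1))
      (by fun_prop)).inter (((isClosed_comp (hC.closed j)).preimage
      (f := fun w : (X × X) × (X × X) => (w.1.2, w.2.2)) (by fun_prop)).inter
      (c1.inter (hH.preimage continuous_snd)))
  have h2 : Sd P θ η H i j = Prod.fst '' {w : (X × X) × (X × X) | w.2.1 ∈ connectedComponentIn (P i) w.1.1 ∧
      w.2.2 ∈ connectedComponentIn (P j) w.1.2 ∧ θ + η ≤ dist w.2.1 w.2.2 ∧ w.2 ∈ H} := by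
    ext q
    constructor
    · rintro ⟨r, hr⟩
      exact ⟨(q, r), hr, rfl⟩
    · rintro ⟨w, hw, rfl⟩
      exact ⟨w.2, hw⟩
  rw [h2]
  exact (h1.isCompact.image continuous_fst).isClosed

lemma Sd_mem {H : Set (X × X)} {i j : Fin n} {q : X × X} (h : q ∈ Sd P θ η H i j) : q.1 ∈ P i ∧ q.2 ∈ P j := by
  obtain ⟨r, h1, h2, -⟩ := h
  exact ⟨mem_of_mem_compIn h1, mem_of_mem_compIn h2⟩

/-- the two sides -/
structure Sides (η : ℝ) (H H' : Set (X × X)) : Prop where
  cl : IsClosed H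
  cl' : IsClosed H'
  dis : ∀ q, q ∈ H → q ∈ H' → False
  cov : ∀ q : X × X, η ≤ dist q.1 q.2 → (q ∈ H ∨ q ∈ H')

lemma Sides.symm {η : ℝ} {H H' : Set (X × X)} (h : Sides η H H') : Sides η H' H :=
  ⟨h.cl', h.cl, fun q h1 h2 => h.dis q h2 h1, fun q hq => (h.cov q hq).symm⟩

variable {H H' : Set (X × X)}

lemma Sd_cover (hK : Consts P c δ θ η) (hS : Sides η H H') {i j : Fin n} {q : X × X}
    (h1 : q.1 ∈ P i) (h2 : q.2 ∈ P j) : q ∈ Sd P θ η H i j ∨ q ∈ Sd P θ η H' i j := by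
  obtain ⟨r, hr1, hr2, hr3⟩ := exists_far hK h1 h2
  have h5 : η ≤ dist r.1 r.2 := by have := hK.hθ; linarith
  rcases hS.cov r h5 with h | h
  · exact Or.inl ⟨r, hr1, hr2, hr3, h⟩
  · exact Or.inr ⟨r, hr1, hr2, hr3, h⟩

lemma cross_side (hK : Consts P c δ θ η) (hS : Sides η H H') {i j : Fin n} (hij : i ≠ j) {q : X × X}
    (hq : q ∈ Sd P θ η H i j) : ∀ r ∈ Cross P η i j q.1 q.2, r ∈ H := by
  obtain ⟨h1, h2⟩ := Sd_mem hq
  obtain ⟨r0, hr1, hr2, hr3, hr4⟩ := hq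
  have hr0 := far_mem_cross hK hij hr1 hr2 hr3
  have := isPreconnected_iff_subset_of_disjoint_closed.1 (cross_pre hK hij h1 h2) H H' hS.cl hS.cl'
    (fun r hr => hS.cov r (cross_dist hr)) (by
      ext r; constructor
      · rintro ⟨-, a, b⟩; exact (hS.dis r a b).elim
      · intro h; exact absurd h (notMem_empty r))
  rcases this with h | h
  · exact h
  · exact (hS.dis r0 hr4 (h hr0)).elim

/-- a connected set of diameter `> 2θ` is not covered by two relatively open sets of diameter `≤ θ` -/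
lemma not_two (Y A B : Set X) (hY : IsPreconnected Y) (hA : IsOpen A) (hB : IsOpen B) (hcov : Y ⊆ A ∪ B)
    (hθ : 0 ≤ θ) (hAd : ∀ x ∈ Y ∩ A, ∀ y ∈ Y ∩ A, dist x y ≤ θ) (hBd : ∀ x ∈ Y ∩ B, ∀ y ∈ Y ∩ B, dist x y ≤ θ) :
    Metric.diam Y ≤ 2 * θ := by
  apply Metric.diam_le_of_forall_dist_le (by linarith)
  intro x hx y hy
  rcases hcov hx with hxA | hxB <;> rcases hcov hy with hyA | hyB
  · have := hAd x ⟨hx, hxA⟩ y ⟨hy, hyA⟩; linarith
  · obtain ⟨z, hz, hzA, hzB⟩ := hY A B hA hB hcov ⟨x, hx, hxA⟩ ⟨y, hy, hyB⟩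
    have h1 := hAd x ⟨hx, hxA⟩ z ⟨hz, hzA⟩
    have h2 := hBd z ⟨hz, hzB⟩ y ⟨hy, hyB⟩
    have h3 := dist_triangle x z y
    linarith
  · obtain ⟨z, hz, hzA, hzB⟩ := hY A B hA hB hcov ⟨y, hy, hyA⟩ ⟨x, hx, hxB⟩
    have h1 := hAd z ⟨hz, hzA⟩ y ⟨hy, hyA⟩
    have h2 := hBd x ⟨hx, hxB⟩ z ⟨hz, hzB⟩
    have h3 := dist_triangle x z y
    linarith
  · have := hBd x ⟨hx, hxB⟩ y ⟨hy, hyB⟩; linarith

lemma isOpen_near (S : Set X) (η : ℝ) : IsOpen {y : X | ∃ x ∈ S, dist x y < η} := by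
  have : {y : X | ∃ x ∈ S, dist x y < η} = ⋃ x ∈ S, {y | dist x y < η} := by
    ext y; simp
  rw [this]
  exact isOpen_biUnion fun x _ => isOpen_lt (by fun_prop) continuous_const

lemma compat1 (hK : Consts P c δ θ η) (hS : Sides η H H') {i l j : Fin n} (hij : i ≠ j) (hlj : l ≠ j)
    {q : X × X} (h1 : q ∈ Sd P θ η H i j) (h2 : q ∈ Sd P θ η H' l j) : False := by
  have c1 := cross_side hK hS hij h1
  have c2 := cross_side hK hS.symm hlj h2
  obtain ⟨a1, a2⟩ := Sd_mem h1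
  obtain ⟨b1, b2⟩ := Sd_mem h2
  have hd : ¬ Metric.diam (connectedComponentIn (P j) q.2) ≤ 2 * θ := by
    have := hK.cuts.diam j q.2 a2
    have := hK.hδ
    have := hK.hη
    linarith
  have hex : ∃ y0 ∈ connectedComponentIn (P j) q.2, (∀ x' ∈ connectedComponentIn (P i) q.1, η ≤ dist x' y0) ∧
      (∀ x' ∈ connectedComponentIn (P l) q.1, η ≤ dist x' y0) := by
    by_contra hcon
    push Not at hcon
    apply hd
    apply not_two _ {y : X | ∃ x ∈ connectedComponentIn (P i) q.1, dist x y < η}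
      {y : X | ∃ x ∈ connectedComponentIn (P l) q.1, dist x y < η} isPreconnected_connectedComponentIn
      (isOpen_near _ _) (isOpen_near _ _) _ hK.hθ.le
    · rintro y ⟨hy, x1, hx1, hd1⟩ y' ⟨hy', x2, hx2, hd2⟩
      exact (hK.near i j hij x1 x2 y y' (by rw [← compIn_eq hx1]; exact hx2)
        (by rw [← compIn_eq hy]; exact hy') hd1 hd2).2.le
    · rintro y ⟨hy, x1, hx1, hd1⟩ y' ⟨hy', x2, hx2, hd2⟩
      exact (hK.near l j hlj x1 x2 y y' (by rw [← compIn_eq hx1]; exact hx2)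
        (by rw [← compIn_eq hy]; exact hy') hd1 hd2).2.le
    · intro y hy
      by_cases h : ∀ x' ∈ connectedComponentIn (P i) q.1, η ≤ dist x' y
      · obtain ⟨x, hx, hxd⟩ := hcon y hy h
        exact Or.inr ⟨x, hx, hxd⟩
      · push Not at h
        obtain ⟨x, hx, hxd⟩ := h
        exact Or.inl ⟨x, hx, hxd⟩
  obtain ⟨y0, hy0, hk1, hk2⟩ := hex
  exact hS.dis (q.1, y0) (c1 _ ⟨mem_connectedComponentIn a1, hy0, Or.inr hk1⟩)
    (c2 _ ⟨mem_connectedComponentIn b1, hy0, Or.inr hk2⟩)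

lemma compat2 (hK : Consts P c δ θ η) (hS : Sides η H H') {i l j : Fin n} (hij : i ≠ j) (hil : i ≠ l)
    {q : X × X} (h1 : q ∈ Sd P θ η H i j) (h2 : q ∈ Sd P θ η H' i l) : False := by
  have c1 := cross_side hK hS hij h1
  have c2 := cross_side hK hS.symm hil h2
  obtain ⟨a1, a2⟩ := Sd_mem h1
  obtain ⟨b1, b2⟩ := Sd_mem h2
  have hd : ¬ Metric.diam (connectedComponentIn (P i) q.1) ≤ 2 * θ := by
    have := hK.cuts.diam i q.1 a1
    have := hK.hδ
    have := hK.hη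
    linarith
  have hex : ∃ x0 ∈ connectedComponentIn (P i) q.1, (∀ y' ∈ connectedComponentIn (P j) q.2, η ≤ dist x0 y') ∧
      (∀ y' ∈ connectedComponentIn (P l) q.2, η ≤ dist x0 y') := by
    by_contra hcon
    push Not at hcon
    apply hd
    apply not_two _ {x : X | ∃ y ∈ connectedComponentIn (P j) q.2, dist y x < η}
      {x : X | ∃ y ∈ connectedComponentIn (P l) q.2, dist y x < η} isPreconnected_connectedComponentIn
      (isOpen_near _ _) (isOpen_near _ _) _ hK.hθ.le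
    · rintro x ⟨hx, y1, hy1, hd1⟩ x' ⟨hx', y2, hy2, hd2⟩
      rw [dist_comm] at hd1 hd2
      exact (hK.near i j hij x x' y1 y2 (by rw [← compIn_eq hx]; exact hx')
        (by rw [← compIn_eq hy1]; exact hy2) hd1 hd2).1.le
    · rintro x ⟨hx, y1, hy1, hd1⟩ x' ⟨hx', y2, hy2, hd2⟩
      rw [dist_comm] at hd1 hd2
      exact (hK.near i l hil x x' y1 y2 (by rw [← compIn_eq hx]; exact hx')
        (by rw [← compIn_eq hy1]; exact hy2) hd1 hd2).1.le
    · intro x hx
      by_cases h : ∀ y' ∈ connectedComponentIn (P j) q.2, η ≤ dist x y'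
      · obtain ⟨y, hy, hyd⟩ := hcon x hx h
        exact Or.inr ⟨y, hy, by rw [dist_comm]; exact hyd⟩
      · push Not at h
        obtain ⟨y, hy, hyd⟩ := h
        exact Or.inl ⟨y, hy, by rw [dist_comm]; exact hyd⟩
  obtain ⟨x0, hx0, hk1, hk2⟩ := hex
  exact hS.dis (x0, q.2) (c1 _ ⟨hx0, mem_connectedComponentIn a2, Or.inl hk1⟩)
    (c2 _ ⟨hx0, mem_connectedComponentIn b2, Or.inl hk2⟩)

lemma exists_eps0 (hK : Consts P c δ θ η) (hS : Sides η H H') :
    ∃ ε : ℝ, 0 < ε ∧ (∀ i l j : Fin n, i ≠ j → l ≠ j → ∀ q ∈ Sd P θ η H i j, ∀ q' ∈ Sd P θ η H' l j, ε ≤ dist q q') ∧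
      (∀ i j l : Fin n, i ≠ j → i ≠ l → ∀ q ∈ Sd P θ η H i j, ∀ q' ∈ Sd P θ η H' i l, ε ≤ dist q q') := by
  obtain ⟨e1, h1, h1'⟩ := exists_unif (ι := Fin n × Fin n × Fin n) (fun t e => t.1 ≠ t.2.2 → t.2.1 ≠ t.2.2 →
      ∀ q ∈ Sd P θ η H t.1 t.2.2, ∀ q' ∈ Sd P θ η H' t.2.1 t.2.2, e ≤ dist q q')
    (by
      intro t a b ha hab hb x1 x2 q hq q' hq'
      exact hab.trans (hb x1 x2 q hq q' hq'))
    (by
      rintro ⟨i, l, j⟩
      by_cases hne : i ≠ j ∧ l ≠ j
      · obtain ⟨e, he, h⟩ := exists_sep (Sd_closed (θ := θ) (η := η) hK.cuts hS.cl i j).isCompact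
          (Sd_closed (θ := θ) (η := η) hK.cuts hS.cl' l j).isCompact
          (fun q hq hq' => compat1 hK hS hne.1 hne.2 hq hq')
        exact ⟨e, he, fun _ _ => h⟩
      · exact ⟨1, one_pos, fun a b => absurd ⟨a, b⟩ hne⟩)
  obtain ⟨e2, h2, h2'⟩ := exists_unif (ι := Fin n × Fin n × Fin n) (fun t e => t.1 ≠ t.2.1 → t.1 ≠ t.2.2 →
      ∀ q ∈ Sd P θ η H t.1 t.2.1, ∀ q' ∈ Sd P θ η H' t.1 t.2.2, e ≤ dist q q')
    (by
      intro t a b ha hab hb x1 x2 q hq q' hq'
      exact hab.trans (hb x1 x2 q hq q' hq'))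
    (by
      rintro ⟨i, j, l⟩
      by_cases hne : i ≠ j ∧ i ≠ l
      · obtain ⟨e, he, h⟩ := exists_sep (Sd_closed (θ := θ) (η := η) hK.cuts hS.cl i j).isCompact
          (Sd_closed (θ := θ) (η := η) hK.cuts hS.cl' i l).isCompact
          (fun q hq hq' => compat2 hK hS hne.1 hne.2 hq hq')
        exact ⟨e, he, fun _ _ => h⟩
      · exact ⟨1, one_pos, fun a b => absurd ⟨a, b⟩ hne⟩)
  refine ⟨min e1 e2, lt_min h1 h2, ?_, ?_⟩
  · intro i l j a b q hq q' hq'
    exact (min_le_left _ _).trans (h1' (i, l, j) a b q hq q' hq')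
  · intro i j l a b q hq q' hq'
    exact (min_le_right _ _).trans (h2' (i, j, l) a b q hq q' hq')

end

end MP4b5926
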