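import Pool.Agent.Lib.MP_4b5926_gt.MLChain

set_option autoImplicit false
set_option linter.unusedSectionVars false

namespace MP4b5926

open Set Metric

section
variable {X : Type} [MetricSpace X] [CompactSpace X]

/-- chainable spaces have semispan zero (Lelek) -/
theorem semispan_of_chainable (hC : Chainable X) (Z : Set (X × X)) (hZc : IsCompact Z) (hZ : IsConnected Z)
    (hsub : Prod.snd '' Z ⊆ Prod.fst '' Z) : ∃ x : X, (x, x) ∈ Z := by
  classical
  by_contra hcon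
  push Not at hcon
  obtain ⟨z00, hz00, hmin⟩ := hZc.exists_isMinOn hZ.nonempty (f := fun q : X × X => dist q.1 q.2) (by fun_prop)
  have hρ0 : 0 < dist z00.1 z00.2 := by
    apply dist_pos.2
    intro he
    apply hcon z00.1
    have : (z00.1, z00.1) = z00 := Prod.ext rfl he
    rw [this]; exact hz00
  have hZd : ∀ z ∈ Z, dist z00.1 z00.2 ≤ dist z.1 z.2 := fun z hz => hmin hz
  obtain ⟨n, C, hCo, -, hCd, hCu, hCC⟩ := hC _ hρ0
  have hmem : ∀ x : X, ∃ i, x ∈ C i := fun x => by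
    have : x ∈ ⋃ i, C i := by rw [hCu]; trivial
    exact mem_iUnion.1 this
  have hne : ∀ z ∈ Z, ∀ i j, z.1 ∈ C i → z.2 ∈ C j → i ≠ j := by
    rintro z hz i j hi hj rfl
    have h1 := dist_le_diam hi hj
    have h2 := hCd i
    have h3 := hZd z hz
    linarith
  -- the order of the two tokens is well defined
  have hwd : ∀ z ∈ Z, ∀ i j i' j' : Fin n, z.1 ∈ C i → z.2 ∈ C j → z.1 ∈ C i' → z.2 ∈ C j' → (i : ℕ) < j → (i' : ℕ) < j' := by
    intro z hz i j i' j' hi hj hi' hj' hij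
    have h1 := (hCC i i').1 ⟨z.1, hi, hi'⟩
    have h2 := (hCC j j').1 ⟨z.2, hj, hj'⟩
    have h3 := hne z hz i' j' hi' hj'
    have h4 : (i' : ℕ) ≠ j' := fun h => h3 (Fin.ext h)
    by_contra hlt
    -- then i' = j and j' = i
    have h5 : (j : ℕ) = i' := by omega
    exact hne z hz i' j hi' hj (Fin.ext h5.symm)
  set L : Set (X × X) := ⋃ i : Fin n, ⋃ j : Fin n, ⋃ (_ : (i : ℕ) < j), C i ×ˢ C j with hL
  set R : Set (X × X) := ⋃ i : Fin n, ⋃ j : Fin n, ⋃ (_ : (j : ℕ) < i), C i ×ˢ C j with hR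
  have hLo : IsOpen L := isOpen_iUnion fun i => isOpen_iUnion fun j => isOpen_iUnion fun _ => (hCo i).prod (hCo j)
  have hRo : IsOpen R := isOpen_iUnion fun i => isOpen_iUnion fun j => isOpen_iUnion fun _ => (hCo i).prod (hCo j)
  have memL : ∀ z : X × X, z ∈ L ↔ ∃ i j : Fin n, (i : ℕ) < (j : ℕ) ∧ z.1 ∈ C i ∧ z.2 ∈ C j := by
    intro z; simp only [hL, mem_iUnion, mem_prod, exists_prop]
  have memR : ∀ z : X × X, z ∈ R ↔ ∃ i j : Fin n, (j : ℕ) < (i : ℕ) ∧ z.1 ∈ C i ∧ z.2 ∈ C j := by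
    intro z; simp only [hR, mem_iUnion, mem_prod, exists_prop]
  have hcov : Z ⊆ L ∪ R := by
    intro z hz
    obtain ⟨i, hi⟩ := hmem z.1
    obtain ⟨j, hj⟩ := hmem z.2
    have h1 := hne z hz i j hi hj
    have h2 : (i : ℕ) ≠ j := fun h => h1 (Fin.ext h)
    rcases lt_or_gt_of_ne h2 with h | h
    · exact Or.inl ((memL z).2 ⟨i, j, h, hi, hj⟩)
    · exact Or.inr ((memR z).2 ⟨i, j, h, hi, hj⟩)
  have hdisj : ∀ z ∈ Z, z ∈ L → z ∈ R → False := by
    intro z hz h1 h2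
    obtain ⟨i, j, hij, hi, hj⟩ := (memL z).1 h1
    obtain ⟨i', j', hij', hi', hj'⟩ := (memR z).1 h2
    have := hwd z hz i j i' j' hi hj hi' hj' hij
    omega
  have hside : (∀ z ∈ Z, z ∈ L) ∨ (∀ z ∈ Z, z ∈ R) := by
    by_contra hc
    rw [not_or] at hc
    push Not at hc
    obtain ⟨⟨z1, hz1, hz1L⟩, ⟨z2, hz2, hz2R⟩⟩ := hc
    obtain ⟨z, hz, h1, h2⟩ := hZ.isPreconnected L R hLo hRo hcov
      ⟨z2, hz2, (hcov hz2).resolve_right hz2R⟩ ⟨z1, hz1, (hcov hz1).resolve_left hz1L⟩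
    exact hdisj z hz h1 h2
  -- indices of the second coordinates
  set J : Set (Fin n) := {j | ∃ z ∈ Z, z.2 ∈ C j} with hJ
  have hJne : J.Nonempty := by
    obtain ⟨j, hj⟩ := hmem z00.2
    exact ⟨j, z00, hz00, hj⟩
  rcases hside with hs | hs
  · obtain ⟨j, hjJ, hjmax⟩ := (toFinite J).exists_maximalFor (fun j => j) J hJne
    obtain ⟨z, hz, hzj⟩ := hjJ
    obtain ⟨w, hw, hwz⟩ := hsub ⟨z, hz, rfl⟩
    obtain ⟨l, hl⟩ := hmem w.2
    obtain ⟨a, b, hab, ha, hb⟩ := (memL w).1 (hs w hw)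
    have h1 := hwd w hw a b j l ha hb (by rw [hwz]; exact hzj) hl hab
    have h2 := hjmax ⟨w, hw, hl⟩ (show j ≤ l from (Fin.le_def.2 h1.le))
    have h3 : (l : ℕ) ≤ j := Fin.le_def.1 h2
    omega
  · obtain ⟨j, hjJ, hjmin⟩ := (toFinite J).exists_minimalFor (fun j => j) J hJne
    obtain ⟨z, hz, hzj⟩ := hjJ
    obtain ⟨w, hw, hwz⟩ := hsub ⟨z, hz, rfl⟩
    obtain ⟨l, hl⟩ := hmem w.2
    obtain ⟨a, b, hab, ha, hb⟩ := (memR w).1 (hs w hw)
    have h1 : (l : ℕ) < j := by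
      by_contra hlt
      have h5 := hne w hw j l (by rw [hwz]; exact hzj) hl
      have h6 : (j : ℕ) ≠ l := fun h => h5 (Fin.ext h)
      have := hwd w hw j l a b (by rw [hwz]; exact hzj) hl ha hb (by omega)
      omega
    have h2 := hjmin ⟨w, hw, hl⟩ (show l ≤ j from (Fin.le_def.2 h1.le))
    have h3 : (j : ℕ) ≤ l := Fin.le_def.1 h2
    omega

/-- **M-level theorem**, from the fold theorem: tree-like + (D) + good cuts gives chainable and
semispan zero. -/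
theorem good_main [ConnectedSpace X] (hF : FoldThm) (hT : TreeLike X) (hD : PropD X) (hG : GoodCuts X) :
    Chainable X ∧ ∀ Z : Set (X × X), IsCompact Z → IsConnected Z → Prod.snd '' Z ⊆ Prod.fst '' Z →
      ∃ x : X, (x, x) ∈ Z :=
  ⟨chainable_of_good hF hT hD hG, fun Z h1 h2 h3 =>
    semispan_of_chainable (chainable_of_good hF hT hD hG) Z h1 h2 h3⟩

end

end MP4b5926
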