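import Pool.Agent.Lib.MP_4b5926_gt.MLBase

set_option autoImplicit false

namespace MP4b5926

open Set Metric

/-- the nerve graph of a family -/
def nerve {X ι : Type*} (U : ι → Set X) : SimpleGraph ι :=
  SimpleGraph.fromRel (fun i j => (U i ∩ U j).Nonempty)

lemma nerve_adj {X ι : Type*} {U : ι → Set X} {i j : ι} (hij : i ≠ j) {x : X} (hi : x ∈ U i) (hj : x ∈ U j) :
    (nerve U).Adj i j := by
  rw [nerve, SimpleGraph.fromRel_adj]
  exact ⟨hij, Or.inl ⟨x, hi, hj⟩⟩

lemma nerve_meet {X ι : Type*} {U : ι → Set X} {i j : ι} (h : (nerve U).Adj i j) : (U i ∩ U j).Nonempty := by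
  rw [nerve, SimpleGraph.fromRel_adj] at h
  rcases h.2 with h | h
  · exact h
  · rwa [inter_comm] at h

lemma exists_walk {X ι : Type*} [TopologicalSpace X] {U : ι → Set X} (hU : ∀ i, IsOpen (U i))
    {A : Set X} (hA : IsPreconnected A) (hcov : A ⊆ ⋃ i, U i) {i j : ι}
    (hi : (U i ∩ A).Nonempty) (hj : (U j ∩ A).Nonempty) :
    ∃ w : (nerve U).Walk i j, ∀ v ∈ w.support, (U v ∩ A).Nonempty := by
  classical
  set C : Set ι := {k | ∃ w : (nerve U).Walk i k, ∀ v ∈ w.support, (U v ∩ A).Nonempty} with hC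
  by_contra hcon
  have hjC : j ∉ C := hcon
  have hiC : i ∈ C := ⟨SimpleGraph.Walk.nil, by
    intro v hv
    simp only [SimpleGraph.Walk.support_nil, List.mem_singleton] at hv
    subst hv; exact hi⟩
  have h1 : IsOpen (⋃ k ∈ C, U k) := isOpen_biUnion fun k _ => hU k
  have h2 : IsOpen (⋃ k ∈ Cᶜ, U k) := isOpen_biUnion fun k _ => hU k
  have hcov2 : A ⊆ (⋃ k ∈ C, U k) ∪ (⋃ k ∈ Cᶜ, U k) := by
    intro x hx
    obtain ⟨k, hk⟩ := mem_iUnion.1 (hcov hx)
    by_cases h : k ∈ C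
    · exact Or.inl (mem_biUnion h hk)
    · exact Or.inr (mem_biUnion (show k ∈ Cᶜ from h) hk)
  obtain ⟨x, hxA, hx1, hx2⟩ := hA _ _ h1 h2 hcov2
    (by obtain ⟨x, hx, hxA⟩ := hi; exact ⟨x, hxA, mem_biUnion hiC hx⟩)
    (by obtain ⟨x, hx, hxA⟩ := hj; exact ⟨x, hxA, mem_biUnion (show j ∈ Cᶜ from hjC) hx⟩)
  simp only [mem_iUnion] at hx1 hx2
  obtain ⟨k, hk, hxk⟩ := hx1
  obtain ⟨l, hl, hxl⟩ := hx2
  have hkl : k ≠ l := by rintro rfl; exact hl hk
  obtain ⟨w, hw⟩ := hk
  apply hl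
  refine ⟨w.append (SimpleGraph.Walk.cons (nerve_adj hkl hxk hxl) SimpleGraph.Walk.nil), ?_⟩
  intro v hv
  rw [SimpleGraph.Walk.mem_support_append_iff] at hv
  rcases hv with hv | hv
  · exact hw v hv
  · simp only [SimpleGraph.Walk.support_cons, SimpleGraph.Walk.support_nil, List.mem_cons,
      List.not_mem_nil, or_false] at hv
    rcases hv with rfl | rfl
    · exact hw _ (SimpleGraph.Walk.end_mem_support w)
    · exact ⟨x, hxl, hxA⟩

/-- walks with support in two sets, in an acyclic graph -/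
lemma exists_walk_inter {ι : Type*} {G : SimpleGraph ι} (hG : G.IsAcyclic) {i j : ι}
    {S T : Set ι} (w1 : G.Walk i j) (h1 : ∀ v ∈ w1.support, v ∈ S)
    (w2 : G.Walk i j) (h2 : ∀ v ∈ w2.support, v ∈ T) :
    ∃ w : G.Walk i j, ∀ v ∈ w.support, v ∈ S ∧ v ∈ T := by
  classical
  refine ⟨w1.toPath, fun v hv => ⟨h1 v (w1.support_bypass_subset_support hv), ?_⟩⟩
  have := hG.path_unique w1.toPath w2.toPath
  rw [this] at hv
  exact h2 v (w2.support_bypass_subset_support hv)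

/-- a property which propagates along edges inside a set propagates along walks -/
lemma walk_induct {ι : Type*} {G : SimpleGraph ι} {S : Set ι} {Q : ι → Prop}
    (h : ∀ k l, G.Adj k l → k ∈ S → l ∈ S → Q k → Q l) {i j : ι} (w : G.Walk i j)
    (hw : ∀ v ∈ w.support, v ∈ S) (hi : Q i) : Q j := by
  induction w with
  | nil => exact hi
  | cons hadj w ih =>
    apply ih
    · intro v hv
      exact hw v (by rw [SimpleGraph.Walk.support_cons]; exact List.mem_cons_of_mem _ hv)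
    · refine h _ _ hadj (hw _ ?_) (hw _ ?_) hi
      · exact SimpleGraph.Walk.start_mem_support _
      · rw [SimpleGraph.Walk.support_cons]
        exact List.mem_cons_of_mem _ (SimpleGraph.Walk.start_mem_support _)

section
variable {X : Type} [MetricSpace X] [CompactSpace X]

/-- tree-like continua are hereditarily unicoherent -/
lemma inter_isPreconnected (hT : TreeLike X) {A B : Set X} (hAc : IsClosed A) (hBc : IsClosed B)
    (hA : IsPreconnected A) (hB : IsPreconnected B) : IsPreconnected (A ∩ B) := by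
  rw [isPreconnected_iff_subset_of_disjoint_closed]
  intro u v hu hv huv hemp
  by_contra hcon
  push Not at hcon
  obtain ⟨hnu, hnv⟩ := hcon
  rw [not_subset] at hnu hnv
  obtain ⟨p', hp', hp'u⟩ := hnu
  obtain ⟨p, hp, hpv⟩ := hnv
  have hpu : p ∈ u := (huv hp).resolve_right hpv
  have hp'v : p' ∈ v := (huv hp').resolve_left hp'u
  set E : Set X := A ∩ B ∩ u with hE
  set E' : Set X := A ∩ B ∩ v with hE'
  have hEc : IsCompact E := ((hAc.inter hBc).inter hu).isCompact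
  have hE'c : IsCompact E' := ((hAc.inter hBc).inter hv).isCompact
  obtain ⟨R, hR, hRd⟩ := exists_sep hEc hE'c (fun y hy hy' => by
    have : y ∈ A ∩ B ∩ (u ∩ v) := ⟨hy.1, hy.2, hy'.2⟩
    rw [hemp] at this
    exact this)
  have hEne : E.Nonempty := ⟨p, hp, hpu⟩
  -- the middle region
  set f : X → ℝ := fun x => Metric.infDist x E with hf
  have hfc : Continuous f := Metric.continuous_infDist_pt E
  have hfE' : ∀ e ∈ E', R ≤ f e := by
    intro e he
    apply (Metric.le_infDist hEne).2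
    intro y hy
    rw [dist_comm]; exact hRd y hy e he
  have hfE : ∀ e ∈ E, f e = 0 := fun e he => Metric.infDist_zero_of_mem he
  have hAm : IsCompact {a : X | a ∈ A ∧ R/3 ≤ f a ∧ f a ≤ 2*R/3} := by
    apply IsClosed.isCompact
    exact hAc.inter ((isClosed_le continuous_const hfc).inter (isClosed_le hfc continuous_const))
  obtain ⟨ε0, hε0, hε0d⟩ := exists_sep hAm hBc.isCompact (fun y hy hyB => by
    obtain ⟨hyA, h1, h2⟩ := hy
    rcases huv ⟨hyA, hyB⟩ with h | h
    · have := hfE y ⟨⟨hyA, hyB⟩, h⟩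
      linarith
    · have := hfE' y ⟨⟨hyA, hyB⟩, h⟩
      linarith)
  obtain ⟨n, U, hUo, hUn, hUd, hUc, -, hUt⟩ := hT (min ε0 (R/9)) (lt_min hε0 (by linarith))
  have hUd1 : ∀ i, ∀ x ∈ U i, ∀ y ∈ U i, dist x y < ε0 := fun i x hx y hy =>
    lt_of_le_of_lt (dist_le_diam hx hy) ((hUd i).trans_le (min_le_left _ _))
  have hUd2 : ∀ i, ∀ x ∈ U i, ∀ y ∈ U i, dist x y < R/9 := fun i x hx y hy =>
    lt_of_le_of_lt (dist_le_diam hx hy) ((hUd i).trans_le (min_le_right _ _))
  have hcovA : ∀ S : Set X, S ⊆ ⋃ i, U i := fun S => by rw [hUc]; exact subset_univ _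
  obtain ⟨i, hi⟩ := mem_iUnion.1 (hcovA univ (mem_univ p))
  obtain ⟨j, hj⟩ := mem_iUnion.1 (hcovA univ (mem_univ p'))
  obtain ⟨w1, hw1⟩ := exists_walk hUo hA (hcovA A) ⟨p, hi, hp.1⟩ ⟨p', hj, hp'.1⟩
  obtain ⟨w2, hw2⟩ := exists_walk hUo hB (hcovA B) ⟨p, hi, hp.2⟩ ⟨p', hj, hp'.2⟩
  obtain ⟨w, hw⟩ := exists_walk_inter (G := nerve U) hUt.2 (S := {k | (U k ∩ A).Nonempty})
    (T := {k | (U k ∩ B).Nonempty}) w1 hw1 w2 hw2
  have key : ∀ k, (U k ∩ A).Nonempty ∧ (U k ∩ B).Nonempty → ∀ a ∈ U k ∩ A, f a < R/3 ∨ 2*R/3 < f a := by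
    rintro k ⟨-, ⟨b, hbU, hbB⟩⟩ a ⟨haU, haA⟩
    by_contra hc
    push Not at hc
    have h1 := hε0d a ⟨haA, hc.1, hc.2⟩ b hbB
    have h2 := hUd1 k a haU b hbU
    linarith
  have hlip : ∀ x y : X, f x ≤ f y + dist x y := fun x y => Metric.infDist_le_infDist_add_dist
  have hQ : ∀ a ∈ U j ∩ A, f a < R/3 := by
    refine walk_induct (G := nerve U) (S := {k | (U k ∩ A).Nonempty ∧ (U k ∩ B).Nonempty})
      (Q := fun k => ∀ a ∈ U k ∩ A, f a < R/3) ?_ w hw ?_
    · intro k l hkl hk hl hQk a ha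
      obtain ⟨b, hb⟩ := hk.1
      obtain ⟨c, hck, hcl⟩ := nerve_meet hkl
      rcases key l hl a ha with h | h
      · exact h
      · exfalso
        have h1 := hQk b hb
        have h2 := hUd2 k b hb.1 c hck
        have h3 := hUd2 l c hcl a ha.1
        have h4 := hlip a b
        have h5 := dist_triangle a c b
        rw [dist_comm a c, dist_comm c b] at h5
        linarith
    · intro a ha
      have h1 := hUd2 i a ha.1 p hi
      have h2 := hlip a p
      rw [hfE p ⟨hp, hpu⟩] at h2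
      linarith
  have h1 := hQ p' ⟨hj, hp'.1⟩
  have h2 := hfE' p' ⟨hp', hp'v⟩
  linarith
end

end MP4b5926
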