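import Mathlib

/-!
# Limits of finite reflexive graphs: the quotient space

A system is a sequence of finite sets with a reflexive symmetric relation (near) and bonding maps
`h n` such that `x near y near z` at level `n + 1` implies `h x near h z` at level `n`.  The
threads form a compact pseudometric space whose zero distance relation is: near at all levels.
-/

set_option autoImplicit false

open Set Filter Topology Relation Uniformity

namespace MP4b5926.QLim

/-- A sequence of finite reflexive symmetric relations with contracting bonding maps. -/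
structure Sys where
  W : ℕ → Type
  fin : ∀ n, Finite (W n)
  ne : ∀ n, Nonempty (W n)
  r : ∀ n, W n → W n → Prop
  rfl' : ∀ n x, r n x x
  symm' : ∀ n x y, r n x y → r n y x
  h : ∀ n, W (n + 1) → W n
  con : ∀ n x y z, r (n + 1) x y → r (n + 1) y z → r n (h n x) (h n z)

variable (S : Sys)

/-- threads -/
def Thr : Type := {x : ∀ n, S.W n // ∀ n, S.h n (x (n + 1)) = x n}

variable {S}

/-- near at level `n` -/
def E (S : Sys) (n : ℕ) : Set (Thr S × Thr S) := {p | S.r n (p.1.1 n) (p.2.1 n)}

lemma E_succ (n : ℕ) : E S (n + 1) ⊆ E S n := by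
  rintro ⟨x, y⟩ h
  have := S.con n _ _ _ h (S.rfl' _ _)
  rw [x.2, y.2] at this
  exact this

lemma E_anti {m n : ℕ} (h : m ≤ n) : E S n ⊆ E S m := by
  induction h with
  | refl => exact subset_rfl
  | step _ ih => exact (E_succ _).trans ih

/-- the filter basis of the uniform structure -/
def basis (S : Sys) : FilterBasis (Thr S × Thr S) where
  sets := range (E S)
  nonempty := ⟨_, mem_range_self 0⟩
  inter_sets := by
    rintro _ _ ⟨m, rfl⟩ ⟨n, rfl⟩
    exact ⟨_, mem_range_self (max m n),
      subset_inter (E_anti (le_max_left _ _)) (E_anti (le_max_right _ _))⟩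

/-- the uniform structure of the threads -/
@[reducible] def unif (S : Sys) : UniformSpace (Thr S) :=
  UniformSpace.ofCore <| UniformSpace.Core.mkOfBasis (basis S)
    (by rintro _ ⟨n, rfl⟩ x; exact S.rfl' _ _)
    (by
      rintro _ ⟨n, rfl⟩
      refine ⟨_, mem_range_self n, ?_⟩
      rintro ⟨x, y⟩ h
      exact S.symm' _ _ _ h)
    (by
      rintro _ ⟨n, rfl⟩
      refine ⟨_, mem_range_self (n + 1), ?_⟩
      rintro ⟨x, z⟩ ⟨y, hxy, hyz⟩
      have := S.con n _ _ _ hxy hyz
      rw [x.2, z.2] at this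
      exact this)

lemma hasBasis (S : Sys) : (@uniformity _ (unif S)).HasBasis (fun _ : ℕ => True) (E S) := by
  have h1 : (@uniformity _ (unif S)) = (basis S).filter := rfl
  rw [h1]
  constructor
  intro t
  rw [FilterBasis.mem_filter_iff]
  constructor
  · rintro ⟨_, ⟨n, rfl⟩, h⟩
    exact ⟨n, trivial, h⟩
  · rintro ⟨n, _, h⟩
    exact ⟨_, mem_range_self n, h⟩

/-- a pseudometric on the threads -/
noncomputable instance pm (S : Sys) : PseudoMetricSpace (Thr S) :=
  letI := unif S
  haveI : IsCountablyGenerated (𝓤 (Thr S)) := (hasBasis S).isCountablyGenerated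
  UniformSpace.pseudoMetricSpace (Thr S)

lemma pm_basis (S : Sys) : (𝓤 (Thr S)).HasBasis (fun _ : ℕ => True) (E S) := hasBasis S

lemma U1 {ε : ℝ} (hε : 0 < ε) : ∃ n, ∀ x y : Thr S, S.r n (x.1 n) (y.1 n) → dist x y < ε := by
  obtain ⟨n, _, h⟩ := (pm_basis S).mem_iff.1 (Metric.dist_mem_uniformity hε)
  exact ⟨n, fun x y hxy => h (show (x, y) ∈ E S n from hxy)⟩

lemma U2 (n : ℕ) : ∃ ε : ℝ, 0 < ε ∧ ∀ x y : Thr S, dist x y < ε → S.r n (x.1 n) (y.1 n) := by
  have h : E S n ∈ 𝓤 (Thr S) := (pm_basis S).mem_of_mem trivial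
  obtain ⟨ε, hε, h2⟩ := Metric.mem_uniformity_dist.1 h
  exact ⟨ε, hε, fun x y hxy => h2 hxy⟩

lemma dist_zero {x y : Thr S} : dist x y = 0 ↔ ∀ n, S.r n (x.1 n) (y.1 n) := by
  constructor
  · intro h n
    obtain ⟨ε, hε, h2⟩ := U2 (S := S) n
    exact h2 x y (h ▸ hε)
  · intro h
    by_contra hne
    obtain ⟨n, hn⟩ := U1 (S := S) (lt_of_le_of_ne dist_nonneg (Ne.symm hne))
    exact lt_irrefl _ (hn x y (h n))

/-- sequences compatible below `m` -/
lemma ext_down (base : ∀ n, S.W n) (m : ℕ) (u : S.W m) :
    ∃ x : ∀ n, S.W n, x m = u ∧ ∀ k < m, S.h k (x (k + 1)) = x k := by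
  classical
  induction m with
  | zero => exact ⟨Function.update base 0 u, by simp, fun k hk => absurd hk (Nat.not_lt_zero _)⟩
  | succ m ih =>
    obtain ⟨x, hx, hx2⟩ := ih (S.h m u)
    refine ⟨Function.update x (m + 1) u, by simp, fun k hk => ?_⟩
    rcases Nat.lt_succ_iff_lt_or_eq.1 hk with h | h
    · rw [Function.update_of_ne (by omega), Function.update_of_ne (by omega)]
      exact hx2 k h
    · subst h
      simp [hx]

/-- compactness of the product: a thread in the intersection of decreasing conditions -/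
lemma exists_thread (C : ℕ → Set (∀ n, S.W n))
    (hC : ∀ m, ∀ x ∈ C m, ∀ y : ∀ n, S.W n, (∀ k ≤ m, y k = x k) → y ∈ C m)
    (hdec : ∀ m, C (m + 1) ⊆ C m)
    (hcomp : ∀ m, ∀ x ∈ C m, ∀ k < m, S.h k (x (k + 1)) = x k)
    (hne : ∀ m, (C m).Nonempty) : ∃ x : Thr S, ∀ m, x.1 ∈ C m := by
  let _ : ∀ n, TopologicalSpace (S.W n) := fun _ => ⊥
  have _ : ∀ n, DiscreteTopology (S.W n) := fun _ => ⟨rfl⟩
  have _ := S.fin
  have hclosed : ∀ m, IsClosed (C m) := by
    intro m
    rw [← isOpen_compl_iff, isOpen_iff_forall_mem_open]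
    intro x hx
    refine ⟨{y | ∀ k ≤ m, y k = x k}, ?_, ?_, fun k _ => rfl⟩
    · intro y hy hyC
      exact hx (hC m y hyC x fun k hk => (hy k hk).symm)
    · have : {y : ∀ n, S.W n | ∀ k ≤ m, y k = x k} = ⋂ k ∈ Iic m, (fun y => y k) ⁻¹' {x k} := by
        ext y
        simp
      rw [this]
      exact (finite_Iic m).isOpen_biInter fun k _ =>
        (isOpen_discrete _).preimage (continuous_apply k)
  obtain ⟨x, hx⟩ := IsCompact.nonempty_iInter_of_sequence_nonempty_isCompact_isClosed C
    hdec hne (hclosed 0).isCompact hclosed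
  rw [mem_iInter] at hx
  exact ⟨⟨x, fun n => hcomp (n + 1) x (hx _) n (Nat.lt_succ_self n)⟩, hx⟩

lemma isCompact_level (S : Sys) (n₀ : ℕ) (A : Set (S.W n₀)) :
    IsCompact {x : Thr S | x.1 n₀ ∈ A} := by
  let _ : ∀ n, TopologicalSpace (S.W n) := fun _ => ⊥
  have _ : ∀ n, DiscreteTopology (S.W n) := fun _ => ⟨rfl⟩
  have _ := S.fin
  have hcl : IsClosed {x : ∀ n, S.W n | ∀ n, S.h n (x (n + 1)) = x n} := by
    have : {x : ∀ n, S.W n | ∀ n, S.h n (x (n + 1)) = x n} =
        ⋂ n, {x | S.h n (x (n + 1)) = x n} := by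
      ext x
      simp
    rw [this]
    refine isClosed_iInter fun n => isClosed_eq ?_ (continuous_apply n)
    exact continuous_of_discreteTopology.comp (continuous_apply (n + 1))
  have hk : IsCompact {x : ∀ n, S.W n | ∀ n, S.h n (x (n + 1)) = x n} := hcl.isCompact
  have hc : CompactSpace {x : ∀ n, S.W n | ∀ n, S.h n (x (n + 1)) = x n} :=
    isCompact_iff_compactSpace.1 hk
  let f : {x : ∀ n, S.W n | ∀ n, S.h n (x (n + 1)) = x n} → Thr S := fun x => ⟨x.1, x.2⟩
  have hev : ∀ n, Continuous fun x : {x : ∀ n, S.W n | ∀ n, S.h n (x (n + 1)) = x n} => x.1 n :=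
    fun n => (continuous_apply n).comp continuous_subtype_val
  have hf : Continuous f := by
    rw [Metric.continuous_iff']
    intro a ε hε
    obtain ⟨n, hn⟩ := U1 (S := S) hε
    have : IsOpen {x : {x : ∀ n, S.W n | ∀ n, S.h n (x (n + 1)) = x n} | x.1 n = a.1 n} :=
      (isOpen_discrete {a.1 n}).preimage (hev n)
    filter_upwards [this.mem_nhds (rfl : a.1 n = a.1 n)] with x hx
    refine hn _ _ ?_
    change S.r n (x.1 n) (a.1 n)
    have : x.1 n = a.1 n := hx
    rw [this]
    exact S.rfl' _ _
  have himg : {x : Thr S | x.1 n₀ ∈ A} = f '' ((fun x => x.1 n₀) ⁻¹' A) := by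
    ext x
    constructor
    · intro hx
      exact ⟨⟨x.1, x.2⟩, hx, rfl⟩
    · rintro ⟨y, hy, rfl⟩
      exact hy
  rw [himg]
  exact ((isClosed_discrete A).preimage (hev n₀)).isCompact.image hf

instance compact (S : Sys) : CompactSpace (Thr S) := by
  refine ⟨?_⟩
  have := isCompact_level S 0 univ
  simpa using this

lemma nonempty_thr (S : Sys) : Nonempty (Thr S) := by
  classical
  have base : ∀ n, S.W n := fun n => (S.ne n).some
  obtain ⟨x, _⟩ := exists_thread (S := S) (fun m => {x | ∀ k < m, S.h k (x (k + 1)) = x k})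
    (by
      intro m x hx y hy k hk
      rw [hy k (le_of_lt hk), hy (k + 1) hk]
      exact hx k hk)
    (fun m x hx k hk => hx k (Nat.lt_succ_of_lt hk))
    (fun m x hx k hk => hx k hk)
    (fun m => by
      obtain ⟨x, _, hx⟩ := ext_down base m (base m)
      exact ⟨x, hx⟩)
  exact ⟨x⟩

/-- two elements of level `m` that are near give near elements below -/
lemma near_down {m : ℕ} {x y : ∀ n, S.W n} (hx : ∀ k < m, S.h k (x (k + 1)) = x k)
    (hy : ∀ k < m, S.h k (y (k + 1)) = y k) (h : S.r m (x m) (y m)) {k : ℕ} (hk : k ≤ m) :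
    S.r k (x k) (y k) := by
  induction hk using Nat.decreasingInduction with
  | self => exact h
  | of_succ k hk ih =>
    have := S.con k _ _ _ ih (S.rfl' _ _)
    rw [hx k hk, hy k hk] at this
    exact this

lemma eq_down {m : ℕ} {x y : ∀ n, S.W n} (hx : ∀ k < m, S.h k (x (k + 1)) = x k)
    (hy : ∀ k < m, S.h k (y (k + 1)) = y k) (h : x m = y m) {k : ℕ} (hk : k ≤ m) :
    x k = y k := by
  induction hk using Nat.decreasingInduction with
  | self => exact h
  | of_succ k hk ih => rw [← hx k hk, ← hy k hk, ih]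

/-- if all levels are connected then the space of threads is connected -/
lemma connected (hconn : ∀ n x y, ReflTransGen (S.r n) x y) : ConnectedSpace (Thr S) := by
  classical
  have _ : Nonempty (Thr S) := nonempty_thr S
  have base : ∀ n, S.W n := fun n => (S.ne n).some
  have key : PreconnectedSpace (Thr S) := by
    rw [preconnectedSpace_iff_clopen]
    intro A hA
    by_contra hcon
    push Not at hcon
    obtain ⟨h1, h2⟩ := hcon
    have hAne : A.Nonempty := h1
    have hBne : Aᶜ.Nonempty := by
      rwa [nonempty_compl]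
    obtain ⟨δ, hδ, hdis⟩ := (disjoint_compl_right : Disjoint A Aᶜ).exists_thickenings
      hA.isClosed.isCompact hA.compl.isClosed
    obtain ⟨n, hn⟩ := U1 (S := S) hδ
    have hsep : ∀ a ∈ A, ∀ b ∈ Aᶜ, ¬ S.r n (a.1 n) (b.1 n) := by
      intro a ha b hb hr
      refine (Set.disjoint_left.1 hdis) (a := b) ?_ (Metric.self_subset_thickening hδ _ hb)
      rw [Metric.mem_thickening_iff]
      exact ⟨a, ha, by rw [dist_comm]; exact hn a b hr⟩
    obtain ⟨a, ha⟩ := hAne
    obtain ⟨b, hb⟩ := hBne
    -- a thread outside both images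
    obtain ⟨x, hx⟩ := exists_thread (S := S)
      (fun m => {x | (∀ k < m, S.h k (x (k + 1)) = x k) ∧
        (n ≤ m → (∀ a ∈ A, a.1 n ≠ x n) ∧ ∀ b ∈ Aᶜ, b.1 n ≠ x n)})
      (by
        rintro m x ⟨hx, hx2⟩ y hy
        refine ⟨fun k hk => ?_, fun hk => ?_⟩
        · rw [hy k (le_of_lt hk), hy (k + 1) hk]
          exact hx k hk
        · rw [hy n hk]
          exact hx2 hk)
      (by
        rintro m x ⟨hx, hx2⟩
        exact ⟨fun k hk => hx k (Nat.lt_succ_of_lt hk), fun hk => hx2 (Nat.le_succ_of_le hk)⟩)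
      (fun m x hx k hk => hx.1 k hk)
      (by
        intro m
        by_cases hnm : n ≤ m
        · by_contra hemp
          rw [not_nonempty_iff_eq_empty] at hemp
          have hall : ∀ x : ∀ n, S.W n, (∀ k < m, S.h k (x (k + 1)) = x k) →
              (∃ a ∈ A, a.1 n = x n) ∨ ∃ b ∈ Aᶜ, b.1 n = x n := by
            intro x hx
            by_contra hc
            push Not at hc
            have : x ∈ (∅ : Set (∀ n, S.W n)) := by
              rw [← hemp]
              exact ⟨hx, fun _ => ⟨hc.1, hc.2⟩⟩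
            exact this
          have step : ∀ u v : S.W m, ReflTransGen (S.r m) u v →
              ∀ x y : ∀ n, S.W n, (∀ k < m, S.h k (x (k + 1)) = x k) →
              (∀ k < m, S.h k (y (k + 1)) = y k) → x m = u → y m = v →
              (∃ a ∈ A, a.1 n = x n) → ∃ a ∈ A, a.1 n = y n := by
            intro u v huv
            induction huv with
            | refl =>
              intro x y hx hy hxu hyu hA'
              have : x n = y n := eq_down hx hy (hxu.trans hyu.symm) hnm
              rw [← this]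
              exact hA'
            | @tail v w _ hvw ih =>
              intro x y hx hy hxu hyw hA'
              obtain ⟨z, hz, hz2⟩ := ext_down base m v
              obtain ⟨a', ha', e1⟩ := ih x z hx hz2 hxu hz hA'
              rcases hall y hy with h | ⟨b', hb', e2⟩
              · exact h
              · exfalso
                refine hsep a' ha' b' hb' ?_
                rw [e1, e2]
                refine near_down hz2 hy ?_ hnm
                rw [hz, hyw]
                exact hvw
          obtain ⟨a', ha', e⟩ := step (a.1 m) (b.1 m) (hconn m _ _) a.1 b.1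
            (fun k _ => a.2 k) (fun k _ => b.2 k) rfl rfl ⟨a, ha, rfl⟩
          refine hsep a' ha' b hb ?_
          rw [e]
          exact S.rfl' _ _
        · obtain ⟨x, _, hx⟩ := ext_down base m (base m)
          exact ⟨x, hx, fun h => absurd h hnm⟩)
    obtain ⟨_, h3⟩ := hx n
    obtain ⟨h4, h5⟩ := h3 le_rfl
    by_cases hxA : x ∈ A
    · exact h4 x hxA rfl
    · exact h5 x hxA rfl
  exact { toPreconnectedSpace := key, toNonempty := inferInstance }

end MP4b5926.QLim
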