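import Pool.Agent.Lib.MP_4b5926_gt.QLim

/-!
# A sequence of finite trees that gives the negation (finite, combinatorial hypotheses)
-/

set_option autoImplicit false

open Set Filter Topology Relation Uniformity

namespace MP4b5926.QLim

/-- equal or adjacent -/
def near {V : Type} (G : SimpleGraph V) (x y : V) : Prop := x = y ∨ G.Adj x y

/-- near in both coordinates -/
def near2 {V : Type} (G : SimpleGraph V) (p q : V × V) : Prop := near G p.1 q.1 ∧ near G p.2 q.2

lemma near_rfl {V : Type} (G : SimpleGraph V) (x : V) : near G x x := Or.inl rfl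

lemma near_symm {V : Type} {G : SimpleGraph V} {x y : V} (h : near G x y) : near G y x :=
  h.elim (fun h => Or.inl h.symm) fun h => Or.inr h.symm

lemma near2_symm {V : Type} {G : SimpleGraph V} {p q : V × V} (h : near2 G p q) : near2 G q p :=
  ⟨near_symm h.1, near_symm h.2⟩

/-- no triangle in a tree -/
lemma no_tri {V : Type} {G : SimpleGraph V} (hG : G.IsTree) {u v w : V} (huv : u ≠ v) (hvw : v ≠ w)
    (huw : u ≠ w) (h1 : near G u v) (h2 : near G v w) (h3 : near G u w) : False := by
  classical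
  have a1 := h1.resolve_left huv
  have a2 := h2.resolve_left hvw
  have a3 := h3.resolve_left huw
  have := hG.isAcyclic.cliqueFree (n := 3) le_rfl {u, v, w}
  apply this
  rw [SimpleGraph.is3Clique_triple_iff]
  exact ⟨a1, a3, a2⟩

/-- A surjective map of trees that sends edges to edges or vertices is onto on edges. -/
lemma edge_lift {V W : Type} (T : SimpleGraph V) (S : SimpleGraph W) (hT : T.IsTree) (hS : S.IsTree)
    (f : V → W) (hf : ∀ u v, T.Adj u v → near S (f u) (f v)) (hsurj : Function.Surjective f)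
    {a b : W} (hab : S.Adj a b) : ∃ u v, T.Adj u v ∧ f u = a ∧ f v = b := by
  by_contra hcon
  push Not at hcon
  have hbr := SimpleGraph.isAcyclic_iff_forall_adj_isBridge.1 hS.isAcyclic hab
  rw [SimpleGraph.isBridge_iff] at hbr
  obtain ⟨u, hu⟩ := hsurj a
  obtain ⟨v, hv⟩ := hsurj b
  obtain ⟨q⟩ := hT.connected.preconnected u v
  have key : ∀ {x y : V}, T.Walk x y →
      (S \ SimpleGraph.fromEdgeSet {s(a, b)}).Reachable (f x) (f y) := by
    intro x y q
    induction q with
    | nil => exact SimpleGraph.Reachable.refl _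
    | @cons x y z hxy _ ih =>
      refine SimpleGraph.Reachable.trans ?_ ih
      rcases hf _ _ hxy with h | h
      · rw [h]
      · refine SimpleGraph.Adj.reachable ?_
        rw [SimpleGraph.sdiff_adj]
        refine ⟨h, ?_⟩
        intro h'
        rw [SimpleGraph.fromEdgeSet_adj] at h'
        have h1 := h'.1
        rw [mem_singleton_iff, Sym2.eq_iff] at h1
        rcases h1 with ⟨e1, e2⟩ | ⟨e1, e2⟩
        · exact hcon _ _ hxy e1 e2
        · exact hcon _ _ hxy.symm e2 e1
  have h1 := key q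
  rw [hu, hv] at h1
  exact hbr h1

section

variable (V : ℕ → Type) (G : ∀ n, SimpleGraph (V n)) (g : ∀ n, V (n + 1) → V n)

/-- the system of the trees -/
def treeSys (fin : ∀ n, Finite (V n)) (tree : ∀ n, (G n).IsTree)
    (con : ∀ n x y z, near (G (n + 1)) x y → near (G (n + 1)) y z → near (G n) (g n x) (g n z)) :
    Sys where
  W := V
  fin := fin
  ne n := (tree n).connected.nonempty
  r n := near (G n)
  rfl' _ x := near_rfl _ x
  symm' _ _ _ h := near_symm h
  h := g
  con := con

/-- the system of the pairs in `Z` -/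
def pairSys (fin : ∀ n, Finite (V n))
    (con : ∀ n x y z, near (G (n + 1)) x y → near (G (n + 1)) y z → near (G n) (g n x) (g n z))
    (Z : ∀ n, Set (V n × V n)) (Zne : ∀ n, (Z n).Nonempty)
    (Zmap : ∀ n, ∀ p ∈ Z (n + 1), (g n p.1, g n p.2) ∈ Z n) : Sys where
  W n := Z n
  fin n := by
    have := fin n
    infer_instance
  ne n := (Zne n).to_subtype
  r n p q := near2 (G n) p.1 q.1
  rfl' _ _ := ⟨near_rfl _ _, near_rfl _ _⟩
  symm' _ _ _ h := near2_symm h
  h n p := ⟨(g n p.1.1, g n p.1.2), Zmap n p.1 p.2⟩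
  con n x y z h1 h2 := ⟨con n _ _ _ h1.1 h2.1, con n _ _ _ h1.2 h2.2⟩

end

/-- extending an element of level `n` to a thread, when the bonding maps are onto -/
lemma thread_through {S : Sys} (onto : ∀ n, Function.Surjective (S.h n)) (n : ℕ) (v : S.W n) :
    ∃ x : Thr S, x.1 n = v := by
  classical
  have base : ∀ n, S.W n := fun n => (S.ne n).some
  -- going up
  have up : ∀ m, n ≤ m → ∃ x : ∀ n, S.W n, x n = v ∧ ∀ k < m, S.h k (x (k + 1)) = x k := by
    intro m hm
    induction hm with
    | refl => exact ext_down base n v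
    | @step m hm ih =>
      obtain ⟨x, hx, hx2⟩ := ih
      obtain ⟨u, hu⟩ := onto m (x m)
      have hnm : n ≤ m := hm
      refine ⟨Function.update x (m + 1) u, ?_, fun k hk => ?_⟩
      · rw [Function.update_of_ne (by omega)]
        exact hx
      · rcases Nat.lt_succ_iff_lt_or_eq.1 hk with h | h
        · rw [Function.update_of_ne (by omega), Function.update_of_ne (by omega)]
          exact hx2 k h
        · subst h
          simp [hu]
  obtain ⟨x, hx⟩ := exists_thread (S := S)
    (fun m => {x | (n ≤ m → x n = v) ∧ ∀ k < m, S.h k (x (k + 1)) = x k})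
    (by
      rintro m x ⟨hx1, hx2⟩ y hy
      refine ⟨fun h => ?_, fun k hk => ?_⟩
      · rw [hy n h]
        exact hx1 h
      · rw [hy k (le_of_lt hk), hy (k + 1) hk]
        exact hx2 k hk)
    (by
      rintro m x ⟨hx1, hx2⟩
      exact ⟨fun h => hx1 (Nat.le_succ_of_le h), fun k hk => hx2 k (Nat.lt_succ_of_lt hk)⟩)
    (fun m x hx k hk => hx.2 k hk)
    (by
      intro m
      rcases le_total n m with h | h
      · obtain ⟨x, h1, h2⟩ := up m h
        exact ⟨x, fun _ => h1, h2⟩
      · obtain ⟨x, h1, h2⟩ := ext_down base n v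
        exact ⟨x, fun _ => h1, fun k hk => h2 k (lt_of_lt_of_le hk h)⟩)
  exact ⟨x, (hx n).1 le_rfl⟩

/-- extending a near pair of level `n` to near threads -/
lemma threads_through {S : Sys}
    (onto : ∀ n a b, S.r n a b → ∃ u v, S.r (n + 1) u v ∧ S.h n u = a ∧ S.h n v = b)
    (n : ℕ) (a b : S.W n) (hab : S.r n a b) :
    ∃ x y : Thr S, x.1 n = a ∧ y.1 n = b ∧ ∀ k, S.r k (x.1 k) (y.1 k) := by
  classical
  -- the system of near pairs
  have hne : ∀ m, ∃ p : S.W m × S.W m, S.r m p.1 p.2 := fun m =>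
    ⟨((S.ne m).some, (S.ne m).some), S.rfl' _ _⟩
  let P : Sys :=
    { W := fun m => {p : S.W m × S.W m // S.r m p.1 p.2}
      fin := fun m => by
        have := S.fin m
        infer_instance
      ne := fun m => by
        obtain ⟨p, hp⟩ := hne m
        exact ⟨⟨p, hp⟩⟩
      r := fun m p q => p = q
      rfl' := fun _ _ => rfl
      symm' := fun _ _ _ h => h.symm
      h := fun m p => ⟨(S.h m p.1.1, S.h m p.1.2), S.con m _ _ _ p.2 (S.rfl' _ _)⟩
      con := by
        rintro m x y z rfl rfl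
        rfl }
  obtain ⟨z, hz⟩ := thread_through (S := P) (by
    rintro m ⟨⟨a, b⟩, hab⟩
    obtain ⟨u, v, huv, rfl, rfl⟩ := onto m a b hab
    exact ⟨⟨(u, v), huv⟩, rfl⟩) n ⟨(a, b), hab⟩
  refine ⟨⟨fun m => (z.1 m).1.1, fun m => ?_⟩, ⟨fun m => (z.1 m).1.2, fun m => ?_⟩, ?_, ?_,
    fun k => (z.1 k).2⟩
  · have := z.2 m
    exact congrArg (fun q => q.1.1) this
  · have := z.2 m
    exact congrArg (fun q => q.1.2) this
  · change (z.1 n).1.1 = a
    rw [hz]
  · change (z.1 n).1.2 = b
    rw [hz]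

section main

variable {V : ℕ → Type} {G : ∀ n, SimpleGraph (V n)} {g : ∀ n, V (n + 1) → V n}
  (fin : ∀ n, Finite (V n)) (tree : ∀ n, (G n).IsTree)
  (con : ∀ n x y z, near (G (n + 1)) x y → near (G (n + 1)) y z → near (G n) (g n x) (g n z))

/-- the limit space -/
abbrev Lim := SeparationQuotient (Thr (treeSys V G g fin tree con))

lemma mk_eq {x y : Thr (treeSys V G g fin tree con)} :
    SeparationQuotient.mk x = SeparationQuotient.mk y ↔ ∀ n, near (G n) (x.1 n) (y.1 n) := by
  rw [SeparationQuotient.mk_eq_mk, Metric.inseparable_iff, dist_zero]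
  rfl

lemma lim_connected : ConnectedSpace (Lim fin tree con) := by
  have hc : ConnectedSpace (Thr (treeSys V G g fin tree con)) := by
    refine connected fun n x y => ?_
    obtain ⟨q⟩ := (tree n).connected.preconnected x y
    change ReflTransGen (near (G n)) x y
    induction q with
    | nil => exact ReflTransGen.refl
    | cons h _ ih => exact ReflTransGen.head (Or.inr h) ih
  exact SeparationQuotient.surjective_mk.connectedSpace SeparationQuotient.continuous_mk

lemma lim_compact : CompactSpace (Lim fin tree con) := by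
  refine ⟨?_⟩
  rw [← SeparationQuotient.surjective_mk.range_eq, ← image_univ]
  exact isCompact_univ.image SeparationQuotient.continuous_mk

lemma lim_treelike (onto : ∀ n, Function.Surjective (g n)) (ε : ℝ) (hε : 0 < ε) :
    ∃ n : ℕ, ∃ U : Fin n → Set (Lim fin tree con),
        (∀ i, IsOpen (U i)) ∧ (∀ i, (U i).Nonempty) ∧
        (∀ i, Metric.diam (U i) < ε) ∧ (⋃ i, U i) = Set.univ ∧
        (∀ i j k, i ≠ j → j ≠ k → i ≠ k → U i ∩ U j ∩ U k = ∅) ∧
        (SimpleGraph.fromRel (fun i j : Fin n => (U i ∩ U j).Nonempty)).IsTree := by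
  classical
  obtain ⟨n, hn⟩ := U1 (S := treeSys V G g fin tree con) (show (0 : ℝ) < ε / 4 by linarith)
  have _ := fin n
  have _ : Fintype (V n) := Fintype.ofFinite _
  have _ := lim_compact fin tree con
  let F : V n → Set (Lim fin tree con) := fun v =>
    SeparationQuotient.mk '' {x : Thr (treeSys V G g fin tree con) | x.1 n = v}
  have hcomp : ∀ v : V n, IsCompact (F v) := fun v =>
    (isCompact_level (treeSys V G g fin tree con) n {w | w = v}).image
      SeparationQuotient.continuous_mk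
  -- intersection pattern
  have hpat1 : ∀ u v : V n, ¬ near (G n) u v → Disjoint (F u) (F v) := by
    intro u v huv
    rw [Set.disjoint_left]
    rintro _ ⟨x, hx, rfl⟩ ⟨y, hy, hxy⟩
    have h1 := (mk_eq fin tree con).1 hxy n
    have hx' : x.1 n = u := hx
    have hy' : y.1 n = v := hy
    rw [hx', hy'] at h1
    exact huv (near_symm h1)
  have hpat2 : ∀ u v : V n, near (G n) u v → (F u ∩ F v).Nonempty := by
    intro u v huv
    obtain ⟨x, y, hx, hy, hxy⟩ := threads_through (S := treeSys V G g fin tree con) (by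
      intro m a b hab
      rcases hab with h | h
      · obtain ⟨w, hw⟩ := onto m a
        exact ⟨w, w, near_rfl _ _, hw, hw.trans h⟩
      · obtain ⟨w, w', h1, h2, h3⟩ := edge_lift (G (m + 1)) (G m) (tree (m + 1)) (tree m) (g m)
          (fun a b hab => con m a b b (Or.inr hab) (near_rfl _ _)) (onto m) h
        exact ⟨w, w', Or.inr h1, h2, h3⟩) n u v huv
    refine ⟨SeparationQuotient.mk x, ⟨x, hx, rfl⟩, ⟨y, hy, ?_⟩⟩
    exact (mk_eq fin tree con).2 fun k => near_symm (hxy k)
  -- thickness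
  have hδ : ∀ p : V n × V n, ∃ δ : ℝ, 0 < δ ∧ (¬ near (G n) p.1 p.2 →
      Disjoint (Metric.thickening δ (F p.1)) (Metric.thickening δ (F p.2))) := by
    intro p
    by_cases h : near (G n) p.1 p.2
    · exact ⟨1, one_pos, fun h' => absurd h h'⟩
    · obtain ⟨δ, h1, h2⟩ := (hpat1 _ _ h).exists_thickenings (hcomp _) (hcomp _).isClosed
      exact ⟨δ, h1, fun _ => h2⟩
  choose δ hδ1 hδ2 using hδ
  obtain ⟨η, hη1, hη2⟩ : ∃ η : ℝ, 0 < η ∧ ∀ p : V n × V n, η ≤ δ p := by
    have _ := (tree n).connected.nonempty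
    obtain ⟨p, hp⟩ := Finite.exists_min δ
    exact ⟨δ p, hδ1 p, hp⟩
  obtain ⟨θ, hθ1, hθ2, hθ3⟩ : ∃ θ : ℝ, 0 < θ ∧ θ ≤ η ∧ θ ≤ ε / 8 :=
    ⟨min η (ε / 8), lt_min hη1 (by linarith), min_le_left _ _, min_le_right _ _⟩
  let T : V n → Set (Lim fin tree con) := fun v => Metric.thickening θ (F v)
  have hTT : ∀ u v : V n, (T u ∩ T v).Nonempty ↔ near (G n) u v := by
    intro u v
    constructor
    · rintro ⟨z, hz1, hz2⟩
      by_contra h
      have h1 : z ∈ Metric.thickening (δ (u, v)) (F u) :=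
        Metric.thickening_mono (hθ2.trans (hη2 _)) _ hz1
      have h2 : z ∈ Metric.thickening (δ (u, v)) (F v) :=
        Metric.thickening_mono (hθ2.trans (hη2 _)) _ hz2
      exact Set.disjoint_left.1 (hδ2 (u, v) h) h1 h2
    · intro h
      obtain ⟨z, hz1, hz2⟩ := hpat2 u v h
      exact ⟨z, Metric.self_subset_thickening hθ1 _ hz1, Metric.self_subset_thickening hθ1 _ hz2⟩
  let e : Fin (Fintype.card (V n)) ≃ V n := (Fintype.equivFin (V n)).symm
  refine ⟨Fintype.card (V n), fun i => T (e i), fun i => Metric.isOpen_thickening, fun i => ?_,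
    fun i => ?_, ?_, ?_, ?_⟩
  · obtain ⟨z, hz, _⟩ := (hTT (e i) (e i)).2 (near_rfl _ _)
    exact ⟨z, hz⟩
  · have hb : ∀ a ∈ T (e i), ∀ b ∈ T (e i), dist a b ≤ ε / 2 := by
      intro a ha b hb
      obtain ⟨a', ha', h1⟩ := Metric.mem_thickening_iff.1 ha
      obtain ⟨b', hb', h2⟩ := Metric.mem_thickening_iff.1 hb
      obtain ⟨x, hx, rfl⟩ := ha'
      obtain ⟨y, hy, rfl⟩ := hb'
      have h3 : dist (SeparationQuotient.mk x) (SeparationQuotient.mk y) < ε / 4 := by
        rw [SeparationQuotient.dist_mk]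
        refine hn x y ?_
        have hx' : x.1 n = e i := hx
        have hy' : y.1 n = e i := hy
        change near (G n) (x.1 n) (y.1 n)
        rw [hx', hy']
        exact near_rfl _ _
      have h4 := dist_triangle4 a (SeparationQuotient.mk x) (SeparationQuotient.mk y) b
      rw [dist_comm (SeparationQuotient.mk y) b] at h4
      linarith
    exact lt_of_le_of_lt (Metric.diam_le_of_forall_dist_le (by linarith) hb) (by linarith)
  · rw [eq_univ_iff_forall]
    intro z
    obtain ⟨x, rfl⟩ := SeparationQuotient.surjective_mk z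
    rw [mem_iUnion]
    refine ⟨e.symm (x.1 n), ?_⟩
    refine Metric.self_subset_thickening hθ1 _ ⟨x, ?_, rfl⟩
    exact (e.apply_symm_apply (x.1 n)).symm
  · intro i j k hij hjk hik
    rw [eq_empty_iff_forall_notMem]
    rintro z ⟨⟨h1, h2⟩, h3⟩
    exact no_tri (tree n) (e.injective.ne hij) (e.injective.ne hjk) (e.injective.ne hik)
      ((hTT _ _).1 ⟨z, h1, h2⟩) ((hTT _ _).1 ⟨z, h2, h3⟩) ((hTT _ _).1 ⟨z, h1, h3⟩)
  · have hiso : SimpleGraph.fromRel (fun i j : Fin (Fintype.card (V n)) =>
        (T (e i) ∩ T (e j)).Nonempty) ≃g G n :=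
      { toEquiv := e
        map_rel_iff' := by
          intro i j
          rw [SimpleGraph.fromRel_adj, hTT, hTT]
          constructor
          · intro h
            exact ⟨fun hij => (G n).ne_of_adj h (congrArg e hij), Or.inl (Or.inr h)⟩
          · rintro ⟨h1, h2 | h2⟩
            · exact h2.resolve_left (e.injective.ne h1)
            · exact ((near_symm h2).resolve_left (e.injective.ne h1)) }
    exact hiso.isTree_iff.2 (tree n)

/-- property (D) of the limit -/
lemma lim_D (nosym : ∀ n x y, ¬ near (G n) (g n x) (g n y) →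
      ¬ ReflTransGen (fun p q => near2 (G (n + 1)) p q ∧ ¬ near (G n) (g n q.1) (g n q.2))
        (x, y) (y, x))
    (A B : Lim fin tree con) (K : Set (Lim fin tree con × Lim fin tree con)) (hK : IsCompact K)
    (hc : IsConnected K) (hAB : (A, B) ∈ K) (hBA : (B, A) ∈ K) : ∃ x, (x, x) ∈ K := by
  by_contra hcon
  push Not at hcon
  have _ := lim_compact fin tree con
  -- K is far from the diagonal
  obtain ⟨ε, hε, hfar⟩ : ∃ ε : ℝ, 0 < ε ∧ ∀ p ∈ K, ε ≤ dist p.1 p.2 := by
    obtain ⟨p, hp, hmin⟩ := hK.exists_isMinOn hc.nonempty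
      (f := fun p : Lim fin tree con × Lim fin tree con => dist p.1 p.2)
      (continuous_fst.dist continuous_snd).continuousOn
    refine ⟨dist p.1 p.2, ?_, fun q hq => hmin hq⟩
    rw [dist_pos]
    rintro h
    apply hcon p.1
    have : (p.1, p.1) = p := Prod.ext rfl h
    rw [this]
    exact hp
  obtain ⟨n, hn⟩ := U1 (S := treeSys V G g fin tree con) hε
  obtain ⟨δ, hδ, hδ2⟩ := U2 (S := treeSys V G g fin tree con) (n + 1)
  have hgood : ∀ x y : Thr (treeSys V G g fin tree con),
      (SeparationQuotient.mk x, SeparationQuotient.mk y) ∈ K →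
      ¬ near (G n) (g n (x.1 (n + 1))) (g n (y.1 (n + 1))) := by
    intro x y hxy hnear
    have hx : g n (x.1 (n + 1)) = x.1 n := x.2 n
    have hy : g n (y.1 (n + 1)) = y.1 n := y.2 n
    rw [hx, hy] at hnear
    have h1 := hfar _ hxy
    have h2 := hn x y hnear
    rw [SeparationQuotient.dist_mk] at h1
    linarith
  let R : V (n + 1) × V (n + 1) → V (n + 1) × V (n + 1) → Prop :=
    fun p q => near2 (G (n + 1)) p q ∧ ¬ near (G n) (g n q.1) (g n q.2)
  let P : Lim fin tree con × Lim fin tree con → Lim fin tree con × Lim fin tree con → Prop :=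
    fun a b => ∀ x y x' y' : Thr (treeSys V G g fin tree con),
      SeparationQuotient.mk x = a.1 → SeparationQuotient.mk y = a.2 →
      SeparationQuotient.mk x' = b.1 → SeparationQuotient.mk y' = b.2 → a ∈ K → b ∈ K →
      ReflTransGen R (x.1 (n + 1), y.1 (n + 1)) (x'.1 (n + 1), y'.1 (n + 1))
  have hsymR : ∀ x y x' y' : Thr (treeSys V G g fin tree con),
      (SeparationQuotient.mk x, SeparationQuotient.mk y) ∈ K →
      ReflTransGen R (x.1 (n + 1), y.1 (n + 1)) (x'.1 (n + 1), y'.1 (n + 1)) →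
      ReflTransGen R (x'.1 (n + 1), y'.1 (n + 1)) (x.1 (n + 1), y.1 (n + 1)) := by
    intro x y x' y' hxy h
    -- all points on the way are good
    have key : ∀ p q, ReflTransGen R p q → ¬ near (G n) (g n p.1) (g n p.2) →
        ReflTransGen R q p ∧ ¬ near (G n) (g n q.1) (g n q.2) := by
      intro p q hpq hp
      induction hpq with
      | refl => exact ⟨ReflTransGen.refl, hp⟩
      | tail _ hbc ih => exact ⟨ReflTransGen.head ⟨near2_symm hbc.1, ih.2⟩ ih.1, hbc.2⟩
    exact (key _ _ h (hgood x y hxy)).1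
  have hall : P (A, B) (B, A) := by
    refine hc.isPreconnected.induction₂' P ?_ ?_ hAB hBA
    · intro p hp
      have hb : ∀ᶠ q in 𝓝[K] p, dist q p < δ :=
        nhdsWithin_le_nhds (Metric.ball_mem_nhds p hδ)
      filter_upwards [hb] with q hq
      rw [Prod.dist_eq, max_lt_iff] at hq
      have one : ∀ x y x' y' : Thr (treeSys V G g fin tree con),
          SeparationQuotient.mk x = p.1 → SeparationQuotient.mk y = p.2 →
          SeparationQuotient.mk x' = q.1 → SeparationQuotient.mk y' = q.2 → q ∈ K →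
          near2 (G (n + 1)) (x.1 (n + 1), y.1 (n + 1)) (x'.1 (n + 1), y'.1 (n + 1)) := by
        intro x y x' y' hx hy hx' hy' _
        rw [← hx, ← hy, ← hx', ← hy', SeparationQuotient.dist_mk, SeparationQuotient.dist_mk] at hq
        exact ⟨near_symm (hδ2 _ _ hq.1), near_symm (hδ2 _ _ hq.2)⟩
      constructor
      · intro x y x' y' hx hy hx' hy' _ hqK
        refine ReflTransGen.single ⟨one x y x' y' hx hy hx' hy' hqK, ?_⟩
        refine hgood x' y' ?_
        rw [hx', hy']
        exact hqK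
      · intro x' y' x y hx' hy' hx hy hqK _
        refine ReflTransGen.single ⟨near2_symm (one x y x' y' hx hy hx' hy' hqK), ?_⟩
        refine hgood x y ?_
        rw [hx, hy]
        exact hp
    · intro a b c ha hb hc' hab hbc x y x' y' hx hy hx' hy' _ _
      obtain ⟨z, hz⟩ := SeparationQuotient.surjective_mk b.1
      obtain ⟨w, hw⟩ := SeparationQuotient.surjective_mk b.2
      exact (hab x y z w hx hy hz hw ha hb).trans (hbc z w x' y' hz hw hx' hy' hb hc')
  obtain ⟨x, hx⟩ := SeparationQuotient.surjective_mk A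
  obtain ⟨y, hy⟩ := SeparationQuotient.surjective_mk B
  have h1 := hall x y y x hx hy hy hx hAB hBA
  refine nosym n _ _ (hgood x y ?_) h1
  rw [hx, hy]
  exact hAB

/-- the limit of the sets `Z n` -/
lemma lim_Z (Z : ∀ n, Set (V n × V n)) (Zne : ∀ n, (Z n).Nonempty)
    (Zmap : ∀ n, ∀ p ∈ Z (n + 1), (g n p.1, g n p.2) ∈ Z n)
    (Zconn : ∀ n, ∀ p ∈ Z n, ∀ q ∈ Z n,
      ReflTransGen (fun p q => near2 (G n) p q ∧ q ∈ Z n) p q)
    (full1 : ∀ n v, ∃ w, (v, w) ∈ Z n) (full2 : ∀ n v, ∃ w, (w, v) ∈ Z n)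
    (far : ∀ p ∈ Z 0, ¬ near (G 0) p.1 p.2) :
    ∃ K : Set (Lim fin tree con × Lim fin tree con), IsCompact K ∧ IsConnected K ∧
      Prod.fst '' K = Prod.snd '' K ∧ ∀ x, (x, x) ∉ K := by
  classical
  let S := pairSys V G g fin con Z Zne Zmap
  let T := treeSys V G g fin tree con
  let p1 : Thr S → Thr T := fun z => ⟨fun n => (z.1 n).1.1, fun n =>
    congrArg (fun q => q.1.1) (z.2 n)⟩
  let p2 : Thr S → Thr T := fun z => ⟨fun n => (z.1 n).1.2, fun n =>
    congrArg (fun q => q.1.2) (z.2 n)⟩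
  have hp1 : Continuous p1 := by
    rw [Metric.continuous_iff]
    intro a ε hε
    obtain ⟨n, hn⟩ := U1 (S := T) hε
    obtain ⟨δ, hδ, hδ2⟩ := U2 (S := S) n
    exact ⟨δ, hδ, fun b hb => hn _ _ (hδ2 _ _ hb).1⟩
  have hp2 : Continuous p2 := by
    rw [Metric.continuous_iff]
    intro a ε hε
    obtain ⟨n, hn⟩ := U1 (S := T) hε
    obtain ⟨δ, hδ, hδ2⟩ := U2 (S := S) n
    exact ⟨δ, hδ, fun b hb => hn _ _ (hδ2 _ _ hb).2⟩
  have hSc : ConnectedSpace (Thr S) := by
    refine connected fun n x y => ?_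
    have key : ∀ q, ReflTransGen (fun p q => near2 (G n) p q ∧ q ∈ Z n) x.1 q →
        ∀ hq : q ∈ Z n, ReflTransGen (S.r n) x ⟨q, hq⟩ := by
      intro q h
      induction h with
      | refl => exact fun _ => ReflTransGen.refl
      | @tail b c hb hbc ih =>
        intro hc
        have hb2 : b ∈ Z n := by
          rcases ReflTransGen.cases_tail hb with h | ⟨_, _, h⟩
          · rw [h]
            exact x.2
          · exact h.2
        exact (ih hb2).tail hbc.1
    exact key y.1 (Zconn n _ x.2 _ y.2) y.2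
  let φ : Thr S → Lim fin tree con × Lim fin tree con := fun z =>
    (SeparationQuotient.mk (p1 z), SeparationQuotient.mk (p2 z))
  have hφ : Continuous φ := (SeparationQuotient.continuous_mk.comp hp1).prodMk
    (SeparationQuotient.continuous_mk.comp hp2)
  -- both projections are onto
  have hf1 : ∀ x : Thr T, ∃ z : Thr S, p1 z = x := by
    intro x
    obtain ⟨z, hz⟩ := exists_thread (S := S)
      (fun m => {z | (∀ k < m, S.h k (z (k + 1)) = z k) ∧ ∀ k ≤ m, (z k).1.1 = x.1 k})
      (by
        rintro m z ⟨h1, h2⟩ y hy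
        refine ⟨fun k hk => ?_, fun k hk => ?_⟩
        · rw [hy k (le_of_lt hk), hy (k + 1) hk]
          exact h1 k hk
        · rw [hy k hk]
          exact h2 k hk)
      (by
        rintro m z ⟨h1, h2⟩
        exact ⟨fun k hk => h1 k (Nat.lt_succ_of_lt hk), fun k hk => h2 k (Nat.le_succ_of_le hk)⟩)
      (fun m z hz k hk => hz.1 k hk)
      (by
        intro m
        obtain ⟨w, hw⟩ := full1 m (x.1 m)
        obtain ⟨z, hz1, hz2⟩ := ext_down (S := S) (fun n => (S.ne n).some) m ⟨(x.1 m, w), hw⟩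
        refine ⟨z, hz2, fun k hk => ?_⟩
        induction hk using Nat.decreasingInduction with
        | self => rw [hz1]
        | of_succ k hk ih =>
          rw [← hz2 k hk]
          change g k ((z (k + 1)).1.1) = x.1 k
          rw [ih]
          exact x.2 k)
    exact ⟨z, Subtype.ext (funext fun k => (hz k).2 k le_rfl)⟩
  have hf2 : ∀ x : Thr T, ∃ z : Thr S, p2 z = x := by
    intro x
    obtain ⟨z, hz⟩ := exists_thread (S := S)
      (fun m => {z | (∀ k < m, S.h k (z (k + 1)) = z k) ∧ ∀ k ≤ m, (z k).1.2 = x.1 k})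
      (by
        rintro m z ⟨h1, h2⟩ y hy
        refine ⟨fun k hk => ?_, fun k hk => ?_⟩
        · rw [hy k (le_of_lt hk), hy (k + 1) hk]
          exact h1 k hk
        · rw [hy k hk]
          exact h2 k hk)
      (by
        rintro m z ⟨h1, h2⟩
        exact ⟨fun k hk => h1 k (Nat.lt_succ_of_lt hk), fun k hk => h2 k (Nat.le_succ_of_le hk)⟩)
      (fun m z hz k hk => hz.1 k hk)
      (by
        intro m
        obtain ⟨w, hw⟩ := full2 m (x.1 m)
        obtain ⟨z, hz1, hz2⟩ := ext_down (S := S) (fun n => (S.ne n).some) m ⟨(w, x.1 m), hw⟩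
        refine ⟨z, hz2, fun k hk => ?_⟩
        induction hk using Nat.decreasingInduction with
        | self => rw [hz1]
        | of_succ k hk ih =>
          rw [← hz2 k hk]
          change g k ((z (k + 1)).1.2) = x.1 k
          rw [ih]
          exact x.2 k)
    exact ⟨z, Subtype.ext (funext fun k => (hz k).2 k le_rfl)⟩
  have huniv1 : Prod.fst '' (range φ) = univ := by
    rw [eq_univ_iff_forall]
    intro a
    obtain ⟨x, rfl⟩ := SeparationQuotient.surjective_mk a
    obtain ⟨z, hz⟩ := hf1 x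
    exact ⟨φ z, ⟨z, rfl⟩, congrArg SeparationQuotient.mk hz⟩
  have huniv2 : Prod.snd '' (range φ) = univ := by
    rw [eq_univ_iff_forall]
    intro a
    obtain ⟨x, rfl⟩ := SeparationQuotient.surjective_mk a
    obtain ⟨z, hz⟩ := hf2 x
    exact ⟨φ z, ⟨z, rfl⟩, congrArg SeparationQuotient.mk hz⟩
  refine ⟨range φ, isCompact_range hφ, isConnected_range hφ, huniv1.trans huniv2.symm, ?_⟩
  rintro x ⟨z, hz⟩
  have h1 : SeparationQuotient.mk (p1 z) = SeparationQuotient.mk (p2 z) :=
    (congrArg Prod.fst hz).trans (congrArg Prod.snd hz).symm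
  exact far _ (z.1 0).2 ((mk_eq fin tree con).1 h1 0)

end main

/-- **Limit theorem.**  Finite trees `G n`, bonding maps `g n` onto, contracting (near-near at
level `n + 1` goes to near at level `n`), connected sets `Z n` of pairs with both projections onto,
compatible, away from the diagonal at level `0`, and no pair of level `n + 1` can be moved to its
mirror image in `{(x, y) : g x, g y not near}`.  Then the frozen negation holds. -/
theorem limit (V : ℕ → Type) (G : ∀ n, SimpleGraph (V n)) (g : ∀ n, V (n + 1) → V n)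
    (Z : ∀ n, Set (V n × V n))
    (fin : ∀ n, Finite (V n)) (tree : ∀ n, (G n).IsTree) (onto : ∀ n, Function.Surjective (g n))
    (con : ∀ n x y z, near (G (n + 1)) x y → near (G (n + 1)) y z → near (G n) (g n x) (g n z))
    (Zmap : ∀ n, ∀ p ∈ Z (n + 1), (g n p.1, g n p.2) ∈ Z n)
    (Zconn : ∀ n, ∀ p ∈ Z n, ∀ q ∈ Z n,
      ReflTransGen (fun p q => near2 (G n) p q ∧ q ∈ Z n) p q)
    (full1 : ∀ n v, ∃ w, (v, w) ∈ Z n) (full2 : ∀ n v, ∃ w, (w, v) ∈ Z n)
    (far : ∀ p ∈ Z 0, ¬ near (G 0) p.1 p.2)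
    (nosym : ∀ n x y, ¬ near (G n) (g n x) (g n y) →
      ¬ ReflTransGen (fun p q => near2 (G (n + 1)) p q ∧ ¬ near (G n) (g n q.1) (g n q.2))
        (x, y) (y, x)) :
    ¬ (∀ (X : Type) [MetricSpace X] [CompactSpace X] [ConnectedSpace X],
      (∀ ε : ℝ, 0 < ε → ∃ n : ℕ, ∃ U : Fin n → Set X,
        (∀ i, IsOpen (U i)) ∧ (∀ i, (U i).Nonempty) ∧
        (∀ i, Metric.diam (U i) < ε) ∧ (⋃ i, U i) = Set.univ ∧
        (∀ i j k, i ≠ j → j ≠ k → i ≠ k → U i ∩ U j ∩ U k = ∅) ∧
        (SimpleGraph.fromRel (fun i j : Fin n => (U i ∩ U j).Nonempty)).IsTree) →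
      (∀ A B : X, ∀ K : Set (X × X), IsCompact K → IsConnected K →
        (A, B) ∈ K → (B, A) ∈ K → ∃ x : X, (x, x) ∈ K) →
      ∀ Z : Set (X × X), IsCompact Z → IsConnected Z →
        Prod.fst '' Z = Prod.snd '' Z → ∃ x : X, (x, x) ∈ Z) := by
  intro hmain
  have _ := lim_compact fin tree con
  have _ := lim_connected fin tree con
  obtain ⟨K, hK1, hK2, hK3, hK4⟩ := lim_Z fin tree con Z (fun n => by
    obtain ⟨v⟩ := (tree n).connected.nonempty
    obtain ⟨w, hw⟩ := full1 n v
    exact ⟨_, hw⟩) Zmap Zconn full1 full2 far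
  obtain ⟨x, hx⟩ := hmain (Lim fin tree con) (lim_treelike fin tree con onto)
    (lim_D fin tree con nosym) K hK1 hK2 hK3
  exact hK4 x hx

/-- A finite tree with a connected set of far pairs with both projections onto. -/
structure State where
  V : Type
  fin : Finite V
  G : SimpleGraph V
  tree : G.IsTree
  Z : Set (V × V)
  conn : ∀ p ∈ Z, ∀ q ∈ Z, ReflTransGen (fun p q => near2 G p q ∧ q ∈ Z) p q
  full1 : ∀ v, ∃ w, (v, w) ∈ Z
  full2 : ∀ v, ∃ w, (w, v) ∈ Z
  far : ∀ p ∈ Z, ¬ near G p.1 p.2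

/-- one step: a map of the new tree onto the old one -/
structure Step (s s' : State) (g : s'.V → s.V) : Prop where
  onto : Function.Surjective g
  con : ∀ x y z, near s'.G x y → near s'.G y z → near s.G (g x) (g z)
  Zmap : ∀ p ∈ s'.Z, (g p.1, g p.2) ∈ s.Z
  nosym : ∀ x y, ¬ near s.G (g x) (g y) →
    ¬ ReflTransGen (fun p q => near2 s'.G p q ∧ ¬ near s.G (g q.1) (g q.2)) (x, y) (y, x)

/-- **Step theorem.**  If from every state with property `P` one step to another such state is
possible, then the frozen negation holds. -/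
theorem of_step (P : State → Prop) (h0 : ∃ s, P s)
    (h : ∀ s, P s → ∃ (s' : State) (g : s'.V → s.V), P s' ∧ Step s s' g) :
    ¬ (∀ (X : Type) [MetricSpace X] [CompactSpace X] [ConnectedSpace X],
      (∀ ε : ℝ, 0 < ε → ∃ n : ℕ, ∃ U : Fin n → Set X,
        (∀ i, IsOpen (U i)) ∧ (∀ i, (U i).Nonempty) ∧
        (∀ i, Metric.diam (U i) < ε) ∧ (⋃ i, U i) = Set.univ ∧
        (∀ i j k, i ≠ j → j ≠ k → i ≠ k → U i ∩ U j ∩ U k = ∅) ∧
        (SimpleGraph.fromRel (fun i j : Fin n => (U i ∩ U j).Nonempty)).IsTree) →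
      (∀ A B : X, ∀ K : Set (X × X), IsCompact K → IsConnected K →
        (A, B) ∈ K → (B, A) ∈ K → ∃ x : X, (x, x) ∈ K) →
      ∀ Z : Set (X × X), IsCompact Z → IsConnected Z →
        Prod.fst '' Z = Prod.snd '' Z → ∃ x : X, (x, x) ∈ Z) := by
  classical
  obtain ⟨s0, hs0⟩ := h0
  choose nxt g hP hstep using h
  let s : ℕ → {s : State // P s} := fun n =>
    Nat.rec ⟨s0, hs0⟩ (fun _ t => ⟨nxt t.1 t.2, hP t.1 t.2⟩) n
  have hs : ∀ n, Step (s n).1 (s (n + 1)).1 (g (s n).1 (s n).2) := fun n =>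
    hstep (s n).1 (s n).2
  exact limit (fun n => (s n).1.V) (fun n => (s n).1.G) (fun n => g (s n).1 (s n).2)
    (fun n => (s n).1.Z) (fun n => (s n).1.fin) (fun n => (s n).1.tree) (fun n => (hs n).onto)
    (fun n => (hs n).con) (fun n => (hs n).Zmap) (fun n => (s n).1.conn) (fun n => (s n).1.full1)
    (fun n => (s n).1.full2) (s 0).1.far (fun n => (hs n).nosym)

end MP4b5926.QLim
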