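import Pool.Agent.Lib.MP_4b5926_gt.Core

set_option autoImplicit false

set_option linter.unusedSectionVars false

open Relation Filter Topology Set

namespace Pool.MP_4b5926_gt

/-- The geometric realization of a graph `T` with finite vertex set `V`, in barycentric
coordinates: weights `w v ≥ 0` of sum `1` whose support is a vertex or an edge (a clique). -/
def Geo {V : Type} [Fintype V] (T : SimpleGraph V) : Set (V → ℝ) :=
  {w | (∀ v, 0 ≤ w v) ∧ ∑ v, w v = 1 ∧ ∀ u v, w u ≠ 0 → w v ≠ 0 → u = v ∨ T.Adj u v}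

/-- The affine extension of a map of vertices. -/
def push {V W : Type} [Fintype V] [DecidableEq W] (f : V → W) (w : V → ℝ) : W → ℝ :=
  fun b => ∑ v, if f v = b then w v else 0

section push

variable {V W U : Type} [Fintype V] [Fintype W] [DecidableEq W] [DecidableEq V] [DecidableEq U]

lemma push_id (w : V → ℝ) : push (fun v : V => v) w = w := by
  funext b
  unfold push
  rw [Finset.sum_ite_eq' Finset.univ b w]
  simp

lemma push_comp (g : W → U) (f : V → W) (w : V → ℝ) : push g (push f w) = push (fun v => g (f v)) w := by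
  funext b
  unfold push
  calc ∑ c, (if g c = b then ∑ v, (if f v = c then w v else 0) else 0)
      = ∑ c, ∑ v, (if g c = b then (if f v = c then w v else 0) else 0) := by
        refine Finset.sum_congr rfl fun c _ => ?_
        by_cases h : g c = b
        · simp [h]
        · simp [h]
    _ = ∑ v, ∑ c, (if g c = b then (if f v = c then w v else 0) else 0) := Finset.sum_comm
    _ = ∑ v, (if g (f v) = b then w v else 0) := by
        refine Finset.sum_congr rfl fun v _ => ?_
        rw [Finset.sum_eq_single (f v)]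
        · simp
        · intro c _ hc
          simp [Ne.symm hc]
        · intro h
          exact absurd (Finset.mem_univ _) h

lemma push_single (f : V → W) (v : V) : push f (Pi.single v (1 : ℝ)) = Pi.single (f v) 1 := by
  funext b
  unfold push
  rw [Finset.sum_eq_single v]
  · by_cases h : f v = b
    · subst h
      simp
    · simp [h, Ne.symm h]
  · intro u _ hu
    simp [hu]
  · intro h
    exact absurd (Finset.mem_univ _) h

lemma push_seg (f : V → W) (x y : V → ℝ) (t : ℝ) :
    push f ((1 - t) • x + t • y) = (1 - t) • push f x + t • push f y := by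
  funext b
  unfold push
  simp only [Pi.add_apply, Pi.smul_apply, smul_eq_mul, Finset.mul_sum]
  rw [← Finset.sum_add_distrib]
  refine Finset.sum_congr rfl fun v _ => ?_
  by_cases h : f v = b
  · simp [h]
  · simp [h]

end push

/-! ### The fold determines the point of the coarse tree -/

section fold

variable {V W : Type} [Fintype V] [DecidableEq W] [DecidableEq V]

lemma fold_interp (T : SimpleGraph V) (h : V → ℤ) (h1 : ∀ u v, T.Adj u v → |h u - h v| ≤ 1)
    {w : V → ℝ} (hw : w ∈ Geo T) (g : ℤ → ℝ) :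
    ∑ v, w v * g (h v) = g ⌊∑ v, w v * (h v : ℝ)⌋ +
      (g (⌊∑ v, w v * (h v : ℝ)⌋ + 1) - g ⌊∑ v, w v * (h v : ℝ)⌋) *
        (∑ v, w v * (h v : ℝ) - ⌊∑ v, w v * (h v : ℝ)⌋) := by
  obtain ⟨w0, w1, w2⟩ := hw
  set c : ℝ := ∑ v, w v * (h v : ℝ) with hc
  -- the support lies in two consecutive levels
  have near : ∀ u v, w u ≠ 0 → w v ≠ 0 → |h u - h v| ≤ 1 := by
    intro u v hu hv
    rcases w2 u v hu hv with e | e
    · subst e
      simp
    · exact h1 u v e
  have up : ∀ v, w v ≠ 0 → c < (h v : ℝ) + 1 := by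
    intro v hv
    have e : (h v : ℝ) + 1 - c = ∑ u, w u * ((h v : ℝ) + 1 - h u) := by
      rw [hc]
      simp only [mul_sub]
      rw [Finset.sum_sub_distrib, ← Finset.sum_mul, w1]
      ring
    have p : 0 < ∑ u, w u * ((h v : ℝ) + 1 - h u) := by
      refine Finset.sum_pos' (fun u _ => ?_) ⟨v, Finset.mem_univ _, ?_⟩
      · by_cases hu : w u = 0
        · rw [hu, zero_mul]
        · have a := near u v hu hv
          have b : (h u - h v) ≤ 1 := (abs_le.1 a).2
          have b' : ((h u : ℝ) - h v) ≤ 1 := by exact_mod_cast b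
          exact mul_nonneg (w0 u) (by linarith)
      · have : (0 : ℝ) < w v := lt_of_le_of_ne (w0 v) (Ne.symm hv)
        exact mul_pos this (by linarith)
    linarith
  have down : ∀ v, w v ≠ 0 → (h v : ℝ) - 1 < c := by
    intro v hv
    have e : c - ((h v : ℝ) - 1) = ∑ u, w u * ((h u : ℝ) - (h v - 1)) := by
      rw [hc]
      simp only [mul_sub]
      rw [Finset.sum_sub_distrib, Finset.sum_sub_distrib, ← Finset.sum_mul, ← Finset.sum_mul, w1]
      ring
    have p : 0 < ∑ u, w u * ((h u : ℝ) - (h v - 1)) := by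
      refine Finset.sum_pos' (fun u _ => ?_) ⟨v, Finset.mem_univ _, ?_⟩
      · by_cases hu : w u = 0
        · rw [hu, zero_mul]
        · have a := near u v hu hv
          have b : -1 ≤ (h u - h v) := (abs_le.1 a).1
          have b' : -1 ≤ ((h u : ℝ) - h v) := by exact_mod_cast b
          exact mul_nonneg (w0 u) (by linarith)
      · have : (0 : ℝ) < w v := lt_of_le_of_ne (w0 v) (Ne.symm hv)
        exact mul_pos this (by linarith)
    linarith
  set k : ℤ := ⌊c⌋ with hk
  have lev : ∀ v, w v ≠ 0 → h v = k ∨ h v = k + 1 := by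
    intro v hv
    have a := up v hv
    have b := down v hv
    have k1 : (k : ℝ) ≤ c := Int.floor_le c
    have k2 : c < k + 1 := Int.lt_floor_add_one c
    have i1 : k < h v + 1 := by
      have : (k : ℝ) < (h v : ℝ) + 1 := by linarith
      exact_mod_cast this
    have i2 : h v < k + 2 := by
      have : (h v : ℝ) < (k : ℝ) + 2 := by linarith
      exact_mod_cast this
    omega
  have term : ∀ v, w v * g (h v) = w v * g k + (g (k + 1) - g k) * (w v * (h v : ℝ) - w v * k) := by
    intro v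
    by_cases hv : w v = 0
    · simp [hv]
    · rcases lev v hv with e | e
      · rw [e]
        ring
      · rw [e]
        push_cast
        ring
  rw [Finset.sum_congr rfl fun v _ => term v, Finset.sum_add_distrib, ← Finset.sum_mul, w1,
    ← Finset.mul_sum, Finset.sum_sub_distrib, ← Finset.sum_mul, w1]
  ring

lemma fold_push (T : SimpleGraph V) (lam : V → W) (h : V → ℤ)
    (h1 : ∀ u v, T.Adj u v → |h u - h v| ≤ 1) (h2 : ∀ u v, h u = h v → lam u = lam v)
    {w w' : V → ℝ} (hw : w ∈ Geo T) (hw' : w' ∈ Geo T)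
    (he : ∑ v, w v * (h v : ℝ) = ∑ v, w' v * (h v : ℝ)) : push lam w = push lam w' := by
  classical
  funext a
  obtain ⟨g, hg⟩ : ∃ g : ℤ → ℝ, ∀ v, (if lam v = a then (1 : ℝ) else 0) = g (h v) := by
    refine ⟨fun j => if ∃ u, h u = j ∧ lam u = a then (1 : ℝ) else 0, fun v => ?_⟩
    show (if lam v = a then (1 : ℝ) else 0) = if ∃ u, h u = h v ∧ lam u = a then (1 : ℝ) else 0
    by_cases hv : lam v = a
    · rw [if_pos hv, if_pos ⟨v, rfl, hv⟩]
    · rw [if_neg hv, if_neg]
      rintro ⟨u, hu1, hu2⟩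
      exact hv ((h2 u v hu1).symm.trans hu2)
  have key : ∀ w : V → ℝ, push lam w a = ∑ v, w v * g (h v) := by
    intro w
    unfold push
    refine Finset.sum_congr rfl fun v _ => ?_
    rw [← hg v]
    by_cases hv : lam v = a
    · rw [if_pos hv, if_pos hv, mul_one]
    · rw [if_neg hv, if_neg hv, mul_zero]
  rw [key w, key w', fold_interp T h h1 hw g, fold_interp T h h1 hw' g, he]

end fold

/-! ### Topology -/

/-- Two points of a compact set that lie in no common subcontinuum can be separated. -/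
lemma split {Y : Type} [TopologicalSpace Y] [T2Space Y] {E : Set Y} (hE : IsCompact E) {a b : Y}
    (ha : a ∈ E) (hb : b ∈ E)
    (h : ¬ ∃ K, K ⊆ E ∧ IsCompact K ∧ IsConnected K ∧ a ∈ K ∧ b ∈ K) :
    ∃ O O' : Set Y, IsCompact O ∧ IsCompact O' ∧ Disjoint O O' ∧ O ∪ O' = E ∧ a ∈ O ∧ b ∈ O' := by
  have : CompactSpace E := isCompact_iff_compactSpace.1 hE
  by_cases hc : (⟨b, hb⟩ : E) ∈ connectedComponent (⟨a, ha⟩ : E)
  · exfalso
    apply h
    refine ⟨Subtype.val '' connectedComponent (⟨a, ha⟩ : E), ?_, ?_, ?_, ?_, ?_⟩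
    · rintro _ ⟨x, _, rfl⟩
      exact x.2
    · exact (isClosed_connectedComponent.isCompact).image continuous_subtype_val
    · exact isConnected_connectedComponent.image _ continuous_subtype_val.continuousOn
    · exact ⟨⟨a, ha⟩, mem_connectedComponent, rfl⟩
    · exact ⟨⟨b, hb⟩, hc, rfl⟩
  · rw [connectedComponent_eq_iInter_isClopen] at hc
    simp only [mem_iInter, not_forall] at hc
    obtain ⟨⟨s, hs1, hs2⟩, hs3⟩ := hc
    refine ⟨Subtype.val '' s, Subtype.val '' sᶜ, ?_, ?_, ?_, ?_, ?_, ?_⟩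
    · exact hs1.1.isCompact.image continuous_subtype_val
    · exact hs1.compl.1.isCompact.image continuous_subtype_val
    · rw [Set.disjoint_left]
      rintro _ ⟨x, hx, rfl⟩ ⟨y, hy, hxy⟩
      rw [Subtype.val_injective hxy] at hy
      exact hy hx
    · rw [← image_union, union_compl_self, image_univ, Subtype.range_coe]
    · exact ⟨⟨a, ha⟩, hs2, rfl⟩
    · exact ⟨⟨b, hb⟩, hs3, rfl⟩

/-- A decreasing sequence of compact sets with empty intersection. -/
lemma exists_empty {Y : Type} [TopologicalSpace Y] [T2Space Y] (K : ℕ → Set Y)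
    (hK : ∀ i, IsCompact (K i)) (hd : ∀ i, K (i + 1) ⊆ K i) (he : ∀ y, ∃ i, y ∉ K i) :
    ∃ i, ∀ j, i ≤ j → K j = ∅ := by
  have hanti : Antitone K := antitone_nat_of_succ_le hd
  have h : ∃ i, K i = ∅ := by
    by_contra hc
    push Not at hc
    have hne : ∀ i, (K i).Nonempty := fun i => hc i
    obtain ⟨y, hy⟩ := IsCompact.nonempty_iInter_of_sequence_nonempty_isCompact_isClosed K hd hne
      (hK 0) (fun i => (hK i).isClosed)
    obtain ⟨i, hi⟩ := he y
    exact hi (mem_iInter.1 hy i)
  obtain ⟨i, hi⟩ := h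
  exact ⟨i, fun j hj => subset_eq_empty (hanti hj) hi⟩

/-! ### Simplicial inverse limits -/

section limit

variable {n : ℕ → ℕ} (T : ∀ i, SimpleGraph (Fin (n i))) (f : ∀ i, Fin (n (i + 1)) → Fin (n i))
  {X : Type} [MetricSpace X] [CompactSpace X] (p : ∀ i, X → (Fin (n i) → ℝ))

/-- The composition `V (i + d) → V i` of the bonding maps. -/
def compo (f : ∀ i, Fin (n (i + 1)) → Fin (n i)) (i : ℕ) : ∀ d : ℕ, Fin (n (i + d)) → Fin (n i)
  | 0 => fun v => v
  | d + 1 => fun v => compo f i d (f (i + d) v)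

lemma push_compo (hp : ∀ i x, push (f i) (p (i + 1) x) = p i x) (i d : ℕ) (x : X) :
    push (compo f i d) (p (i + d) x) = p i x := by
  induction d with
  | zero => exact push_id _
  | succ d ih =>
    rw [← ih]
    have h1 := hp (i + d) x
    rw [← h1, push_comp]
    rfl

/-- The pairs of points whose images in `|T i|` have disjoint supports. -/
def Eset (i : ℕ) : Set (X × X) := {q | ∀ a, p i q.1 a * p i q.2 a = 0}

lemma isClosed_Eset (hc : ∀ i, Continuous (p i)) (i : ℕ) : IsClosed (Eset p i) := by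
  have : Eset p i = ⋂ a, {q : X × X | p i q.1 a * p i q.2 a = 0} := by
    ext q
    simp [Eset]
  rw [this]
  refine isClosed_iInter fun a => isClosed_eq ?_ continuous_const
  exact ((continuous_apply a).comp ((hc i).comp continuous_fst)).mul
    ((continuous_apply a).comp ((hc i).comp continuous_snd))

lemma Eset_diag (hT : ∀ i x, p i x ∈ Geo (T i)) (i : ℕ) (x : X) : (x, x) ∉ Eset p i := by
  intro h
  obtain ⟨h0, h1, _⟩ := hT i x
  have : ∀ a, p i x a = 0 := fun a => mul_self_eq_zero.1 (h a)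
  rw [Finset.sum_eq_zero fun a _ => this a] at h1
  exact zero_ne_one h1

/-- The segment lemma. -/
lemma segment {m : ℕ} {O O' E : Set (X × X)} (hO : IsCompact O) (hO' : IsCompact O')
    (hOE : O ∪ O' = E)
    (hc : ∀ i, Continuous (p i))
    (hsep : ∀ q ∈ O, ∀ q' ∈ O', ¬ (p m q.1 = p m q'.1 ∧ p m q.2 = p m q'.2))
    (c : ℝ → (Fin (n m) → ℝ) × (Fin (n m) → ℝ)) (hcc : Continuous c)
    (hon : ∀ t ∈ Icc (0 : ℝ) 1, ∃ q : X × X, (p m q.1, p m q.2) = c t)
    (hE : ∀ t ∈ Icc (0 : ℝ) 1, ∀ q : X × X, (p m q.1, p m q.2) = c t → q ∈ E)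
    (h0 : ∃ q ∈ O, (p m q.1, p m q.2) = c 0) : ∃ q ∈ O, (p m q.1, p m q.2) = c 1 := by
  set Q : X × X → (Fin (n m) → ℝ) × (Fin (n m) → ℝ) := fun q => (p m q.1, p m q.2) with hQ
  have hQc : Continuous Q :=
    ((hc m).comp continuous_fst).prodMk ((hc m).comp continuous_snd)
  by_contra hcon
  have c1 : IsClosed (c ⁻¹' (Q '' O)) := (hO.image hQc).isClosed.preimage hcc
  have c2 : IsClosed (c ⁻¹' (Q '' O')) := (hO'.image hQc).isClosed.preimage hcc
  have cov : Icc (0 : ℝ) 1 ⊆ c ⁻¹' (Q '' O) ∪ c ⁻¹' (Q '' O') := by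
    intro t ht
    obtain ⟨q, hq⟩ := hon t ht
    have hqE := hE t ht q hq
    rw [← hOE] at hqE
    rcases hqE with h | h
    · exact Or.inl ⟨q, h, hq⟩
    · exact Or.inr ⟨q, h, hq⟩
  have hpre := isPreconnected_closed_iff.1 (isPreconnected_Icc (a := (0 : ℝ)) (b := 1)) _ _ c1 c2 cov
  have n1 : (Icc (0 : ℝ) 1 ∩ c ⁻¹' (Q '' O)).Nonempty := by
    obtain ⟨q, hq, hq'⟩ := h0
    exact ⟨0, by simp, q, hq, hq'⟩
  have n2 : (Icc (0 : ℝ) 1 ∩ c ⁻¹' (Q '' O')).Nonempty := by
    refine ⟨1, by simp, ?_⟩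
    rcases cov (show (1 : ℝ) ∈ Icc (0 : ℝ) 1 by simp) with h | h
    · obtain ⟨q, hq, hq'⟩ := h
      exact absurd ⟨q, hq, hq'⟩ hcon
    · exact h
  obtain ⟨t, _, ⟨q, hq, hq'⟩, ⟨s, hs, hs'⟩⟩ := hpre n1 n2
  have e : Q q = Q s := hq'.trans hs'.symm
  rw [hQ, Prod.mk.injEq] at e
  exact hsep q hq s hs e

lemma single_mem_Geo {m : ℕ} (v : Fin (n m)) : Pi.single v (1 : ℝ) ∈ Geo (T m) := by
  refine ⟨fun u => ?_, ?_, ?_⟩
  · by_cases h : u = v
    · subst h
      simp
    · simp [h]
  · simp
  · intro u w hu hw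
    left
    have a : u = v := by
      by_contra h
      exact hu (by simp [h])
    have b : w = v := by
      by_contra h
      exact hw (by simp [h])
    rw [a, b]

lemma seg_mem_Geo {m : ℕ} {u v : Fin (n m)} (h : (T m).Adj u v) {t : ℝ} (ht : t ∈ Icc (0 : ℝ) 1) :
    (1 - t) • (Pi.single u (1 : ℝ) : Fin (n m) → ℝ) + t • Pi.single v (1 : ℝ) ∈ Geo (T m) := by
  obtain ⟨ha0, ha1, _⟩ := single_mem_Geo T u
  obtain ⟨hb0, hb1, _⟩ := single_mem_Geo T v
  have t0 : 0 ≤ 1 - t := by linarith [ht.2]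
  refine ⟨fun w => ?_, ?_, ?_⟩
  · simp only [Pi.add_apply, Pi.smul_apply, smul_eq_mul]
    exact add_nonneg (mul_nonneg t0 (ha0 w)) (mul_nonneg ht.1 (hb0 w))
  · simp only [Pi.add_apply, Pi.smul_apply, smul_eq_mul]
    rw [Finset.sum_add_distrib, ← Finset.mul_sum, ← Finset.mul_sum, ha1, hb1]
    ring
  · have supp : ∀ w, ((1 - t) • (Pi.single u (1 : ℝ)) + t • (Pi.single v (1 : ℝ)) :
        Fin (n m) → ℝ) w ≠ 0 → w = u ∨ w = v := by
      intro w hw
      by_contra hc
      push Not at hc
      apply hw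
      simp [hc.1, hc.2]
    intro w w' hw hw'
    rcases supp w hw with rfl | rfl <;> rcases supp w' hw' with rfl | rfl
    · exact Or.inl rfl
    · exact Or.inr h
    · exact Or.inr h.symm
    · exact Or.inl rfl

/-- Moves of tokens do not leave a clopen part of `E`. -/
lemma step_inv (hTon : ∀ i, ∀ w ∈ Geo (T i), ∃ x, p i x = w)
    (hp : ∀ i x, push (f i) (p (i + 1) x) = p i x) (hc : ∀ i, Continuous (p i))
    (i d : ℕ) {O O' : Set (X × X)} (hO : IsCompact O) (hO' : IsCompact O')
    (hOE : O ∪ O' = Eset p i)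
    (hsep : ∀ q ∈ O, ∀ q' ∈ O', ¬ (p (i + d) q.1 = p (i + d) q'.1 ∧ p (i + d) q.2 = p (i + d) q'.2))
    {a b : Fin (n (i + d)) × Fin (n (i + d))}
    (h : LAB.Conn (T (i + d)).Adj (compo f i d) a b)
    (h0 : ∃ q ∈ O, p (i + d) q.1 = Pi.single a.1 1 ∧ p (i + d) q.2 = Pi.single a.2 1) :
    ∃ q ∈ O, p (i + d) q.1 = Pi.single b.1 1 ∧ p (i + d) q.2 = Pi.single b.2 1 := by
  induction h with
  | refl => exact h0
  | @tail b c _ hbc ih =>
    obtain ⟨q0, hq0, e1, e2⟩ := ih
    obtain ⟨l1, l2, l3⟩ := hbc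
    have hpush : ∀ x, p i x = push (compo f i d) (p (i + d) x) := fun x =>
      (push_compo f p hp i d x).symm
    rcases l3 with ⟨adj, eq⟩ | ⟨eq, adj⟩
    · -- the first token moves
      set cc : ℝ → (Fin (n (i + d)) → ℝ) × (Fin (n (i + d)) → ℝ) := fun t =>
        ((1 - t) • (Pi.single b.1 (1 : ℝ) : Fin (n (i + d)) → ℝ) + t • Pi.single c.1 (1 : ℝ),
          Pi.single b.2 (1 : ℝ)) with hcc
      have hcont : Continuous cc := by
        refine Continuous.prodMk ?_ continuous_const
        exact ((continuous_const.sub continuous_id).smul continuous_const).add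
          (continuous_id.smul continuous_const)
      have := segment (E := Eset p i) p hO hO' hOE hc hsep cc hcont ?_ ?_ ⟨q0, hq0, ?_⟩
      · obtain ⟨q, hq, hq'⟩ := this
        rw [hcc] at hq'
        simp only [sub_self, zero_smul, one_smul, zero_add, Prod.mk.injEq] at hq'
        exact ⟨q, hq, hq'.1, by rw [hq'.2, eq]⟩
      · intro t ht
        obtain ⟨x, hx⟩ := hTon _ _ (seg_mem_Geo T adj ht)
        obtain ⟨y, hy⟩ := hTon _ _ (single_mem_Geo T b.2)
        exact ⟨(x, y), by rw [hcc]; simp only [hx, hy]⟩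
      · intro t ht q hq
        rw [hcc] at hq
        simp only [Prod.mk.injEq] at hq
        intro a
        rw [hpush q.1, hpush q.2, hq.1, hq.2, push_seg, push_single, push_single, push_single]
        by_cases ha : a = compo f i d b.2
        · have n1 : a ≠ compo f i d b.1 := fun h => l1 (h.symm.trans ha)
          have n2 : a ≠ compo f i d c.1 := fun h => l2 (by rw [← eq]; exact h.symm.trans ha)
          simp [n1, n2]
        · simp [ha]
      · rw [hcc]
        simp [e1, e2]
    · -- the second token moves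
      set cc : ℝ → (Fin (n (i + d)) → ℝ) × (Fin (n (i + d)) → ℝ) := fun t =>
        (Pi.single b.1 (1 : ℝ),
          (1 - t) • (Pi.single b.2 (1 : ℝ) : Fin (n (i + d)) → ℝ) + t • Pi.single c.2 (1 : ℝ)) with hcc
      have hcont : Continuous cc := by
        refine Continuous.prodMk continuous_const ?_
        exact ((continuous_const.sub continuous_id).smul continuous_const).add
          (continuous_id.smul continuous_const)
      have := segment (E := Eset p i) p hO hO' hOE hc hsep cc hcont ?_ ?_ ⟨q0, hq0, ?_⟩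
      · obtain ⟨q, hq, hq'⟩ := this
        rw [hcc] at hq'
        simp only [sub_self, zero_smul, one_smul, zero_add, Prod.mk.injEq] at hq'
        exact ⟨q, hq, by rw [hq'.1, eq], hq'.2⟩
      · intro t ht
        obtain ⟨x, hx⟩ := hTon _ _ (single_mem_Geo T b.1)
        obtain ⟨y, hy⟩ := hTon _ _ (seg_mem_Geo T adj ht)
        exact ⟨(x, y), by rw [hcc]; simp only [hx, hy]⟩
      · intro t ht q hq
        rw [hcc] at hq
        simp only [Prod.mk.injEq] at hq
        intro a
        rw [hpush q.1, hpush q.2, hq.1, hq.2, push_seg, push_single, push_single, push_single]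
        by_cases ha : a = compo f i d b.1
        · have n1 : a ≠ compo f i d b.2 := fun h => l1 (ha.symm.trans h)
          have n2 : a ≠ compo f i d c.2 := fun h => l2 (by rw [← eq]; exact ha.symm.trans h)
          simp [n1, n2]
        · simp [ha]
      · rw [hcc]
        simp [e1, e2]

/-- Under (D), for every `i` the labelling `V (i + d) → V i` has no symmetric component, for
some `d`. -/
lemma exists_asymm (hTi : ∀ i x, p i x ∈ Geo (T i))
    (hTon : ∀ i, ∀ w ∈ Geo (T i), ∃ x, p i x = w)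
    (hp : ∀ i x, push (f i) (p (i + 1) x) = p i x) (hc : ∀ i, Continuous (p i))
    (hinj : ∀ x y, (∀ i, p i x = p i y) → x = y)
    (hD : ∀ A B : X, ∀ K : Set (X × X), IsCompact K → IsConnected K →
        (A, B) ∈ K → (B, A) ∈ K → ∃ x : X, (x, x) ∈ K) (i : ℕ) :
    ∃ d, ¬ ∃ x y, compo f i d x ≠ compo f i d y ∧
      LAB.Conn (T (i + d)).Adj (compo f i d) (x, y) (y, x) := by
  by_contra hcon
  push Not at hcon
  choose u v huv hconn using hcon
  -- points over the vertices
  choose a ha using fun d => hTon (i + d) _ (single_mem_Geo T (u d))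
  choose b hb using fun d => hTon (i + d) _ (single_mem_Geo T (v d))
  obtain ⟨q, -, φ, hφ, hq⟩ := (isCompact_univ (X := X × X)).tendsto_subseq
    (x := fun d => (a d, b d)) (fun _ => mem_univ _)
  have hpush : ∀ d x, p i x = push (compo f i d) (p (i + d) x) := fun d x =>
    (push_compo f p hp i d x).symm
  have hEd : ∀ d, (a d, b d) ∈ Eset p i := by
    intro d c
    rw [hpush d (a d, b d).1, hpush d (a d, b d).2]
    simp only
    rw [ha d, hb d, push_single, push_single]
    by_cases hc : c = compo f i d (u d)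
    · have : c ≠ compo f i d (v d) := fun h => huv d (hc.symm.trans h)
      simp [this]
    · simp [hc]
  have hEs : ∀ q : X × X, q ∈ Eset p i → q.swap ∈ Eset p i := by
    intro q hq c
    have := hq c
    rw [mul_comm] at this
    exact this
  have hEcl := isClosed_Eset p hc i
  have hqE : q ∈ Eset p i := hEcl.mem_of_tendsto hq (Eventually.of_forall fun k => hEd _)
  have hqE' : q.swap ∈ Eset p i := hEs _ hqE
  obtain ⟨O, O', hO, hO', hdis, hOE, hqO, hqO'⟩ := split hEcl.isCompact hqE hqE' (by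
    rintro ⟨K, hK1, hK2, hK3, hK4, hK5⟩
    obtain ⟨x, hx⟩ := hD q.1 q.2 K hK2 hK3 hK4 hK5
    exact Eset_diag T p hTi i x (hK1 hx))
  -- the separation level
  have hdec : ∀ j x y, p (j + 1) x = p (j + 1) y → p j x = p j y := by
    intro j x y h
    rw [← hp j x, ← hp j y, h]
  obtain ⟨N, hN⟩ := exists_empty (Y := (X × X) × (X × X))
    (fun j => (O ×ˢ O') ∩ {z | p j z.1.1 = p j z.2.1 ∧ p j z.1.2 = p j z.2.2})
    (fun j => (hO.prod hO').inter_right (by
      refine IsClosed.inter ?_ ?_
      · exact isClosed_eq ((hc j).comp (continuous_fst.comp continuous_fst))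
          ((hc j).comp (continuous_fst.comp continuous_snd))
      · exact isClosed_eq ((hc j).comp (continuous_snd.comp continuous_fst))
          ((hc j).comp (continuous_snd.comp continuous_snd))))
    (fun j z hz => ⟨hz.1, hdec j _ _ hz.2.1, hdec j _ _ hz.2.2⟩)
    (fun z => by
      by_contra hcon
      push Not at hcon
      have h1 : z.1.1 = z.2.1 := hinj _ _ fun j => (hcon j).2.1
      have h2 : z.1.2 = z.2.2 := hinj _ _ fun j => (hcon j).2.2
      have h3 : z.1 = z.2 := Prod.ext h1 h2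
      have h4 := (hcon 0).1
      exact Set.disjoint_left.1 hdis h4.1 (h3 ▸ h4.2))
  -- a good index
  have ev1 : ∀ᶠ k in atTop, (a (φ k), b (φ k)) ∉ O' := by
    have : q ∉ O' := fun h => Set.disjoint_left.1 hdis hqO h
    exact hq.eventually (hO'.isClosed.isOpen_compl.mem_nhds this)
  have ev2 : ∀ᶠ k in atTop, (b (φ k), a (φ k)) ∉ O := by
    have h1 : q.swap ∉ O := fun h => Set.disjoint_left.1 hdis h hqO'
    have h2 : Tendsto (fun k => (b (φ k), a (φ k))) atTop (𝓝 q.swap) :=
      (continuous_swap.tendsto q).comp hq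
    exact h2.eventually (hO.isClosed.isOpen_compl.mem_nhds h1)
  obtain ⟨k, k1, k2, k3⟩ := (ev1.and (ev2.and (eventually_ge_atTop N))).exists
  set d := φ k with hd
  have hdN : N ≤ i + d := le_trans k3 (le_trans (hφ.id_le k) (Nat.le_add_left _ _))
  have hsep : ∀ q ∈ O, ∀ q' ∈ O',
      ¬ (p (i + d) q.1 = p (i + d) q'.1 ∧ p (i + d) q.2 = p (i + d) q'.2) := by
    intro q hq q' hq' h
    have : (q, q') ∈ (∅ : Set ((X × X) × (X × X))) := by
      rw [← hN (i + d) hdN]
      exact ⟨⟨hq, hq'⟩, h⟩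
    exact this
  have m1 : (a d, b d) ∈ O := by
    have := hEd d
    rw [← hOE] at this
    exact this.resolve_right k1
  have m2 : (b d, a d) ∈ O' := by
    have := hEs _ (hEd d)
    rw [← hOE] at this
    exact this.resolve_left k2
  obtain ⟨s, hs, s1, s2⟩ := step_inv T f p hTon hp hc i d hO hO' hOE hsep (hconn d)
    ⟨(a d, b d), m1, ha d, hb d⟩
  refine hsep s hs (b d, a d) m2 ⟨?_, ?_⟩
  · rw [s1, hb d]
  · rw [s2, ha d]

/-- A simplicial inverse limit of trees with (D) is arc-like. -/
theorem arc_like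
    (hfact : ∀ (j i : ℕ) (lam : Fin (n j) → Fin (n i)),
      (¬ ∃ x y, lam x ≠ lam y ∧ LAB.Conn (T j).Adj lam (x, y) (y, x)) →
      ∃ h : Fin (n j) → ℤ, (∀ u v, (T j).Adj u v → |h u - h v| ≤ 1) ∧
        ∀ u v, h u = h v → lam u = lam v)
    (hTi : ∀ i x, p i x ∈ Geo (T i))
    (hTon : ∀ i, ∀ w ∈ Geo (T i), ∃ x, p i x = w)
    (hp : ∀ i x, push (f i) (p (i + 1) x) = p i x) (hc : ∀ i, Continuous (p i))
    (hinj : ∀ x y, (∀ i, p i x = p i y) → x = y)
    (hD : ∀ A B : X, ∀ K : Set (X × X), IsCompact K → IsConnected K →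
        (A, B) ∈ K → (B, A) ∈ K → ∃ x : X, (x, x) ∈ K) (ε : ℝ) (hε : 0 < ε) :
    ∃ g : X → ℝ, Continuous g ∧ ∀ x y, g x = g y → dist x y < ε := by
  have hdec : ∀ j x y, p (j + 1) x = p (j + 1) y → p j x = p j y := by
    intro j x y h
    rw [← hp j x, ← hp j y, h]
  -- a level with small fibres
  obtain ⟨i, hi⟩ := exists_empty (Y := X × X)
    (fun j => {z : X × X | p j z.1 = p j z.2 ∧ ε ≤ dist z.1 z.2})
    (fun j => by
      refine IsClosed.isCompact (IsClosed.inter ?_ ?_)
      · exact isClosed_eq ((hc j).comp continuous_fst) ((hc j).comp continuous_snd)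
      · exact isClosed_le continuous_const continuous_dist)
    (fun j z hz => ⟨hdec j _ _ hz.1, hz.2⟩)
    (fun z => by
      by_contra hcon
      push Not at hcon
      have h1 : z.1 = z.2 := hinj _ _ fun j => (hcon j).1
      have h2 := (hcon 0).2
      rw [h1, dist_self] at h2
      linarith)
  have hsm : ∀ x y, p i x = p i y → dist x y < ε := by
    intro x y h
    by_contra hcon
    push Not at hcon
    have : (x, y) ∈ (∅ : Set (X × X)) := by
      rw [← hi i le_rfl]
      exact ⟨h, hcon⟩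
    exact this
  obtain ⟨d, hd⟩ := exists_asymm T f p hTi hTon hp hc hinj hD i
  obtain ⟨h, h1, h2⟩ := hfact (i + d) i (compo f i d) hd
  refine ⟨fun x => ∑ v, p (i + d) x v * (h v : ℝ), ?_, ?_⟩
  · refine continuous_finsetSum _ fun v _ => ?_
    exact ((continuous_apply v).comp (hc _)).mul continuous_const
  · intro x y hxy
    apply hsm
    rw [← push_compo f p hp i d x, ← push_compo f p hp i d y]
    exact fold_push (T (i + d)) (compo f i d) h h1 h2 (hTi _ x) (hTi _ y) hxy

end limit

/-- Arc-like spaces have (semi)span zero. -/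
theorem arc_like_semispan {X : Type} [MetricSpace X] [CompactSpace X]
    (h : ∀ ε : ℝ, 0 < ε → ∃ g : X → ℝ, Continuous g ∧ ∀ x y, g x = g y → dist x y < ε)
    (Z : Set (X × X)) (hZ : IsCompact Z) (hZc : IsConnected Z)
    (hproj : Prod.snd '' Z ⊆ Prod.fst '' Z) : ∃ x : X, (x, x) ∈ Z := by
  by_contra hcon
  push Not at hcon
  -- the distance is bounded below on `Z`
  obtain ⟨q0, hq0, hmin⟩ := hZ.exists_isMinOn hZc.nonempty
    (continuous_dist.continuousOn : ContinuousOn (fun q : X × X => dist q.1 q.2) Z)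
  have hpos : 0 < dist q0.1 q0.2 := by
    rw [dist_pos]
    intro h
    apply hcon q0.1
    have : (q0.1, q0.1) = q0 := Prod.ext rfl h
    rw [this]
    exact hq0
  obtain ⟨g, hg, hg2⟩ := h _ hpos
  have hne : ∀ q ∈ Z, g q.1 ≠ g q.2 := by
    intro q hq he
    have h1 := hg2 _ _ he
    have h2 : dist q0.1 q0.2 ≤ dist q.1 q.2 := hmin hq
    linarith
  have hcont : ContinuousOn (fun q : X × X => g q.1 - g q.2) Z :=
    ((hg.comp continuous_fst).sub (hg.comp continuous_snd)).continuousOn
  have hfst : IsCompact (Prod.fst '' Z) := hZ.image continuous_fst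
  have hfne : (Prod.fst '' Z).Nonempty := hZc.nonempty.image _
  have ord : (Set.image (fun q : X × X => g q.1 - g q.2) Z).OrdConnected :=
    (hZc.isPreconnected.image _ hcont).ordConnected
  by_cases hs : ∃ q ∈ Z, g q.1 < g q.2
  · -- then `g x < g y` on all of `Z`
    have hall : ∀ q ∈ Z, g q.1 < g q.2 := by
      intro q hq
      by_contra hc
      push Not at hc
      obtain ⟨s, hs, hs'⟩ := hs
      have h0 : (0 : ℝ) ∈ Set.image (fun q : X × X => g q.1 - g q.2) Z :=
        ord.out ⟨s, hs, rfl⟩ ⟨q, hq, rfl⟩ ⟨by simp only; linarith, by simp only; linarith⟩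
      obtain ⟨r, hr, hr'⟩ := h0
      exact hne r hr (by simpa [sub_eq_zero] using hr')
    obtain ⟨x, hx, hmax⟩ := hfst.exists_isMaxOn hfne hg.continuousOn
    obtain ⟨q, hq, rfl⟩ := hx
    have h1 := hall q hq
    have h2 : q.2 ∈ Prod.fst '' Z := hproj ⟨q, hq, rfl⟩
    have h3 : g q.2 ≤ g q.1 := hmax h2
    linarith
  · push Not at hs
    have hall : ∀ q ∈ Z, g q.2 < g q.1 := fun q hq => lt_of_le_of_ne (hs q hq) (hne q hq).symm
    obtain ⟨x, hx, hmin'⟩ := hfst.exists_isMinOn hfne hg.continuousOn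
    obtain ⟨q, hq, rfl⟩ := hx
    have h1 := hall q hq
    have h2 : q.2 ∈ Prod.fst '' Z := hproj ⟨q, hq, rfl⟩
    have h3 : g q.1 ≤ g q.2 := hmin' h2
    linarith

end Pool.MP_4b5926_gt
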